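import Mathlib

/-!
Basic objects for the upper bound on the running time of `K_{3,3}`-bootstrap percolation:
abstract bipartite `K_{3,3}^-`-completion processes, the merge lemma, and the family of
complete blocks generated by the four-cycles of a set `F` of edges.
-/

namespace MP_01cec5_co

open Finset

variable {α β : Type*} [DecidableEq α] [DecidableEq β]

/-- A monotone bipartite process in which every pair completing a `K_{3,3}` minus one pair
at time `t` is present at time `t + 1`. -/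
structure Proc (E : ℕ → α → β → Prop) : Prop where
  mono : ∀ {s t : ℕ} {x : α} {y : β}, s ≤ t → E s x y → E t x y
  step : ∀ (t : ℕ) (x1 x2 x3 : α) (y1 y2 y3 : β), x1 ≠ x2 → x1 ≠ x3 → x2 ≠ x3 →
    y1 ≠ y2 → y1 ≠ y3 → y2 ≠ y3 →
    E t x1 y1 → E t x1 y2 → E t x1 y3 → E t x2 y1 → E t x2 y2 → E t x2 y3 →
    E t x3 y1 → E t x3 y2 → E (t + 1) x3 y3

/-- All pairs of `A × B` are present at time `t`. -/
def Comp (E : ℕ → α → β → Prop) (t : ℕ) (A : Finset α) (B : Finset β) : Prop :=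
  ∀ x ∈ A, ∀ y ∈ B, E t x y

omit [DecidableEq α] [DecidableEq β] in
lemma Comp.mono {E : ℕ → α → β → Prop} (hE : Proc E) {s t : ℕ} (hst : s ≤ t)
    {A : Finset α} {B : Finset β} (h : Comp E s A B) : Comp E t A B :=
  fun x hx y hy => hE.mono hst (h x hx y hy)

omit [DecidableEq α] in
lemma exists_two {A : Finset α} (h : 2 ≤ A.card) : ∃ x ∈ A, ∃ y ∈ A, x ≠ y := by
  obtain ⟨x, hx, y, hy, hxy⟩ := Finset.one_lt_card.mp h
  exact ⟨x, hx, y, hy, hxy⟩

/-- the merge lemma: a cross pair of two complete blocks sharing two vertices of either side. -/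
lemma cross {E : ℕ → α → β → Prop} (hE : Proc E) {t : ℕ} {A1 A2 : Finset α} {B1 B2 : Finset β}
    (h1 : Comp E t A1 B1) (h2 : Comp E t A2 B2)
    (hA2 : 2 ≤ A2.card) (hB1 : 2 ≤ B1.card)
    (hsh : 2 ≤ (A1 ∩ A2).card ∨ 2 ≤ (B1 ∩ B2).card)
    {x : α} {y : β} (hx1 : x ∈ A1) (hx2 : x ∉ A2) (hy1 : y ∉ B1) (hy2 : y ∈ B2) :
    E (t + 1) x y := by
  rcases hsh with hsh | hsh
  · obtain ⟨u, hu, v, hv, huv⟩ := exists_two hsh
    obtain ⟨p, hp, q, hq, hpq⟩ := exists_two hB1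
    rw [mem_inter] at hu hv
    have hux : u ≠ x := fun h => hx2 (h ▸ hu.2)
    have hvx : v ≠ x := fun h => hx2 (h ▸ hv.2)
    have hpy : p ≠ y := fun h => hy1 (h ▸ hp)
    have hqy : q ≠ y := fun h => hy1 (h ▸ hq)
    exact hE.step t u v x p q y huv hux hvx hpq hpy hqy
      (h1 u hu.1 p hp) (h1 u hu.1 q hq) (h2 u hu.2 y hy2)
      (h1 v hv.1 p hp) (h1 v hv.1 q hq) (h2 v hv.2 y hy2)
      (h1 x hx1 p hp) (h1 x hx1 q hq)
  · obtain ⟨u, hu, v, hv, huv⟩ := exists_two hsh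
    obtain ⟨p, hp, q, hq, hpq⟩ := exists_two hA2
    rw [mem_inter] at hu hv
    have huy : u ≠ y := fun h => hy1 (h ▸ hu.1)
    have hvy : v ≠ y := fun h => hy1 (h ▸ hv.1)
    have hpx : p ≠ x := fun h => hx2 (h ▸ hp)
    have hqx : q ≠ x := fun h => hx2 (h ▸ hq)
    exact hE.step t p q x u v y hpq hpx hqx huv huy hvy
      (h2 p hp u hu.2) (h2 p hp v hv.2) (h2 p hp y hy2)
      (h2 q hq u hu.2) (h2 q hq v hv.2) (h2 q hq y hy2)
      (h1 x hx1 u hu.1) (h1 x hx1 v hv.1)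

lemma merge {E : ℕ → α → β → Prop} (hE : Proc E) {t : ℕ} {A1 A2 : Finset α} {B1 B2 : Finset β}
    (h1 : Comp E t A1 B1) (h2 : Comp E t A2 B2)
    (hA1 : 2 ≤ A1.card) (hA2 : 2 ≤ A2.card) (hB1 : 2 ≤ B1.card) (hB2 : 2 ≤ B2.card)
    (hsh : 2 ≤ (A1 ∩ A2).card ∨ 2 ≤ (B1 ∩ B2).card) :
    Comp E (t + 1) (A1 ∪ A2) (B1 ∪ B2) := by
  intro x hx y hy
  by_cases hx1 : x ∈ A1 <;> by_cases hx2 : x ∈ A2 <;> by_cases hy1 : y ∈ B1 <;>
    by_cases hy2 : y ∈ B2
  · exact hE.mono (Nat.le_succ t) (h1 x hx1 y hy1)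
  · exact hE.mono (Nat.le_succ t) (h1 x hx1 y hy1)
  · exact hE.mono (Nat.le_succ t) (h2 x hx2 y hy2)
  · simp [hy1, hy2] at hy
  · exact hE.mono (Nat.le_succ t) (h1 x hx1 y hy1)
  · exact hE.mono (Nat.le_succ t) (h1 x hx1 y hy1)
  · exact cross hE h1 h2 hA2 hB1 hsh hx1 hx2 hy1 hy2
  · simp [hy1, hy2] at hy
  · exact hE.mono (Nat.le_succ t) (h2 x hx2 y hy2)
  · refine cross hE h2 h1 hA1 hB2 ?_ hx2 hx1 hy2 hy1
    rwa [inter_comm A2 A1, inter_comm B2 B1]
  · exact hE.mono (Nat.le_succ t) (h2 x hx2 y hy2)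
  · simp [hy1, hy2] at hy
  all_goals simp [hx1, hx2] at hx

/-- The blocks generated by the four-cycles of `F` (with a bound `r` on the number of rounds). -/
inductive Mem (F : Finset (α × β)) : ℕ → Finset α → Finset β → Prop
  | base {x x' : α} {y y' : β} : x ≠ x' → y ≠ y' → (x, y) ∈ F → (x, y') ∈ F → (x', y) ∈ F →
      (x', y') ∈ F → Mem F 0 {x, x'} {y, y'}
  | up {r : ℕ} {A : Finset α} {B : Finset β} : Mem F r A B → Mem F (r + 1) A B
  | join {r : ℕ} {A1 A2 : Finset α} {B1 B2 : Finset β} : Mem F r A1 B1 → Mem F r A2 B2 →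
      (2 ≤ (A1 ∩ A2).card ∨ 2 ≤ (B1 ∩ B2).card) → Mem F (r + 1) (A1 ∪ A2) (B1 ∪ B2)

variable {F : Finset (α × β)}

lemma Mem.two_le {r : ℕ} {A : Finset α} {B : Finset β} (h : Mem F r A B) :
    2 ≤ A.card ∧ 2 ≤ B.card := by
  induction h with
  | base hx hy _ _ _ _ => exact ⟨(card_pair hx).ge, (card_pair hy).ge⟩
  | up _ ih => exact ih
  | join _ _ _ ih1 _ =>
    exact ⟨ih1.1.trans (card_le_card subset_union_left),
      ih1.2.trans (card_le_card subset_union_left)⟩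

lemma Mem.subset {A₀ : Finset α} {B₀ : Finset β} (hF : F ⊆ A₀ ×ˢ B₀) {r : ℕ} {A : Finset α}
    {B : Finset β} (h : Mem F r A B) : A ⊆ A₀ ∧ B ⊆ B₀ := by
  induction h with
  | base hx hy h1 h2 h3 h4 =>
    have a1 := mem_product.mp (hF h1)
    have a2 := mem_product.mp (hF h2)
    have a3 := mem_product.mp (hF h3)
    constructor
    · intro z hz
      simp only [mem_insert, mem_singleton] at hz
      rcases hz with rfl | rfl
      · exact a1.1
      · exact a3.1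
    · intro z hz
      simp only [mem_insert, mem_singleton] at hz
      rcases hz with rfl | rfl
      · exact a1.2
      · exact a2.2
  | up _ ih => exact ih
  | join _ _ _ ih1 ih2 =>
    exact ⟨union_subset ih1.1 ih2.1, union_subset ih1.2 ih2.2⟩

lemma Mem.mono {F' : Finset (α × β)} (hF : F ⊆ F') {r : ℕ} {A : Finset α} {B : Finset β}
    (h : Mem F r A B) : Mem F' r A B := by
  induction h with
  | base hx hy h1 h2 h3 h4 => exact Mem.base hx hy (hF h1) (hF h2) (hF h3) (hF h4)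
  | up _ ih => exact Mem.up ih
  | join _ _ hsh ih1 ih2 => exact Mem.join ih1 ih2 hsh

lemma Mem.le {r s : ℕ} (hrs : r ≤ s) {A : Finset α} {B : Finset β} (h : Mem F r A B) :
    Mem F s A B := by
  induction hrs with
  | refl => exact h
  | step _ ih => exact Mem.up ih

lemma Mem.comp {E : ℕ → α → β → Prop} (hE : Proc E) {t : ℕ} (hF : ∀ f ∈ F, E t f.1 f.2)
    {r : ℕ} {A : Finset α} {B : Finset β} (h : Mem F r A B) : Comp E (t + r) A B := by
  induction h with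
  | base hx hy h1 h2 h3 h4 =>
    intro u hu v hv
    simp only [mem_insert, mem_singleton] at hu hv
    rcases hu with rfl | rfl <;> rcases hv with rfl | rfl
    · exact hF _ h1
    · exact hF _ h2
    · exact hF _ h3
    · exact hF _ h4
  | up _ ih => exact ih.mono hE (by omega)
  | join m1 m2 hsh ih1 ih2 =>
    have := merge hE ih1 ih2 m1.two_le.1 m2.two_le.1 m1.two_le.2 m2.two_le.2 hsh
    exact this

lemma Mem.fast {r : ℕ} {A : Finset α} {B : Finset β} (h : Mem F r A B) :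
    Mem F (A.card + B.card) A B := by
  induction h with
  | base hx hy h1 h2 h3 h4 => exact (Mem.base hx hy h1 h2 h3 h4).le (Nat.zero_le _)
  | up _ ih => exact ih
  | @join r A1 A2 B1 B2 m1 m2 hsh ih1 ih2 =>
    have ca1 : A1.card ≤ (A1 ∪ A2).card := card_le_card subset_union_left
    have ca2 : A2.card ≤ (A1 ∪ A2).card := card_le_card subset_union_right
    have cb1 : B1.card ≤ (B1 ∪ B2).card := card_le_card subset_union_left
    have cb2 : B2.card ≤ (B1 ∪ B2).card := card_le_card subset_union_right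
    by_cases e1 : A1.card + B1.card = (A1 ∪ A2).card + (B1 ∪ B2).card
    · have ea : A1 = A1 ∪ A2 := eq_of_subset_of_card_le subset_union_left (by omega)
      have eb : B1 = B1 ∪ B2 := eq_of_subset_of_card_le subset_union_left (by omega)
      rw [← ea, ← eb]
      exact ih1
    by_cases e2 : A2.card + B2.card = (A1 ∪ A2).card + (B1 ∪ B2).card
    · have ea : A2 = A1 ∪ A2 := eq_of_subset_of_card_le subset_union_right (by omega)
      have eb : B2 = B1 ∪ B2 := eq_of_subset_of_card_le subset_union_right (by omega)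
      rw [← ea, ← eb]
      exact ih2
    obtain ⟨k, hk⟩ : ∃ k, (A1 ∪ A2).card + (B1 ∪ B2).card = k + 1 :=
      ⟨(A1 ∪ A2).card + (B1 ∪ B2).card - 1, by have := m1.two_le; omega⟩
    rw [hk]
    exact Mem.join (ih1.le (by omega)) (ih2.le (by omega)) hsh

/-- `(A, B)` is a block of `F`. -/
def Blk (F : Finset (α × β)) (D : Finset α × Finset β) : Prop := ∃ r, Mem F r D.1 D.2

lemma Blk.two_le {D : Finset α × Finset β} (h : Blk F D) : 2 ≤ D.1.card ∧ 2 ≤ D.2.card := by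
  obtain ⟨r, hr⟩ := h
  exact hr.two_le

lemma Blk.subset {A₀ : Finset α} {B₀ : Finset β} (hF : F ⊆ A₀ ×ˢ B₀)
    {D : Finset α × Finset β} (h : Blk F D) : D.1 ⊆ A₀ ∧ D.2 ⊆ B₀ := by
  obtain ⟨r, hr⟩ := h
  exact hr.subset hF

lemma Blk.mono {F' : Finset (α × β)} (hF : F ⊆ F') {D : Finset α × Finset β} (h : Blk F D) :
    Blk F' D := by
  obtain ⟨r, hr⟩ := h
  exact ⟨r, hr.mono hF⟩

lemma Blk.comp {E : ℕ → α → β → Prop} (hE : Proc E) {t : ℕ} (hF : ∀ f ∈ F, E t f.1 f.2)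
    {D : Finset α × Finset β} (h : Blk F D) : Comp E (t + (D.1.card + D.2.card)) D.1 D.2 := by
  obtain ⟨r, hr⟩ := h
  exact hr.fast.comp hE hF

lemma Blk.join {D D' : Finset α × Finset β} (h : Blk F D) (h' : Blk F D')
    (hsh : 2 ≤ (D.1 ∩ D'.1).card ∨ 2 ≤ (D.2 ∩ D'.2).card) :
    Blk F (D.1 ∪ D'.1, D.2 ∪ D'.2) := by
  obtain ⟨r, hr⟩ := h
  obtain ⟨s, hs⟩ := h'
  exact ⟨max r s + 1, (hr.le (le_max_left _ _)).join (hs.le (le_max_right _ _)) hsh⟩

lemma Blk.c4 {x x' : α} {y y' : β} (hx : x ≠ x') (hy : y ≠ y') (h1 : (x, y) ∈ F)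
    (h2 : (x, y') ∈ F) (h3 : (x', y) ∈ F) (h4 : (x', y') ∈ F) :
    Blk F ({x, x'}, {y, y'}) := ⟨0, Mem.base hx hy h1 h2 h3 h4⟩

open Classical in
/-- The maximal blocks of `F ⊆ A₀ × B₀`. -/
noncomputable def maxBlk (F : Finset (α × β)) (A₀ : Finset α) (B₀ : Finset β) :
    Finset (Finset α × Finset β) :=
  (A₀.powerset ×ˢ B₀.powerset).filter
    (fun D => Blk F D ∧ ∀ D', Blk F D' → D.1 ⊆ D'.1 → D.2 ⊆ D'.2 → D' = D)

lemma mem_maxBlk {A₀ : Finset α} {B₀ : Finset β} (hF : F ⊆ A₀ ×ˢ B₀)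
    {D : Finset α × Finset β} : D ∈ maxBlk F A₀ B₀ ↔
      Blk F D ∧ ∀ D', Blk F D' → D.1 ⊆ D'.1 → D.2 ⊆ D'.2 → D' = D := by
  classical
  unfold maxBlk
  rw [mem_filter]
  constructor
  · exact fun h => h.2
  · intro h
    refine ⟨?_, h⟩
    rw [mem_product, mem_powerset, mem_powerset]
    exact h.1.subset hF

lemma exists_maxBlk {A₀ : Finset α} {B₀ : Finset β} (hF : F ⊆ A₀ ×ˢ B₀)
    {D : Finset α × Finset β} (hD : Blk F D) :
    ∃ D' ∈ maxBlk F A₀ B₀, D.1 ⊆ D'.1 ∧ D.2 ⊆ D'.2 := by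
  classical
  let S : Finset (Finset α × Finset β) := (A₀.powerset ×ˢ B₀.powerset).filter
    (fun D' => Blk F D' ∧ D.1 ⊆ D'.1 ∧ D.2 ⊆ D'.2)
  have hSm : ∀ D', D' ∈ S ↔ Blk F D' ∧ D.1 ⊆ D'.1 ∧ D.2 ⊆ D'.2 := by
    intro D'
    simp only [S, mem_filter, mem_product, mem_powerset]
    exact ⟨fun h => h.2, fun h => ⟨h.1.subset hF, h⟩⟩
  have hSne : S.Nonempty := ⟨D, (hSm D).mpr ⟨hD, Subset.refl _, Subset.refl _⟩⟩
  obtain ⟨M, hM, hmax⟩ := S.exists_max_image (fun D' => D'.1.card + D'.2.card) hSne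
  have hM' := (hSm M).mp hM
  refine ⟨M, (mem_maxBlk hF).mpr ⟨hM'.1, ?_⟩, hM'.2⟩
  intro D' hD' h1 h2
  have := hmax D' ((hSm D').mpr ⟨hD', hM'.2.1.trans h1, hM'.2.2.trans h2⟩)
  have c1 := card_le_card h1
  have c2 := card_le_card h2
  have e1 : M.1 = D'.1 := eq_of_subset_of_card_le h1 (by omega)
  have e2 : M.2 = D'.2 := eq_of_subset_of_card_le h2 (by omega)
  exact (Prod.ext e1 e2).symm

lemma maxBlk_disj {A₀ : Finset α} {B₀ : Finset β} (hF : F ⊆ A₀ ×ˢ B₀)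
    {D D' : Finset α × Finset β} (hD : D ∈ maxBlk F A₀ B₀) (hD' : D' ∈ maxBlk F A₀ B₀)
    (hne : D ≠ D') : (D.1 ∩ D'.1).card ≤ 1 ∧ (D.2 ∩ D'.2).card ≤ 1 := by
  rw [mem_maxBlk hF] at hD hD'
  by_contra hcon
  have hsh : 2 ≤ (D.1 ∩ D'.1).card ∨ 2 ≤ (D.2 ∩ D'.2).card := by
    by_contra h
    push Not at h
    apply hcon
    omega
  have hj := hD.1.join hD'.1 hsh
  have e1 := hD.2 _ hj subset_union_left subset_union_left
  have e2 := hD'.2 _ hj subset_union_right subset_union_right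
  exact hne (e1.symm.trans e2)

end MP_01cec5_co
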