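import Mathlib
import Pool.Agent.Lib.MP_01cec5_co.Merge

/-!
Counting inequalities for pairs of edges sharing a vertex.
-/

namespace MP_01cec5_co

open Finset

variable {α β : Type*} [DecidableEq α] [DecidableEq β]

/-- ordered pairs of edges of `F` with the same right end -/
def pR (F : Finset (α × β)) : Finset ((α × β) × (α × β)) :=
  (F ×ˢ F).filter (fun p => p.1.2 = p.2.2)

/-- ordered pairs of edges of `F` with the same left end -/
def pL (F : Finset (α × β)) : Finset ((α × β) × (α × β)) :=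
  (F ×ˢ F).filter (fun p => p.1.1 = p.2.1)

/-- the number of ordered pairs of edges of `F` sharing a vertex, counted on both sides -/
def P (F : Finset (α × β)) : ℕ := (pR F).card + (pL F).card

/-- the restriction of `F` to a block -/
def res (F : Finset (α × β)) (D : Finset α × Finset β) : Finset (α × β) :=
  F.filter (fun f => f.1 ∈ D.1 ∧ f.2 ∈ D.2)

lemma res_subset (F : Finset (α × β)) (D : Finset α × Finset β) : res F D ⊆ F :=
  filter_subset _ _

lemma res_subset' (F : Finset (α × β)) (D : Finset α × Finset β) : res F D ⊆ D.1 ×ˢ D.2 := by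
  intro f hf
  rw [res, mem_filter] at hf
  rw [mem_product]
  exact hf.2

/-- `DD` covers the four-cycles of `F`. -/
def Covers (F : Finset (α × β)) (DD : Finset (Finset α × Finset β)) : Prop :=
  ∀ (x x' : α) (y y' : β), x ≠ x' → y ≠ y' → (x, y) ∈ F → (x, y') ∈ F → (x', y) ∈ F →
    (x', y') ∈ F → ∃ D ∈ DD, x ∈ D.1 ∧ x' ∈ D.1 ∧ y ∈ D.2 ∧ y' ∈ D.2

lemma card_pR_le {F : Finset (α × β)} {A₀ : Finset α} {B₀ : Finset β} (hF : F ⊆ A₀ ×ˢ B₀)
    {DD : Finset (Finset α × Finset β)} (hDD : Covers F DD) :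
    (pR F).card ≤ F.card + A₀.card * A₀.card + ∑ D ∈ DD, (pR (res F D)).card := by
  classical
  let U : Finset ((α × β) × (α × β)) := (pR F).filter (fun p => p.1.1 ≠ p.2.1 ∧
    ∀ y', (p.1.1, y') ∈ F → (p.2.1, y') ∈ F → y' = p.1.2)
  have hsub : pR F ⊆ (F.image (fun f => (f, f)) ∪ U) ∪ DD.biUnion (fun D => pR (res F D)) := by
    rintro ⟨⟨x, y⟩, ⟨x', y1⟩⟩ hp
    have hp' := hp
    simp only [pR, mem_filter, mem_product] at hp
    obtain ⟨⟨h1, h2⟩, rfl⟩ := hp
    by_cases hx : x = x'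
    · subst hx
      apply mem_union_left
      apply mem_union_left
      rw [mem_image]
      exact ⟨(x, y), h1, rfl⟩
    by_cases hu : ∀ y', (x, y') ∈ F → (x', y') ∈ F → y' = y
    · apply mem_union_left
      apply mem_union_right
      simp only [U, mem_filter]
      exact ⟨hp', hx, hu⟩
    · push Not at hu
      obtain ⟨y', hy1, hy2, hne⟩ := hu
      apply mem_union_right
      obtain ⟨D, hD, a1, a2, a3, a4⟩ := hDD x x' y y' hx hne.symm h1 hy1 h2 hy2
      rw [mem_biUnion]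
      refine ⟨D, hD, ?_⟩
      simp only [pR, res, mem_filter, mem_product]
      exact ⟨⟨⟨h1, a1, a3⟩, ⟨h2, a2, a3⟩⟩, trivial⟩
  have hU : U.card ≤ A₀.card * A₀.card := by
    rw [← card_product]
    apply card_le_card_of_injOn (fun p => (p.1.1, p.2.1))
    · rintro ⟨⟨x, y⟩, ⟨x', y1⟩⟩ hp
      simp only [U, pR, coe_filter, mem_product, Set.mem_ofPred_eq, mem_filter] at hp
      have e1 := mem_product.mp (hF hp.1.1.1)
      have e2 := mem_product.mp (hF hp.1.1.2)
      simp only [coe_product, Set.mem_prod, mem_coe]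
      exact ⟨e1.1, e2.1⟩
    · rintro ⟨⟨x, y⟩, ⟨x', y1⟩⟩ hp ⟨⟨u, v⟩, ⟨u', v1⟩⟩ hq heq
      simp only [U, pR, coe_filter, mem_product, Set.mem_ofPred_eq, mem_filter] at hp hq
      simp only [Prod.mk.injEq] at heq
      obtain ⟨rfl, rfl⟩ := heq
      obtain ⟨⟨⟨p1, p2⟩, rfl⟩, p3, p4⟩ := hp
      obtain ⟨⟨⟨q1, q2⟩, rfl⟩, q3, q4⟩ := hq
      have := p4 v q1 q2
      subst this
      rfl
  calc (pR F).card ≤ ((F.image (fun f => (f, f)) ∪ U) ∪
        DD.biUnion (fun D => pR (res F D))).card := card_le_card hsub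
    _ ≤ (F.image (fun f => (f, f)) ∪ U).card + (DD.biUnion (fun D => pR (res F D))).card :=
        card_union_le _ _
    _ ≤ ((F.image (fun f => (f, f))).card + U.card) +
        (DD.biUnion (fun D => pR (res F D))).card := by
        have := card_union_le (F.image (fun f => (f, f))) U
        omega
    _ ≤ (F.card + A₀.card * A₀.card) + ∑ D ∈ DD, (pR (res F D)).card := by
        have h1 : (F.image (fun f => (f, f))).card ≤ F.card := card_image_le
        have h2 : (DD.biUnion (fun D => pR (res F D))).card ≤ ∑ D ∈ DD, (pR (res F D)).card :=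
          card_biUnion_le
        omega

lemma card_pL_le {F : Finset (α × β)} {A₀ : Finset α} {B₀ : Finset β} (hF : F ⊆ A₀ ×ˢ B₀)
    {DD : Finset (Finset α × Finset β)} (hDD : Covers F DD) :
    (pL F).card ≤ F.card + B₀.card * B₀.card + ∑ D ∈ DD, (pL (res F D)).card := by
  classical
  let U : Finset ((α × β) × (α × β)) := (pL F).filter (fun p => p.1.2 ≠ p.2.2 ∧
    ∀ x', (x', p.1.2) ∈ F → (x', p.2.2) ∈ F → x' = p.1.1)
  have hsub : pL F ⊆ (F.image (fun f => (f, f)) ∪ U) ∪ DD.biUnion (fun D => pL (res F D)) := by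
    rintro ⟨⟨x, y⟩, ⟨x1, y'⟩⟩ hp
    have hp' := hp
    simp only [pL, mem_filter, mem_product] at hp
    obtain ⟨⟨h1, h2⟩, rfl⟩ := hp
    by_cases hy : y = y'
    · subst hy
      apply mem_union_left
      apply mem_union_left
      rw [mem_image]
      exact ⟨(x, y), h1, rfl⟩
    by_cases hu : ∀ x', (x', y) ∈ F → (x', y') ∈ F → x' = x
    · apply mem_union_left
      apply mem_union_right
      simp only [U, mem_filter]
      exact ⟨hp', hy, hu⟩
    · push Not at hu
      obtain ⟨x', hx1, hx2, hne⟩ := hu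
      apply mem_union_right
      obtain ⟨D, hD, a1, a2, a3, a4⟩ := hDD x x' y y' hne.symm hy h1 h2 hx1 hx2
      rw [mem_biUnion]
      refine ⟨D, hD, ?_⟩
      simp only [pL, res, mem_filter, mem_product]
      exact ⟨⟨⟨h1, a1, a3⟩, ⟨h2, a1, a4⟩⟩, trivial⟩
  have hU : U.card ≤ B₀.card * B₀.card := by
    rw [← card_product]
    apply card_le_card_of_injOn (fun p => (p.1.2, p.2.2))
    · rintro ⟨⟨x, y⟩, ⟨x1, y'⟩⟩ hp
      simp only [U, pL, coe_filter, mem_product, Set.mem_ofPred_eq, mem_filter] at hp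
      have e1 := mem_product.mp (hF hp.1.1.1)
      have e2 := mem_product.mp (hF hp.1.1.2)
      simp only [coe_product, Set.mem_prod, mem_coe]
      exact ⟨e1.2, e2.2⟩
    · rintro ⟨⟨x, y⟩, ⟨x1, y'⟩⟩ hp ⟨⟨u, v⟩, ⟨u1, v'⟩⟩ hq heq
      simp only [U, pL, coe_filter, mem_product, Set.mem_ofPred_eq, mem_filter] at hp hq
      simp only [Prod.mk.injEq] at heq
      obtain ⟨rfl, rfl⟩ := heq
      obtain ⟨⟨⟨p1, p2⟩, rfl⟩, p3, p4⟩ := hp
      obtain ⟨⟨⟨q1, q2⟩, rfl⟩, q3, q4⟩ := hq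
      have := p4 u q1 q2
      subst this
      rfl
  calc (pL F).card ≤ ((F.image (fun f => (f, f)) ∪ U) ∪
        DD.biUnion (fun D => pL (res F D))).card := card_le_card hsub
    _ ≤ (F.image (fun f => (f, f)) ∪ U).card + (DD.biUnion (fun D => pL (res F D))).card :=
        card_union_le _ _
    _ ≤ ((F.image (fun f => (f, f))).card + U.card) +
        (DD.biUnion (fun D => pL (res F D))).card := by
        have := card_union_le (F.image (fun f => (f, f))) U
        omega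
    _ ≤ (F.card + B₀.card * B₀.card) + ∑ D ∈ DD, (pL (res F D)).card := by
        have h1 : (F.image (fun f => (f, f))).card ≤ F.card := card_image_le
        have h2 : (DD.biUnion (fun D => pL (res F D))).card ≤ ∑ D ∈ DD, (pL (res F D)).card :=
          card_biUnion_le
        omega

omit [DecidableEq α] [DecidableEq β] in
lemma card_F_le {F : Finset (α × β)} {A₀ : Finset α} {B₀ : Finset β} (hF : F ⊆ A₀ ×ˢ B₀) :
    F.card ≤ A₀.card * B₀.card := by
  rw [← card_product]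
  exact card_le_card hF

/-- inequality (I1) -/
lemma P_le {F : Finset (α × β)} {A₀ : Finset α} {B₀ : Finset β} (hF : F ⊆ A₀ ×ˢ B₀)
    {DD : Finset (Finset α × Finset β)} (hDD : Covers F DD) :
    P F ≤ (A₀.card + B₀.card) ^ 2 + ∑ D ∈ DD, P (res F D) := by
  have h1 := card_pR_le hF hDD
  have h2 := card_pL_le hF hDD
  have h3 := card_F_le hF
  have h4 : ∑ D ∈ DD, P (res F D) =
      ∑ D ∈ DD, (pR (res F D)).card + ∑ D ∈ DD, (pL (res F D)).card := by
    rw [← sum_add_distrib]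
    rfl
  rw [h4]
  unfold P
  linarith [h1, h2, h3]

/-- crude bound -/
lemma P_crude {F : Finset (α × β)} {A₀ : Finset α} {B₀ : Finset β} (hF : F ⊆ A₀ ×ˢ B₀) :
    P F ≤ F.card * (A₀.card + B₀.card) := by
  have h1 : (pR F).card ≤ F.card * A₀.card := by
    rw [← card_product]
    apply card_le_card_of_injOn (fun p => (p.1, p.2.1))
    · rintro ⟨⟨x, y⟩, ⟨x', y1⟩⟩ hp
      simp only [pR, coe_filter, mem_product, Set.mem_ofPred_eq] at hp
      have e2 := mem_product.mp (hF hp.1.2)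
      simp only [coe_product, Set.mem_prod, mem_coe]
      exact ⟨hp.1.1, e2.1⟩
    · rintro ⟨⟨x, y⟩, ⟨x', y1⟩⟩ hp ⟨⟨u, v⟩, ⟨u', v1⟩⟩ hq heq
      simp only [pR, coe_filter, mem_product, Set.mem_ofPred_eq] at hp hq
      simp only [Prod.mk.injEq] at heq
      obtain ⟨⟨rfl, rfl⟩, rfl⟩ := heq
      obtain ⟨_, rfl⟩ := hp
      obtain ⟨_, rfl⟩ := hq
      rfl
  have h2 : (pL F).card ≤ F.card * B₀.card := by
    rw [← card_product]
    apply card_le_card_of_injOn (fun p => (p.1, p.2.2))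
    · rintro ⟨⟨x, y⟩, ⟨x', y1⟩⟩ hp
      simp only [pL, coe_filter, mem_product, Set.mem_ofPred_eq] at hp
      have e2 := mem_product.mp (hF hp.1.2)
      simp only [coe_product, Set.mem_prod, mem_coe]
      exact ⟨hp.1.1, e2.2⟩
    · rintro ⟨⟨x, y⟩, ⟨x', y1⟩⟩ hp ⟨⟨u, v⟩, ⟨u', v1⟩⟩ hq heq
      simp only [pL, coe_filter, mem_product, Set.mem_ofPred_eq] at hp hq
      simp only [Prod.mk.injEq] at heq
      obtain ⟨⟨rfl, rfl⟩, rfl⟩ := heq
      obtain ⟨_, rfl⟩ := hp
      obtain ⟨_, rfl⟩ := hq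
      rfl
  unfold P
  rw [mul_add]
  omega

/-- adding a few edges changes `P` by little -/
lemma P_union_le {F G : Finset (α × β)} {A₀ : Finset α} {B₀ : Finset β} (hF : F ⊆ A₀ ×ˢ B₀)
    (hG : G ⊆ A₀ ×ˢ B₀) :
    P (F ∪ G) ≤ P F + 2 * (G.card * (A₀.card + B₀.card)) := by
  classical
  have hFG : F ∪ G ⊆ A₀ ×ˢ B₀ := union_subset hF hG
  -- same right end
  have h1 : (pR (F ∪ G)).card ≤ (pR F).card + 2 * (G.card * A₀.card) := by
    have hs : pR (F ∪ G) ⊆ pR F ∪ ((pR (F ∪ G)).filter (fun p => p.1 ∈ G) ∪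
        (pR (F ∪ G)).filter (fun p => p.2 ∈ G)) := by
      intro p hp
      by_cases g1 : p.1 ∈ G
      · exact mem_union_right _ (mem_union_left _ (mem_filter.mpr ⟨hp, g1⟩))
      by_cases g2 : p.2 ∈ G
      · exact mem_union_right _ (mem_union_right _ (mem_filter.mpr ⟨hp, g2⟩))
      apply mem_union_left
      rw [pR, mem_filter, mem_product, mem_union, mem_union] at hp
      rw [pR, mem_filter, mem_product]
      exact ⟨⟨hp.1.1.resolve_right g1, hp.1.2.resolve_right g2⟩, hp.2⟩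
    have c1 : ((pR (F ∪ G)).filter (fun p => p.1 ∈ G)).card ≤ G.card * A₀.card := by
      rw [← card_product]
      apply card_le_card_of_injOn (fun p => (p.1, p.2.1))
      · rintro ⟨⟨x, y⟩, ⟨x', y1⟩⟩ hp
        simp only [pR, coe_filter, mem_product, Set.mem_ofPred_eq, mem_filter] at hp
        have e2 := mem_product.mp (hFG hp.1.1.2)
        simp only [coe_product, Set.mem_prod, mem_coe]
        exact ⟨hp.2, e2.1⟩
      · rintro ⟨⟨x, y⟩, ⟨x', y1⟩⟩ hp ⟨⟨u, v⟩, ⟨u', v1⟩⟩ hq heq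
        simp only [pR, coe_filter, mem_product, Set.mem_ofPred_eq, mem_filter] at hp hq
        simp only [Prod.mk.injEq] at heq
        obtain ⟨⟨rfl, rfl⟩, rfl⟩ := heq
        obtain ⟨⟨_, rfl⟩, _⟩ := hp
        obtain ⟨⟨_, rfl⟩, _⟩ := hq
        rfl
    have c2 : ((pR (F ∪ G)).filter (fun p => p.2 ∈ G)).card ≤ G.card * A₀.card := by
      rw [← card_product]
      apply card_le_card_of_injOn (fun p => (p.2, p.1.1))
      · rintro ⟨⟨x, y⟩, ⟨x', y1⟩⟩ hp
        simp only [pR, coe_filter, mem_product, Set.mem_ofPred_eq, mem_filter] at hp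
        have e2 := mem_product.mp (hFG hp.1.1.1)
        simp only [coe_product, Set.mem_prod, mem_coe]
        exact ⟨hp.2, e2.1⟩
      · rintro ⟨⟨x, y⟩, ⟨x', y1⟩⟩ hp ⟨⟨u, v⟩, ⟨u', v1⟩⟩ hq heq
        simp only [pR, coe_filter, mem_product, Set.mem_ofPred_eq, mem_filter] at hp hq
        simp only [Prod.mk.injEq] at heq
        obtain ⟨⟨rfl, rfl⟩, rfl⟩ := heq
        obtain ⟨⟨_, rfl⟩, _⟩ := hp
        obtain ⟨⟨_, rfl⟩, _⟩ := hq
        rfl
    have := card_le_card hs
    have u1 := card_union_le (pR F) ((pR (F ∪ G)).filter (fun p => p.1 ∈ G) ∪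
        (pR (F ∪ G)).filter (fun p => p.2 ∈ G))
    have u2 := card_union_le ((pR (F ∪ G)).filter (fun p => p.1 ∈ G))
        ((pR (F ∪ G)).filter (fun p => p.2 ∈ G))
    omega
  have h2 : (pL (F ∪ G)).card ≤ (pL F).card + 2 * (G.card * B₀.card) := by
    have hs : pL (F ∪ G) ⊆ pL F ∪ ((pL (F ∪ G)).filter (fun p => p.1 ∈ G) ∪
        (pL (F ∪ G)).filter (fun p => p.2 ∈ G)) := by
      intro p hp
      by_cases g1 : p.1 ∈ G
      · exact mem_union_right _ (mem_union_left _ (mem_filter.mpr ⟨hp, g1⟩))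
      by_cases g2 : p.2 ∈ G
      · exact mem_union_right _ (mem_union_right _ (mem_filter.mpr ⟨hp, g2⟩))
      apply mem_union_left
      rw [pL, mem_filter, mem_product, mem_union, mem_union] at hp
      rw [pL, mem_filter, mem_product]
      exact ⟨⟨hp.1.1.resolve_right g1, hp.1.2.resolve_right g2⟩, hp.2⟩
    have c1 : ((pL (F ∪ G)).filter (fun p => p.1 ∈ G)).card ≤ G.card * B₀.card := by
      rw [← card_product]
      apply card_le_card_of_injOn (fun p => (p.1, p.2.2))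
      · rintro ⟨⟨x, y⟩, ⟨x', y1⟩⟩ hp
        simp only [pL, coe_filter, mem_product, Set.mem_ofPred_eq, mem_filter] at hp
        have e2 := mem_product.mp (hFG hp.1.1.2)
        simp only [coe_product, Set.mem_prod, mem_coe]
        exact ⟨hp.2, e2.2⟩
      · rintro ⟨⟨x, y⟩, ⟨x', y1⟩⟩ hp ⟨⟨u, v⟩, ⟨u', v1⟩⟩ hq heq
        simp only [pL, coe_filter, mem_product, Set.mem_ofPred_eq, mem_filter] at hp hq
        simp only [Prod.mk.injEq] at heq
        obtain ⟨⟨rfl, rfl⟩, rfl⟩ := heq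
        obtain ⟨⟨_, rfl⟩, _⟩ := hp
        obtain ⟨⟨_, rfl⟩, _⟩ := hq
        rfl
    have c2 : ((pL (F ∪ G)).filter (fun p => p.2 ∈ G)).card ≤ G.card * B₀.card := by
      rw [← card_product]
      apply card_le_card_of_injOn (fun p => (p.2, p.1.2))
      · rintro ⟨⟨x, y⟩, ⟨x', y1⟩⟩ hp
        simp only [pL, coe_filter, mem_product, Set.mem_ofPred_eq, mem_filter] at hp
        have e2 := mem_product.mp (hFG hp.1.1.1)
        simp only [coe_product, Set.mem_prod, mem_coe]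
        exact ⟨hp.2, e2.2⟩
      · rintro ⟨⟨x, y⟩, ⟨x', y1⟩⟩ hp ⟨⟨u, v⟩, ⟨u', v1⟩⟩ hq heq
        simp only [pL, coe_filter, mem_product, Set.mem_ofPred_eq, mem_filter] at hp hq
        simp only [Prod.mk.injEq] at heq
        obtain ⟨⟨rfl, rfl⟩, rfl⟩ := heq
        obtain ⟨⟨_, rfl⟩, _⟩ := hp
        obtain ⟨⟨_, rfl⟩, _⟩ := hq
        rfl
    have := card_le_card hs
    have u1 := card_union_le (pL F) ((pL (F ∪ G)).filter (fun p => p.1 ∈ G) ∪
        (pL (F ∪ G)).filter (fun p => p.2 ∈ G))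
    have u2 := card_union_le ((pL (F ∪ G)).filter (fun p => p.1 ∈ G))
        ((pL (F ∪ G)).filter (fun p => p.2 ∈ G))
    omega
  unfold P
  rw [mul_add]
  omega

/-- degrees -/
def dR (F : Finset (α × β)) (y : β) : ℕ := (F.filter (fun f => f.2 = y)).card

def dL (F : Finset (α × β)) (x : α) : ℕ := (F.filter (fun f => f.1 = x)).card

omit [DecidableEq α] in
lemma pR_eq_sum {F : Finset (α × β)} {B₀ : Finset β} (hF : ∀ f ∈ F, f.2 ∈ B₀) :
    (pR F).card = ∑ y ∈ B₀, dR F y ^ 2 := by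
  have h : ∀ p ∈ pR F, p.1.2 ∈ B₀ := by
    intro p hp
    rw [pR, mem_filter, mem_product] at hp
    exact hF _ hp.1.1
  rw [card_eq_sum_card_fiberwise h]
  apply sum_congr rfl
  intro y _
  have : (pR F).filter (fun p => p.1.2 = y) =
      (F.filter (fun f => f.2 = y)) ×ˢ (F.filter (fun f => f.2 = y)) := by
    ext p
    simp only [pR, mem_filter, mem_product]
    constructor
    · rintro ⟨⟨⟨h1, h2⟩, h3⟩, h4⟩
      exact ⟨⟨h1, h4⟩, ⟨h2, h3 ▸ h4⟩⟩
    · rintro ⟨⟨h1, h4⟩, ⟨h2, h5⟩⟩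
      exact ⟨⟨⟨h1, h2⟩, h4.trans h5.symm⟩, h4⟩
  rw [this, card_product, dR, sq]

omit [DecidableEq β] in
lemma pL_eq_sum {F : Finset (α × β)} {A₀ : Finset α} (hF : ∀ f ∈ F, f.1 ∈ A₀) :
    (pL F).card = ∑ x ∈ A₀, dL F x ^ 2 := by
  have h : ∀ p ∈ pL F, p.1.1 ∈ A₀ := by
    intro p hp
    rw [pL, mem_filter, mem_product] at hp
    exact hF _ hp.1.1
  rw [card_eq_sum_card_fiberwise h]
  apply sum_congr rfl
  intro x _
  have : (pL F).filter (fun p => p.1.1 = x) =
      (F.filter (fun f => f.1 = x)) ×ˢ (F.filter (fun f => f.1 = x)) := by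
    ext p
    simp only [pL, mem_filter, mem_product]
    constructor
    · rintro ⟨⟨⟨h1, h2⟩, h3⟩, h4⟩
      exact ⟨⟨h1, h4⟩, ⟨h2, h3 ▸ h4⟩⟩
    · rintro ⟨⟨h1, h4⟩, ⟨h2, h5⟩⟩
      exact ⟨⟨⟨h1, h2⟩, h4.trans h5.symm⟩, h4⟩
  rw [this, card_product, dL, sq]

lemma dR_union_le (F G : Finset (α × β)) (y : β) : dR (F ∪ G) y ≤ dR F y + dR G y := by
  unfold dR
  rw [filter_union]
  exact card_union_le _ _

lemma dL_union_le (F G : Finset (α × β)) (x : α) : dL (F ∪ G) x ≤ dL F x + dL G x := by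
  unfold dL
  rw [filter_union]
  exact card_union_le _ _

lemma sq_add_le (a b : ℕ) : (a + b) ^ 2 ≤ 2 * a ^ 2 + 2 * b ^ 2 := by
  zify
  linarith [sq_nonneg ((a : ℤ) - b)]

/-- the mixed-degree estimate -/
lemma P_giant {F G : Finset (α × β)} {A₀ : Finset α} {B₀ : Finset β} {As : Finset α}
    {Bs : Finset β} (hF : F ⊆ A₀ ×ˢ B₀) (hAs : As ⊆ A₀) (hBs : Bs ⊆ B₀)
    (hG : G ⊆ (A₀ \ As) ×ˢ (B₀ \ Bs))
    (hc4 : ∀ (x x' : α) (y y' : β), x ≠ x' → y ≠ y' → (x, y) ∈ F → (x, y') ∈ F →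
      (x', y) ∈ F → (x', y') ∈ F → ¬ (x ∈ As ∧ x' ∈ As ∧ y ∉ Bs) ∧
        ¬ (y ∈ Bs ∧ y' ∈ Bs ∧ x ∉ As)) :
    P (F ∪ G) ≤ P F + 2 * P G + 2 * (A₀.card + B₀.card) ^ 2 +
      2 * P (res F (A₀ \ As, B₀ \ Bs)) := by
  classical
  have hGA : G ⊆ A₀ ×ˢ B₀ := hG.trans (product_subset_product sdiff_subset sdiff_subset)
  have hFG : F ∪ G ⊆ A₀ ×ˢ B₀ := union_subset hF hGA
  -- right side
  let F1 : Finset (α × β) := F.filter (fun f => f.1 ∈ As ∧ f.2 ∉ Bs)
  let F2 : Finset (α × β) := F.filter (fun f => f.1 ∉ As ∧ f.2 ∈ Bs)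
  have hF1 : F1 ⊆ As ×ˢ B₀ := by
    intro f hf
    simp only [F1, mem_filter] at hf
    exact mem_product.mpr ⟨hf.2.1, (mem_product.mp (hF hf.1)).2⟩
  have hF2 : F2 ⊆ A₀ ×ˢ Bs := by
    intro f hf
    simp only [F2, mem_filter] at hf
    exact mem_product.mpr ⟨(mem_product.mp (hF hf.1)).1, hf.2.2⟩
  have hFs1 : F1 ⊆ F := filter_subset _ _
  have hFs2 : F2 ⊆ F := filter_subset _ _
  have cov1 : Covers F1 ∅ := by
    intro x x' y y' hx hy h1 h2 h3 h4
    have m1 := h1
    have m3 := h3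
    simp only [F1, mem_filter] at m1 m3
    exact absurd ⟨m1.2.1, m3.2.1, m1.2.2⟩
      (hc4 x x' y y' hx hy (hFs1 h1) (hFs1 h2) (hFs1 h3) (hFs1 h4)).1
  have cov2 : Covers F2 ∅ := by
    intro x x' y y' hx hy h1 h2 h3 h4
    have m1 := h1
    have m2 := h2
    simp only [F2, mem_filter] at m1 m2
    exact absurd ⟨m1.2.2, m2.2.2, m1.2.1⟩
      (hc4 x x' y y' hx hy (hFs2 h1) (hFs2 h2) (hFs2 h3) (hFs2 h4)).2
  have k1 := card_pR_le hF1 cov1
  have k2 := card_pL_le hF2 cov2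
  simp only [sum_empty, add_zero] at k1 k2
  have q1 := card_F_le hF1
  have q2 := card_F_le hF2
  have hasA := card_le_card hAs
  have hbsB := card_le_card hBs
  -- degree splitting
  have R : (pR (F ∪ G)).card ≤ (pR F).card + 2 * (pR G).card +
      (2 * (pR F1).card + 2 * (pR (res F (A₀ \ As, B₀ \ Bs))).card) := by
    have e1 : (pR (F ∪ G)).card = ∑ y ∈ B₀, dR (F ∪ G) y ^ 2 :=
      pR_eq_sum (fun f hf => (mem_product.mp (hFG hf)).2)
    have e2 : (pR F).card = ∑ y ∈ B₀, dR F y ^ 2 :=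
      pR_eq_sum (fun f hf => (mem_product.mp (hF hf)).2)
    have e3 : (pR G).card = ∑ y ∈ B₀, dR G y ^ 2 :=
      pR_eq_sum (fun f hf => (mem_product.mp (hGA hf)).2)
    have e4 : (pR F1).card = ∑ y ∈ B₀, dR F1 y ^ 2 :=
      pR_eq_sum (fun f hf => (mem_product.mp (hF1 hf)).2)
    have e5 : (pR (res F (A₀ \ As, B₀ \ Bs))).card =
        ∑ y ∈ B₀, dR (res F (A₀ \ As, B₀ \ Bs)) y ^ 2 :=
      pR_eq_sum (fun f hf => (mem_product.mp (hF (res_subset _ _ hf))).2)
    rw [e1, e2, e3, e4, e5, mul_sum, mul_sum, mul_sum, ← sum_add_distrib, ← sum_add_distrib,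
      ← sum_add_distrib]
    apply sum_le_sum
    intro y hy
    by_cases hyB : y ∈ Bs
    · have g0 : dR G y = 0 := by
        unfold dR
        rw [card_eq_zero, filter_eq_empty_iff]
        intro f hf hfy
        have := mem_product.mp (hG hf)
        rw [hfy] at this
        exact (mem_sdiff.mp this.2).2 hyB
      have := dR_union_le F G y
      rw [g0, add_zero] at this
      have := Nat.pow_le_pow_left this 2
      omega
    · have hsplit : dR F y ≤ dR F1 y + dR (res F (A₀ \ As, B₀ \ Bs)) y := by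
        unfold dR
        refine le_trans (card_le_card ?_) (card_union_le _ _)
        intro f hf
        rw [mem_filter] at hf
        have hm := mem_product.mp (hF hf.1)
        by_cases hfA : f.1 ∈ As
        · refine mem_union_left _ (mem_filter.mpr ⟨?_, hf.2⟩)
          simp only [F1, mem_filter]
          exact ⟨hf.1, hfA, by rw [hf.2]; exact hyB⟩
        · refine mem_union_right _ (mem_filter.mpr ⟨?_, hf.2⟩)
          simp only [res, mem_filter, mem_sdiff]
          exact ⟨hf.1, ⟨hm.1, hfA⟩, ⟨hm.2, by rw [hf.2]; exact hyB⟩⟩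
      have a1 := Nat.pow_le_pow_left (dR_union_le F G y) 2
      have a2 := sq_add_le (dR F y) (dR G y)
      have a3 := Nat.pow_le_pow_left hsplit 2
      have a4 := sq_add_le (dR F1 y) (dR (res F (A₀ \ As, B₀ \ Bs)) y)
      omega
  have L : (pL (F ∪ G)).card ≤ (pL F).card + 2 * (pL G).card +
      (2 * (pL F2).card + 2 * (pL (res F (A₀ \ As, B₀ \ Bs))).card) := by
    have e1 : (pL (F ∪ G)).card = ∑ x ∈ A₀, dL (F ∪ G) x ^ 2 :=
      pL_eq_sum (fun f hf => (mem_product.mp (hFG hf)).1)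
    have e2 : (pL F).card = ∑ x ∈ A₀, dL F x ^ 2 :=
      pL_eq_sum (fun f hf => (mem_product.mp (hF hf)).1)
    have e3 : (pL G).card = ∑ x ∈ A₀, dL G x ^ 2 :=
      pL_eq_sum (fun f hf => (mem_product.mp (hGA hf)).1)
    have e4 : (pL F2).card = ∑ x ∈ A₀, dL F2 x ^ 2 :=
      pL_eq_sum (fun f hf => (mem_product.mp (hF2 hf)).1)
    have e5 : (pL (res F (A₀ \ As, B₀ \ Bs))).card =
        ∑ x ∈ A₀, dL (res F (A₀ \ As, B₀ \ Bs)) x ^ 2 :=
      pL_eq_sum (fun f hf => (mem_product.mp (hF (res_subset _ _ hf))).1)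
    rw [e1, e2, e3, e4, e5, mul_sum, mul_sum, mul_sum, ← sum_add_distrib, ← sum_add_distrib,
      ← sum_add_distrib]
    apply sum_le_sum
    intro x hx
    by_cases hxA : x ∈ As
    · have g0 : dL G x = 0 := by
        unfold dL
        rw [card_eq_zero, filter_eq_empty_iff]
        intro f hf hfx
        have := mem_product.mp (hG hf)
        rw [hfx] at this
        exact (mem_sdiff.mp this.1).2 hxA
      have := dL_union_le F G x
      rw [g0, add_zero] at this
      have := Nat.pow_le_pow_left this 2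
      omega
    · have hsplit : dL F x ≤ dL F2 x + dL (res F (A₀ \ As, B₀ \ Bs)) x := by
        unfold dL
        refine le_trans (card_le_card ?_) (card_union_le _ _)
        intro f hf
        rw [mem_filter] at hf
        have hm := mem_product.mp (hF hf.1)
        by_cases hfB : f.2 ∈ Bs
        · refine mem_union_left _ (mem_filter.mpr ⟨?_, hf.2⟩)
          simp only [F2, mem_filter]
          exact ⟨hf.1, by rw [hf.2]; exact hxA, hfB⟩
        · refine mem_union_right _ (mem_filter.mpr ⟨?_, hf.2⟩)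
          simp only [res, mem_filter, mem_sdiff]
          exact ⟨hf.1, ⟨hm.1, by rw [hf.2]; exact hxA⟩, ⟨hm.2, hfB⟩⟩
      have a1 := Nat.pow_le_pow_left (dL_union_le F G x) 2
      have a2 := sq_add_le (dL F x) (dL G x)
      have a3 := Nat.pow_le_pow_left hsplit 2
      have a4 := sq_add_le (dL F2 x) (dL (res F (A₀ \ As, B₀ \ Bs)) x)
      omega
  have fin : (pR F1).card + (pL F2).card ≤ (A₀.card + B₀.card) ^ 2 := by
    have w1 : As.card * B₀.card ≤ A₀.card * B₀.card := Nat.mul_le_mul_right _ hasA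
    have w2 : A₀.card * Bs.card ≤ A₀.card * B₀.card := Nat.mul_le_mul_left _ hbsB
    have w3 : As.card * As.card ≤ A₀.card * A₀.card := Nat.mul_le_mul hasA hasA
    have w4 : Bs.card * Bs.card ≤ B₀.card * B₀.card := Nat.mul_le_mul hbsB hbsB
    linarith
  unfold P
  omega

end MP_01cec5_co
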