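import Mathlib
import Pool.Agent.Lib.MP_01cec5_co.Merge
import Pool.Agent.Lib.MP_01cec5_co.Count

/-!
Basic lemmas shared by the two inductions.
-/

namespace MP_01cec5_co

open Finset

variable {α β : Type*} [DecidableEq α] [DecidableEq β]

/-- `F` consists of pairs with distinct birth times `bt`. -/
def Good (E : ℕ → α → β → Prop) (bt : α × β → ℕ) (F : Finset (α × β)) : Prop :=
  (∀ f ∈ F, ∀ g ∈ F, bt f = bt g → f = g) ∧ (∀ f ∈ F, E (bt f) f.1 f.2) ∧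
    ∀ f ∈ F, ∀ t < bt f, ¬ E t f.1 f.2

omit [DecidableEq α] [DecidableEq β] in
lemma Good.subset {E : ℕ → α → β → Prop} {bt : α × β → ℕ} {F F' : Finset (α × β)}
    (h : Good E bt F) (hs : F' ⊆ F) : Good E bt F' :=
  ⟨fun f hf g hg => h.1 f (hs hf) g (hs hg), fun f hf => h.2.1 f (hs hf),
    fun f hf => h.2.2 f (hs hf)⟩

lemma covers_maxBlk {F : Finset (α × β)} {A₀ : Finset α} {B₀ : Finset β} (hF : F ⊆ A₀ ×ˢ B₀) :
    Covers F (maxBlk F A₀ B₀) := by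
  intro x x' y y' hx hy h1 h2 h3 h4
  obtain ⟨D, hD, s1, s2⟩ := exists_maxBlk hF (Blk.c4 hx hy h1 h2 h3 h4)
  refine ⟨D, hD, s1 ?_, s1 ?_, s2 ?_, s2 ?_⟩ <;> simp

lemma offDiag_disj {A B : Finset α} (h : (A ∩ B).card ≤ 1) : Disjoint A.offDiag B.offDiag := by
  rw [disjoint_left]
  rintro ⟨x, y⟩ h1 h2
  rw [mem_offDiag] at h1 h2
  simp only at h1 h2
  exact h1.2.2 (card_le_one.mp h x (mem_inter.mpr ⟨h1.1, h2.1⟩) y
    (mem_inter.mpr ⟨h1.2.1, h2.2.1⟩))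

omit [DecidableEq α] [DecidableEq β] in
lemma card_window {bt : α × β → ℕ} {F : Finset (α × β)}
    (hinj : ∀ f ∈ F, ∀ g ∈ F, bt f = bt g → f = g) {a n : ℕ}
    (h : ∀ f ∈ F, a ≤ bt f ∧ bt f ≤ a + n) : F.card ≤ n + 1 := by
  have : F.card ≤ (Finset.Icc a (a + n)).card := by
    apply card_le_card_of_injOn bt
    · intro f hf
      simp only [coe_Icc, Set.mem_Icc]
      exact h f hf
    · intro f hf g hg hfg
      exact hinj f hf g hg hfg
  rw [Nat.card_Icc] at this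
  omega

lemma not_mem_empty {r : ℕ} {A : Finset α} {B : Finset β} (h : Mem ∅ r A B) : False := by
  induction h with
  | base _ _ h1 => simp at h1
  | up _ ih => exact ih
  | join _ _ _ ih1 _ => exact ih1

/-- the conclusion of the induction for size `m`. -/
def IH (E : ℕ → α → β → Prop) (bt : α × β → ℕ) (ε C : ℝ) (m : ℕ) : Prop :=
  ∀ (A₀ : Finset α) (B₀ : Finset β) (F : Finset (α × β)), A₀.card + B₀.card = m →
    F ⊆ A₀ ×ˢ B₀ → Good E bt F →
    (P F : ℝ) ≤ C * ((A₀.card : ℝ) ^ 2 + (B₀.card : ℝ) ^ 2) * (m : ℝ) ^ ε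

end MP_01cec5_co
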