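import Mathlib

/-!
Numeric estimate for one block.
-/

namespace MP_01cec5_co

/-- numeric estimate for one block -/
lemma block_num {ε δ n a b : ℝ} (hε0 : 0 < ε) (hε1 : ε ≤ 1) (hδ0 : 0 ≤ δ) (hδ1 : δ ≤ 1)
    (ha : 2 ≤ a) (hb : 2 ≤ b) (hs : a + b ≤ (1 - δ) * n) :
    (a ^ 2 + b ^ 2) * (a + b) ^ ε ≤
      (a * a - a + (b * b - b)) * ((1 - ε * δ) * n ^ ε + 4 * n ^ (ε / 2)) := by
  set s := a + b with hsdef
  set π := a * a - a + (b * b - b) with hπ
  have hs4 : 4 ≤ s := by rw [hsdef]; linarith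
  have hn0 : 0 < n := by
    by_contra h
    push Not at h
    have : (1 - δ) * n ≤ 0 := mul_nonpos_of_nonneg_of_nonpos (by linarith) h
    linarith
  have hsn : s ≤ n := by
    have : (1 - δ) * n ≤ n := by nlinarith
    linarith
  have hπ0 : 0 ≤ π := by rw [hπ]; nlinarith
  have hsπ : s ≤ π := by rw [hsdef, hπ]; nlinarith
  have hs2 : s ^ 2 ≤ 4 * π := by rw [hsdef, hπ]; linarith [sq_nonneg (a - b)]
  have hdec : a ^ 2 + b ^ 2 = π + s := by rw [hsdef, hπ]; ring
  have e1 : s ^ ε ≤ (1 - ε * δ) * n ^ ε := by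
    calc s ^ ε ≤ ((1 - δ) * n) ^ ε := Real.rpow_le_rpow (by linarith) hs hε0.le
      _ = (1 - δ) ^ ε * n ^ ε := Real.mul_rpow (by linarith) hn0.le
      _ ≤ (1 - ε * δ) * n ^ ε := by
        apply mul_le_mul_of_nonneg_right _ (Real.rpow_nonneg hn0.le _)
        have := rpow_one_add_le_one_add_mul_self (s := -δ) (by linarith) hε0.le hε1
        calc (1 - δ) ^ ε = (1 + -δ) ^ ε := by ring_nf
          _ ≤ 1 + ε * -δ := this
          _ = 1 - ε * δ := by ring
  have hX0 : 0 ≤ n ^ (ε / 2) := Real.rpow_nonneg hn0.le _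
  have e2 : s * s ^ ε ≤ 4 * π * n ^ (ε / 2) := by
    by_cases hc : s ^ 2 ≤ n
    · have : s ^ ε ≤ n ^ (ε / 2) := by
        calc s ^ ε = (s ^ 2) ^ (ε / 2) := by
              rw [← Real.rpow_natCast, ← Real.rpow_mul (by linarith)]
              congr 1
              push_cast
              ring
          _ ≤ n ^ (ε / 2) := Real.rpow_le_rpow (by positivity) hc (by linarith)
      calc s * s ^ ε ≤ s * n ^ (ε / 2) := mul_le_mul_of_nonneg_left this (by linarith)
        _ ≤ (4 * π) * n ^ (ε / 2) := mul_le_mul_of_nonneg_right (by linarith) hX0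
    · push Not at hc
      have k1 : s ^ ε ≤ n ^ (ε / 2) * s := by
        calc s ^ ε ≤ n ^ ε := Real.rpow_le_rpow (by linarith) hsn hε0.le
          _ = n ^ (ε / 2) * n ^ (ε / 2) := by
            rw [← Real.rpow_add hn0]
            congr 1
            ring
          _ ≤ n ^ (ε / 2) * s := by
            apply mul_le_mul_of_nonneg_left _ hX0
            calc n ^ (ε / 2) ≤ (s ^ 2) ^ (ε / 2) :=
                  Real.rpow_le_rpow hn0.le hc.le (by linarith)
              _ = s ^ ε := by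
                  rw [← Real.rpow_natCast, ← Real.rpow_mul (by linarith)]
                  congr 1
                  push_cast
                  ring
              _ ≤ s ^ (1 : ℝ) := Real.rpow_le_rpow_of_exponent_le (by linarith) hε1
              _ = s := Real.rpow_one s
      calc s * s ^ ε ≤ s * (n ^ (ε / 2) * s) := mul_le_mul_of_nonneg_left k1 (by linarith)
        _ = s ^ 2 * n ^ (ε / 2) := by ring
        _ ≤ (4 * π) * n ^ (ε / 2) := mul_le_mul_of_nonneg_right hs2 hX0
  rw [hdec, add_mul, mul_add]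
  have e3 : π * s ^ ε ≤ π * ((1 - ε * δ) * n ^ ε) := mul_le_mul_of_nonneg_left e1 hπ0
  linarith [e2, e3]

end MP_01cec5_co
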