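import Mathlib
import Pool.Agent.Lib.MP_01cec5_co.Merge
import Pool.Agent.Lib.MP_01cec5_co.Count
import Pool.Agent.Lib.MP_01cec5_co.Base

/-!
Blocks for the cube process.
-/

namespace MP_01cec5_co.Cube

open Finset

variable {α β : Type*} [DecidableEq α] [DecidableEq β]

/-- A monotone bipartite process in which every pair completing a cube `Q_3` minus one edge
(that is, `K_{4,4}` minus a perfect matching and minus one more pair) at time `t` is present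
at time `t + 1`. -/
structure QProc (E : ℕ → α → β → Prop) : Prop where
  mono : ∀ {s t : ℕ} {x : α} {y : β}, s ≤ t → E s x y → E t x y
  step : ∀ (t : ℕ) (x0 x1 x2 x3 : α) (y0 y1 y2 y3 : β),
    x0 ≠ x1 → x0 ≠ x2 → x0 ≠ x3 → x1 ≠ x2 → x1 ≠ x3 → x2 ≠ x3 →
    y0 ≠ y1 → y0 ≠ y2 → y0 ≠ y3 → y1 ≠ y2 → y1 ≠ y3 → y2 ≠ y3 →
    E t x0 y1 → E t x0 y2 → E t x0 y3 →
    E t x1 y0 → E t x1 y2 → E t x1 y3 →
    E t x2 y0 → E t x2 y1 → E t x2 y3 →
    E t x3 y0 → E t x3 y1 → E (t + 1) x3 y2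

omit [DecidableEq β] in
lemma exists_extra1 {A : Finset β} (h : 3 ≤ A.card) (a b : β) [DecidableEq β] :
    ∃ z ∈ A, z ≠ a ∧ z ≠ b := by
  have hc : ({a, b} : Finset β).card < A.card := by
    have := card_le_two (a := a) (b := b)
    omega
  obtain ⟨z, hz, hz'⟩ := exists_mem_notMem_of_card_lt_card hc
  rw [mem_insert, mem_singleton] at hz'
  push Not at hz'
  exact ⟨z, hz, hz'⟩

omit [DecidableEq β] in
lemma exists_extra2 {A : Finset β} (h : 4 ≤ A.card) (a b c : β) [DecidableEq β] :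
    ∃ z ∈ A, z ≠ a ∧ z ≠ b ∧ z ≠ c := by
  have hc : ({a, b, c} : Finset β).card < A.card := by
    have := card_le_three (a := a) (b := b) (c := c)
    omega
  obtain ⟨z, hz, hz'⟩ := exists_mem_notMem_of_card_lt_card hc
  rw [mem_insert, mem_insert, mem_singleton] at hz'
  push Not at hz'
  exact ⟨z, hz, hz'⟩

/-- an outside vertex with two neighbours in a complete block is absorbed (left version) -/
lemma absorbL {E : ℕ → α → β → Prop} (hE : QProc E) {t : ℕ} {A : Finset α} {B : Finset β}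
    (hA : 4 ≤ A.card) (hB : 4 ≤ B.card) (hc : Comp E t A B) {x : α} (hx : x ∉ A)
    {y y' : β} (hy : y ∈ B) (hy' : y' ∈ B) (hne : y ≠ y') (h1 : E t x y) (h2 : E t x y')
    {z : β} (hz : z ∈ B) : E (t + 1) x z := by
  by_cases e1 : z = y
  · subst e1; exact hE.mono (Nat.le_succ t) h1
  by_cases e2 : z = y'
  · subst e2; exact hE.mono (Nat.le_succ t) h2
  obtain ⟨w, hw, hw1, hw2, hw3⟩ := exists_extra2 hB y y' z
  obtain ⟨a0, ha0⟩ : A.Nonempty := card_pos.mp (by omega)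
  obtain ⟨a1, ha1, h10, -⟩ := exists_extra1 (by omega : 3 ≤ A.card) a0 a0
  obtain ⟨a2, ha2, h20, h21⟩ := exists_extra1 (by omega : 3 ≤ A.card) a0 a1
  have n0 : a0 ≠ x := fun h => hx (h ▸ ha0)
  have n1 : a1 ≠ x := fun h => hx (h ▸ ha1)
  have n2 : a2 ≠ x := fun h => hx (h ▸ ha2)
  exact hE.step t a0 a1 a2 x y y' z w h10.symm h20.symm n0 h21.symm n1 n2
    hne (Ne.symm e1) hw1.symm (Ne.symm e2) hw2.symm hw3.symm
    (hc _ ha0 _ hy') (hc _ ha0 _ hz) (hc _ ha0 _ hw)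
    (hc _ ha1 _ hy) (hc _ ha1 _ hz) (hc _ ha1 _ hw)
    (hc _ ha2 _ hy) (hc _ ha2 _ hy') (hc _ ha2 _ hw)
    h1 h2

/-- an outside vertex with two neighbours in a complete block is absorbed (right version) -/
lemma absorbR {E : ℕ → α → β → Prop} (hE : QProc E) {t : ℕ} {A : Finset α} {B : Finset β}
    (hA : 4 ≤ A.card) (hB : 4 ≤ B.card) (hc : Comp E t A B) {y : β} (hy : y ∉ B)
    {x x' : α} (hx : x ∈ A) (hx' : x' ∈ A) (hne : x ≠ x') (h1 : E t x y) (h2 : E t x' y)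
    {z : α} (hz : z ∈ A) : E (t + 1) z y := by
  by_cases e1 : z = x
  · subst e1; exact hE.mono (Nat.le_succ t) h1
  by_cases e2 : z = x'
  · subst e2; exact hE.mono (Nat.le_succ t) h2
  obtain ⟨w, hw, hw1, hw2, hw3⟩ := exists_extra2 hA x x' z
  obtain ⟨b0, hb0⟩ : B.Nonempty := card_pos.mp (by omega)
  obtain ⟨b1, hb1, h10, -⟩ := exists_extra1 (by omega : 3 ≤ B.card) b0 b0
  obtain ⟨b2, hb2, h20, h21⟩ := exists_extra1 (by omega : 3 ≤ B.card) b0 b1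
  have n0 : b0 ≠ y := fun h => hy (h ▸ hb0)
  have n1 : b1 ≠ y := fun h => hy (h ▸ hb1)
  have n2 : b2 ≠ y := fun h => hy (h ▸ hb2)
  exact hE.step t x x' w z b0 b1 y b2 hne hw1.symm (Ne.symm e1) hw2.symm (Ne.symm e2) hw3
    h10.symm n0 h20.symm n1 h21.symm n2.symm
    (hc _ hx _ hb1) h1 (hc _ hx _ hb2)
    (hc _ hx' _ hb0) h2 (hc _ hx' _ hb2)
    (hc _ hw _ hb0) (hc _ hw _ hb1) (hc _ hw _ hb2)
    (hc _ hz _ hb0) (hc _ hz _ hb1)

lemma cross {E : ℕ → α → β → Prop} (hE : QProc E) {t : ℕ} {A1 A2 : Finset α} {B1 B2 : Finset β}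
    (h1 : Comp E t A1 B1) (h2 : Comp E t A2 B2)
    (hA1 : 4 ≤ A1.card) (hA2 : 4 ≤ A2.card) (hB1 : 4 ≤ B1.card) (hB2 : 4 ≤ B2.card)
    (hsh : 2 ≤ (A1 ∩ A2).card ∨ 2 ≤ (B1 ∩ B2).card)
    {x : α} {y : β} (hx1 : x ∈ A1) (hx2 : x ∉ A2) (hy1 : y ∉ B1) (hy2 : y ∈ B2) :
    E (t + 1) x y := by
  rcases hsh with hsh | hsh
  · obtain ⟨u, hu, v, hv, huv⟩ := exists_two hsh
    rw [mem_inter] at hu hv
    exact absorbR hE hA1 hB1 h1 hy1 hu.1 hv.1 huv (h2 u hu.2 y hy2) (h2 v hv.2 y hy2) hx1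
  · obtain ⟨u, hu, v, hv, huv⟩ := exists_two hsh
    rw [mem_inter] at hu hv
    exact absorbL hE hA2 hB2 h2 hx2 hu.2 hv.2 huv (h1 x hx1 u hu.1) (h1 x hx1 v hv.1) hy2

lemma merge {E : ℕ → α → β → Prop} (hE : QProc E) {t : ℕ} {A1 A2 : Finset α} {B1 B2 : Finset β}
    (h1 : Comp E t A1 B1) (h2 : Comp E t A2 B2)
    (hA1 : 4 ≤ A1.card) (hA2 : 4 ≤ A2.card) (hB1 : 4 ≤ B1.card) (hB2 : 4 ≤ B2.card)
    (hsh : 2 ≤ (A1 ∩ A2).card ∨ 2 ≤ (B1 ∩ B2).card) :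
    Comp E (t + 1) (A1 ∪ A2) (B1 ∪ B2) := by
  intro x hx y hy
  by_cases hx1 : x ∈ A1 <;> by_cases hx2 : x ∈ A2 <;> by_cases hy1 : y ∈ B1 <;>
    by_cases hy2 : y ∈ B2
  · exact hE.mono (Nat.le_succ t) (h1 x hx1 y hy1)
  · exact hE.mono (Nat.le_succ t) (h1 x hx1 y hy1)
  · exact hE.mono (Nat.le_succ t) (h2 x hx2 y hy2)
  · simp [hy1, hy2] at hy
  · exact hE.mono (Nat.le_succ t) (h1 x hx1 y hy1)
  · exact hE.mono (Nat.le_succ t) (h1 x hx1 y hy1)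
  · exact cross hE h1 h2 hA1 hA2 hB1 hB2 hsh hx1 hx2 hy1 hy2
  · simp [hy1, hy2] at hy
  · exact hE.mono (Nat.le_succ t) (h2 x hx2 y hy2)
  · refine cross hE h2 h1 hA2 hA1 hB2 hB1 ?_ hx2 hx1 hy2 hy1
    rwa [inter_comm A2 A1, inter_comm B2 B1]
  · exact hE.mono (Nat.le_succ t) (h2 x hx2 y hy2)
  · simp [hy1, hy2] at hy
  all_goals simp [hx1, hx2] at hx

/-- the eight-vertex configuration with twelve edges generating a complete `4 × 4` block -/
structure Conf (F : Finset (α × β)) (u t1 t2 t3 : α) (v s1 s2 s3 : β) : Prop where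
  ut1 : u ≠ t1
  ut2 : u ≠ t2
  ut3 : u ≠ t3
  t12 : t1 ≠ t2
  t13 : t1 ≠ t3
  t23 : t2 ≠ t3
  vs1 : v ≠ s1
  vs2 : v ≠ s2
  vs3 : v ≠ s3
  s12 : s1 ≠ s2
  s13 : s1 ≠ s3
  s23 : s2 ≠ s3
  e_uv : (u, v) ∈ F
  e_us1 : (u, s1) ∈ F
  e_us2 : (u, s2) ∈ F
  e_us3 : (u, s3) ∈ F
  e_t1v : (t1, v) ∈ F
  e_t2v : (t2, v) ∈ F
  e_t3v : (t3, v) ∈ F
  e11 : (t1, s1) ∈ F
  e12 : (t1, s2) ∈ F
  e22 : (t2, s2) ∈ F
  e23 : (t2, s3) ∈ F
  e33 : (t3, s3) ∈ F

lemma Conf.mono {F F' : Finset (α × β)} (h : F ⊆ F') {u t1 t2 t3 : α} {v s1 s2 s3 : β}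
    (c : Conf F u t1 t2 t3 v s1 s2 s3) : Conf F' u t1 t2 t3 v s1 s2 s3 :=
  ⟨c.ut1, c.ut2, c.ut3, c.t12, c.t13, c.t23, c.vs1, c.vs2, c.vs3, c.s12, c.s13, c.s23,
    h c.e_uv, h c.e_us1, h c.e_us2, h c.e_us3, h c.e_t1v, h c.e_t2v, h c.e_t3v,
    h c.e11, h c.e12, h c.e22, h c.e23, h c.e33⟩

lemma Conf.comp {E : ℕ → α → β → Prop} (hE : QProc E) {t : ℕ} {F : Finset (α × β)}
    (hF : ∀ f ∈ F, E t f.1 f.2) {u t1 t2 t3 : α} {v s1 s2 s3 : β}
    (c : Conf F u t1 t2 t3 v s1 s2 s3) :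
    Comp E (t + 2) {u, t1, t2, t3} {v, s1, s2, s3} := by
  have m1 : ∀ {x : α} {y : β}, (x, y) ∈ F → E t x y := fun h => hF _ h
  have m2 : ∀ {x : α} {y : β}, (x, y) ∈ F → E (t + 1) x y :=
    fun h => hE.mono (Nat.le_succ t) (hF _ h)
  have m3 : ∀ {x : α} {y : β}, (x, y) ∈ F → E (t + 2) x y :=
    fun h => hE.mono (by omega) (hF _ h)
  have r1 : E (t + 1) t3 s1 := hE.step t u t1 t2 t3 v s3 s1 s2 c.ut1 c.ut2 c.ut3 c.t12 c.t13
    c.t23 c.vs3 c.vs1 c.vs2 c.s13.symm c.s23.symm c.s12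
    (m1 c.e_us3) (m1 c.e_us1) (m1 c.e_us2)
    (m1 c.e_t1v) (m1 c.e11) (m1 c.e12)
    (m1 c.e_t2v) (m1 c.e23) (m1 c.e22)
    (m1 c.e_t3v) (m1 c.e33)
  have r2 : E (t + 2) t1 s3 := hE.step (t + 1) t2 t3 u t1 s1 s2 s3 v c.t23 c.ut2.symm
    c.t12.symm c.ut3.symm c.t13.symm c.ut1 c.s12 c.s13 c.vs1.symm c.s23 c.vs2.symm c.vs3.symm
    (m2 c.e22) (m2 c.e23) (m2 c.e_t2v)
    r1 (m2 c.e33) (m2 c.e_t3v)
    (m2 c.e_us1) (m2 c.e_us2) (m2 c.e_uv)
    (m2 c.e11) (m2 c.e12)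
  have r3 : E (t + 2) t2 s1 := hE.step (t + 1) t1 t3 u t2 s3 s2 s1 v c.t13 c.ut1.symm
    c.t12 c.ut3.symm c.t23.symm c.ut2 c.s23.symm c.s13.symm c.vs3.symm c.s12.symm c.vs2.symm
    c.vs1.symm
    (m2 c.e12) (m2 c.e11) (m2 c.e_t1v)
    (m2 c.e33) r1 (m2 c.e_t3v)
    (m2 c.e_us3) (m2 c.e_us2) (m2 c.e_uv)
    (m2 c.e23) (m2 c.e22)
  have r4 : E (t + 2) t3 s2 := hE.step (t + 1) t1 t2 u t3 s3 s1 s2 v c.t12 c.ut1.symm
    c.t13 c.ut2.symm c.t23 c.ut3 c.s13.symm c.s23.symm c.vs3.symm c.s12 c.vs1.symm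
    c.vs2.symm
    (m2 c.e11) (m2 c.e12) (m2 c.e_t1v)
    (m2 c.e23) (m2 c.e22) (m2 c.e_t2v)
    (m2 c.e_us3) (m2 c.e_us1) (m2 c.e_uv)
    (m2 c.e33) r1
  have r1' : E (t + 2) t3 s1 := hE.mono (Nat.le_succ _) r1
  intro x hx y hy
  simp only [mem_insert, mem_singleton] at hx hy
  rcases hx with rfl | rfl | rfl | rfl <;> rcases hy with rfl | rfl | rfl | rfl
  · exact m3 c.e_uv
  · exact m3 c.e_us1
  · exact m3 c.e_us2
  · exact m3 c.e_us3
  · exact m3 c.e_t1v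
  · exact m3 c.e11
  · exact m3 c.e12
  · exact r2
  · exact m3 c.e_t2v
  · exact r3
  · exact m3 c.e22
  · exact m3 c.e23
  · exact m3 c.e_t3v
  · exact r1'
  · exact r4
  · exact m3 c.e33

/-- The blocks generated by `F` in the cube process (with a bound `r` on the rounds). -/
inductive Mem (F : Finset (α × β)) : ℕ → Finset α → Finset β → Prop
  | base {u t1 t2 t3 : α} {v s1 s2 s3 : β} : Conf F u t1 t2 t3 v s1 s2 s3 →
      Mem F 2 {u, t1, t2, t3} {v, s1, s2, s3}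
  | up {r : ℕ} {A : Finset α} {B : Finset β} : Mem F r A B → Mem F (r + 1) A B
  | addL {r : ℕ} {A : Finset α} {B : Finset β} {x : α} {y y' : β} : Mem F r A B → x ∉ A →
      y ∈ B → y' ∈ B → y ≠ y' → (x, y) ∈ F → (x, y') ∈ F → Mem F (r + 1) (insert x A) B
  | addR {r : ℕ} {A : Finset α} {B : Finset β} {x x' : α} {y : β} : Mem F r A B → y ∉ B →
      x ∈ A → x' ∈ A → x ≠ x' → (x, y) ∈ F → (x', y) ∈ F → Mem F (r + 1) A (insert y B)
  | join {r : ℕ} {A1 A2 : Finset α} {B1 B2 : Finset β} : Mem F r A1 B1 → Mem F r A2 B2 →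
      (2 ≤ (A1 ∩ A2).card ∨ 2 ≤ (B1 ∩ B2).card) → Mem F (r + 1) (A1 ∪ A2) (B1 ∪ B2)

variable {F : Finset (α × β)}

lemma card_four {γ : Type*} [DecidableEq γ] {a b c d : γ} (h1 : a ≠ b) (h2 : a ≠ c)
    (h3 : a ≠ d) (h4 : b ≠ c) (h5 : b ≠ d) (h6 : c ≠ d) : ({a, b, c, d} : Finset γ).card = 4 := by
  rw [card_insert_of_notMem (by simp [h1, h2, h3]), card_insert_of_notMem (by simp [h4, h5]),
    card_pair h6]

lemma Mem.four_le {r : ℕ} {A : Finset α} {B : Finset β} (h : Mem F r A B) :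
    4 ≤ A.card ∧ 4 ≤ B.card := by
  induction h with
  | base c =>
    exact ⟨(card_four c.ut1 c.ut2 c.ut3 c.t12 c.t13 c.t23).ge,
      (card_four c.vs1 c.vs2 c.vs3 c.s12 c.s13 c.s23).ge⟩
  | up _ ih => exact ih
  | addL _ _ _ _ _ _ _ ih =>
    exact ⟨ih.1.trans (card_le_card (subset_insert _ _)), ih.2⟩
  | addR _ _ _ _ _ _ _ ih =>
    exact ⟨ih.1, ih.2.trans (card_le_card (subset_insert _ _))⟩
  | join _ _ _ ih1 _ =>
    exact ⟨ih1.1.trans (card_le_card subset_union_left),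
      ih1.2.trans (card_le_card subset_union_left)⟩

lemma Mem.subset {A₀ : Finset α} {B₀ : Finset β} (hF : F ⊆ A₀ ×ˢ B₀) {r : ℕ} {A : Finset α}
    {B : Finset β} (h : Mem F r A B) : A ⊆ A₀ ∧ B ⊆ B₀ := by
  have m : ∀ {x : α} {y : β}, (x, y) ∈ F → x ∈ A₀ ∧ y ∈ B₀ := fun h => mem_product.mp (hF h)
  induction h with
  | base c =>
    constructor
    · intro z hz
      simp only [mem_insert, mem_singleton] at hz
      rcases hz with rfl | rfl | rfl | rfl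
      · exact (m c.e_uv).1
      · exact (m c.e_t1v).1
      · exact (m c.e_t2v).1
      · exact (m c.e_t3v).1
    · intro z hz
      simp only [mem_insert, mem_singleton] at hz
      rcases hz with rfl | rfl | rfl | rfl
      · exact (m c.e_uv).2
      · exact (m c.e_us1).2
      · exact (m c.e_us2).2
      · exact (m c.e_us3).2
  | up _ ih => exact ih
  | addL _ _ _ _ _ h1 _ ih => exact ⟨insert_subset (m h1).1 ih.1, ih.2⟩
  | addR _ _ _ _ _ h1 _ ih => exact ⟨ih.1, insert_subset (m h1).2 ih.2⟩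
  | join _ _ _ ih1 ih2 =>
    exact ⟨union_subset ih1.1 ih2.1, union_subset ih1.2 ih2.2⟩

lemma Mem.mono {F' : Finset (α × β)} (hF : F ⊆ F') {r : ℕ} {A : Finset α} {B : Finset β}
    (h : Mem F r A B) : Mem F' r A B := by
  induction h with
  | base c => exact Mem.base (c.mono hF)
  | up _ ih => exact Mem.up ih
  | addL _ a b c d e f ih => exact Mem.addL ih a b c d (hF e) (hF f)
  | addR _ a b c d e f ih => exact Mem.addR ih a b c d (hF e) (hF f)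
  | join _ _ hsh ih1 ih2 => exact Mem.join ih1 ih2 hsh

lemma Mem.le {r s : ℕ} (hrs : r ≤ s) {A : Finset α} {B : Finset β} (h : Mem F r A B) :
    Mem F s A B := by
  induction hrs with
  | refl => exact h
  | step _ ih => exact Mem.up ih

lemma Mem.comp {E : ℕ → α → β → Prop} (hE : QProc E) {t : ℕ} (hF : ∀ f ∈ F, E t f.1 f.2)
    {r : ℕ} {A : Finset α} {B : Finset β} (h : Mem F r A B) : Comp E (t + r) A B := by
  induction h with
  | base c => exact c.comp hE hF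
  | up _ ih => exact fun x hx y hy => hE.mono (by omega) (ih x hx y hy)
  | @addL r A B x y y' m hx hy hy' hne e1 e2 ih =>
    intro a ha b hb
    rw [mem_insert] at ha
    rcases ha with rfl | ha
    · exact absorbL hE m.four_le.1 m.four_le.2 ih hx hy hy' hne
        (hE.mono (by omega) (hF _ e1)) (hE.mono (by omega) (hF _ e2)) hb
    · exact hE.mono (by omega) (ih a ha b hb)
  | @addR r A B x x' y m hy hx hx' hne e1 e2 ih =>
    intro a ha b hb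
    rw [mem_insert] at hb
    rcases hb with rfl | hb
    · exact absorbR hE m.four_le.1 m.four_le.2 ih hy hx hx' hne
        (hE.mono (by omega) (hF _ e1)) (hE.mono (by omega) (hF _ e2)) ha
    · exact hE.mono (by omega) (ih a ha b hb)
  | join m1 m2 hsh ih1 ih2 =>
    exact merge hE ih1 ih2 m1.four_le.1 m2.four_le.1 m1.four_le.2 m2.four_le.2 hsh

lemma Mem.fast {r : ℕ} {A : Finset α} {B : Finset β} (h : Mem F r A B) :
    Mem F (A.card + B.card) A B := by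
  induction h with
  | base c =>
    have h4 := (Mem.base c).four_le
    exact (Mem.base c).le (by omega)
  | up _ ih => exact ih
  | @addL r A B x y y' m hx hy hy' hne e1 e2 ih =>
    rw [card_insert_of_notMem hx, show A.card + 1 + B.card = A.card + B.card + 1 by ring]
    exact Mem.addL ih hx hy hy' hne e1 e2
  | @addR r A B x x' y m hy hx hx' hne e1 e2 ih =>
    rw [card_insert_of_notMem hy, show A.card + (B.card + 1) = A.card + B.card + 1 by ring]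
    exact Mem.addR ih hy hx hx' hne e1 e2
  | @join r A1 A2 B1 B2 m1 m2 hsh ih1 ih2 =>
    have ca1 : A1.card ≤ (A1 ∪ A2).card := card_le_card subset_union_left
    have ca2 : A2.card ≤ (A1 ∪ A2).card := card_le_card subset_union_right
    have cb1 : B1.card ≤ (B1 ∪ B2).card := card_le_card subset_union_left
    have cb2 : B2.card ≤ (B1 ∪ B2).card := card_le_card subset_union_right
    by_cases e1 : A1.card + B1.card = (A1 ∪ A2).card + (B1 ∪ B2).card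
    · have ea : A1 = A1 ∪ A2 := eq_of_subset_of_card_le subset_union_left (by omega)
      have eb : B1 = B1 ∪ B2 := eq_of_subset_of_card_le subset_union_left (by omega)
      rw [← ea, ← eb]
      exact ih1
    by_cases e2 : A2.card + B2.card = (A1 ∪ A2).card + (B1 ∪ B2).card
    · have ea : A2 = A1 ∪ A2 := eq_of_subset_of_card_le subset_union_right (by omega)
      have eb : B2 = B1 ∪ B2 := eq_of_subset_of_card_le subset_union_right (by omega)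
      rw [← ea, ← eb]
      exact ih2
    obtain ⟨k, hk⟩ : ∃ k, (A1 ∪ A2).card + (B1 ∪ B2).card = k + 1 :=
      ⟨(A1 ∪ A2).card + (B1 ∪ B2).card - 1, by have := m1.four_le; omega⟩
    rw [hk]
    exact Mem.join (ih1.le (by omega)) (ih2.le (by omega)) hsh

lemma not_mem_empty {r : ℕ} {A : Finset α} {B : Finset β} (h : Mem ∅ r A B) : False := by
  induction h with
  | base c => simpa using c.e_uv
  | up _ ih => exact ih
  | addL _ _ _ _ _ _ _ ih => exact ih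
  | addR _ _ _ _ _ _ _ ih => exact ih
  | join _ _ _ ih1 _ => exact ih1

/-- `D` is a block of `F`. -/
def Blk (F : Finset (α × β)) (D : Finset α × Finset β) : Prop := ∃ r, Mem F r D.1 D.2

lemma Blk.four_le {D : Finset α × Finset β} (h : Blk F D) : 4 ≤ D.1.card ∧ 4 ≤ D.2.card := by
  obtain ⟨r, hr⟩ := h
  exact hr.four_le

lemma Blk.subset {A₀ : Finset α} {B₀ : Finset β} (hF : F ⊆ A₀ ×ˢ B₀)
    {D : Finset α × Finset β} (h : Blk F D) : D.1 ⊆ A₀ ∧ D.2 ⊆ B₀ := by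
  obtain ⟨r, hr⟩ := h
  exact hr.subset hF

lemma Blk.mono {F' : Finset (α × β)} (hF : F ⊆ F') {D : Finset α × Finset β} (h : Blk F D) :
    Blk F' D := by
  obtain ⟨r, hr⟩ := h
  exact ⟨r, hr.mono hF⟩

lemma Blk.comp {E : ℕ → α → β → Prop} (hE : QProc E) {t : ℕ} (hF : ∀ f ∈ F, E t f.1 f.2)
    {D : Finset α × Finset β} (h : Blk F D) : Comp E (t + (D.1.card + D.2.card)) D.1 D.2 := by
  obtain ⟨r, hr⟩ := h
  exact hr.fast.comp hE hF

lemma Blk.join {D D' : Finset α × Finset β} (h : Blk F D) (h' : Blk F D')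
    (hsh : 2 ≤ (D.1 ∩ D'.1).card ∨ 2 ≤ (D.2 ∩ D'.2).card) :
    Blk F (D.1 ∪ D'.1, D.2 ∪ D'.2) := by
  obtain ⟨r, hr⟩ := h
  obtain ⟨s, hs⟩ := h'
  exact ⟨max r s + 1, (hr.le (le_max_left _ _)).join (hs.le (le_max_right _ _)) hsh⟩

open Classical in
/-- The maximal blocks of `F ⊆ A₀ × B₀`. -/
noncomputable def maxBlk (F : Finset (α × β)) (A₀ : Finset α) (B₀ : Finset β) :
    Finset (Finset α × Finset β) :=
  (A₀.powerset ×ˢ B₀.powerset).filter
    (fun D => Blk F D ∧ ∀ D', Blk F D' → D.1 ⊆ D'.1 → D.2 ⊆ D'.2 → D' = D)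

lemma mem_maxBlk {A₀ : Finset α} {B₀ : Finset β} (hF : F ⊆ A₀ ×ˢ B₀)
    {D : Finset α × Finset β} : D ∈ maxBlk F A₀ B₀ ↔
      Blk F D ∧ ∀ D', Blk F D' → D.1 ⊆ D'.1 → D.2 ⊆ D'.2 → D' = D := by
  classical
  unfold maxBlk
  rw [mem_filter]
  constructor
  · exact fun h => h.2
  · intro h
    refine ⟨?_, h⟩
    rw [mem_product, mem_powerset, mem_powerset]
    exact h.1.subset hF

lemma exists_maxBlk {A₀ : Finset α} {B₀ : Finset β} (hF : F ⊆ A₀ ×ˢ B₀)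
    {D : Finset α × Finset β} (hD : Blk F D) :
    ∃ D' ∈ maxBlk F A₀ B₀, D.1 ⊆ D'.1 ∧ D.2 ⊆ D'.2 := by
  classical
  let S : Finset (Finset α × Finset β) := (A₀.powerset ×ˢ B₀.powerset).filter
    (fun D' => Blk F D' ∧ D.1 ⊆ D'.1 ∧ D.2 ⊆ D'.2)
  have hSm : ∀ D', D' ∈ S ↔ Blk F D' ∧ D.1 ⊆ D'.1 ∧ D.2 ⊆ D'.2 := by
    intro D'
    simp only [S, mem_filter, mem_product, mem_powerset]
    exact ⟨fun h => h.2, fun h => ⟨h.1.subset hF, h⟩⟩
  have hSne : S.Nonempty := ⟨D, (hSm D).mpr ⟨hD, Subset.refl _, Subset.refl _⟩⟩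
  obtain ⟨M, hM, hmax⟩ := S.exists_max_image (fun D' => D'.1.card + D'.2.card) hSne
  have hM' := (hSm M).mp hM
  refine ⟨M, (mem_maxBlk hF).mpr ⟨hM'.1, ?_⟩, hM'.2⟩
  intro D' hD' h1 h2
  have := hmax D' ((hSm D').mpr ⟨hD', hM'.2.1.trans h1, hM'.2.2.trans h2⟩)
  have c1 := card_le_card h1
  have c2 := card_le_card h2
  have e1 : M.1 = D'.1 := eq_of_subset_of_card_le h1 (by omega)
  have e2 : M.2 = D'.2 := eq_of_subset_of_card_le h2 (by omega)
  exact (Prod.ext e1 e2).symm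

lemma maxBlk_disj {A₀ : Finset α} {B₀ : Finset β} (hF : F ⊆ A₀ ×ˢ B₀)
    {D D' : Finset α × Finset β} (hD : D ∈ maxBlk F A₀ B₀) (hD' : D' ∈ maxBlk F A₀ B₀)
    (hne : D ≠ D') : (D.1 ∩ D'.1).card ≤ 1 ∧ (D.2 ∩ D'.2).card ≤ 1 := by
  rw [mem_maxBlk hF] at hD hD'
  by_contra hcon
  have hsh : 2 ≤ (D.1 ∩ D'.1).card ∨ 2 ≤ (D.2 ∩ D'.2).card := by
    by_contra h
    push Not at h
    apply hcon
    omega
  have hj := hD.1.join hD'.1 hsh
  have e1 := hD.2 _ hj subset_union_left subset_union_left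
  have e2 := hD'.2 _ hj subset_union_right subset_union_right
  exact hne (e1.symm.trans e2)

/-- absorption for maximal blocks -/
lemma maxBlk_absorbL {D : Finset α × Finset β} (hD : Blk F D)
    (hmax : ∀ D', Blk F D' → D.1 ⊆ D'.1 → D.2 ⊆ D'.2 → D' = D) {x : α} {y y' : β}
    (hy : y ∈ D.2) (hy' : y' ∈ D.2) (hne : y ≠ y') (h1 : (x, y) ∈ F) (h2 : (x, y') ∈ F) :
    x ∈ D.1 := by
  by_contra hx
  obtain ⟨r, hr⟩ := hD
  have := hmax (insert x D.1, D.2) ⟨r + 1, Mem.addL hr hx hy hy' hne h1 h2⟩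
    (subset_insert _ _) (Subset.refl _)
  have h3 : insert x D.1 = D.1 := congrArg Prod.fst this
  exact hx (h3 ▸ mem_insert_self x D.1)

lemma maxBlk_absorbR {D : Finset α × Finset β} (hD : Blk F D)
    (hmax : ∀ D', Blk F D' → D.1 ⊆ D'.1 → D.2 ⊆ D'.2 → D' = D) {x x' : α} {y : β}
    (hx : x ∈ D.1) (hx' : x' ∈ D.1) (hne : x ≠ x') (h1 : (x, y) ∈ F) (h2 : (x', y) ∈ F) :
    y ∈ D.2 := by
  by_contra hy
  obtain ⟨r, hr⟩ := hD
  have := hmax (D.1, insert y D.2) ⟨r + 1, Mem.addR hr hy hx hx' hne h1 h2⟩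
    (Subset.refl _) (subset_insert _ _)
  have h3 : insert y D.2 = D.2 := congrArg Prod.snd this
  exact hy (h3 ▸ mem_insert_self y D.2)

end MP_01cec5_co.Cube
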