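import Mathlib
import Pool.Agent.Lib.MP_01cec5_co.Count
import Pool.Agent.Lib.MP_01cec5_co.CubeMerge

/-!
Counting for the cube process.
-/

namespace MP_01cec5_co.Cube

open Finset

variable {α β : Type*} [DecidableEq α] [DecidableEq β]

/-- `H` contains a path on six vertices. -/
def HasP6 (H : Finset (α × β)) : Prop :=
  ∃ (t1 t2 t3 : α) (s1 s2 s3 : β), t1 ≠ t2 ∧ t1 ≠ t3 ∧ t2 ≠ t3 ∧ s1 ≠ s2 ∧ s1 ≠ s3 ∧ s2 ≠ s3 ∧
    (t1, s1) ∈ H ∧ (t1, s2) ∈ H ∧ (t2, s2) ∈ H ∧ (t2, s3) ∈ H ∧ (t3, s3) ∈ H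

lemma nbrL {H : Finset (α × β)} {x : α} (h : 3 ≤ (H.filter (fun f => f.1 = x)).card) (s s' : β) :
    ∃ y, (x, y) ∈ H ∧ y ≠ s ∧ y ≠ s' := by
  obtain ⟨g, hg, h1, h2⟩ := exists_extra1 h (x, s) (x, s')
  rw [mem_filter] at hg
  obtain ⟨g1, g2⟩ := g
  simp only at hg
  obtain ⟨hg, rfl⟩ := hg
  exact ⟨g2, hg, fun e => h1 (by rw [e]), fun e => h2 (by rw [e])⟩

lemma nbrR {H : Finset (α × β)} {y : β} (h : 3 ≤ (H.filter (fun f => f.2 = y)).card) (s s' : α) :
    ∃ x, (x, y) ∈ H ∧ x ≠ s ∧ x ≠ s' := by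
  obtain ⟨g, hg, h1, h2⟩ := exists_extra1 h (s, y) (s', y)
  rw [mem_filter] at hg
  obtain ⟨g1, g2⟩ := g
  simp only at hg
  obtain ⟨hg, rfl⟩ := hg
  exact ⟨g1, hg, fun e => h1 (by rw [e]), fun e => h2 (by rw [e])⟩

lemma card_le_of_no_P6 (n : ℕ) : ∀ (X : Finset α) (Y : Finset β) (H : Finset (α × β)),
    X.card + Y.card = n → H ⊆ X ×ˢ Y → ¬ HasP6 H → H.card ≤ 2 * n := by
  induction n with
  | zero =>
    intro X Y H hn hH _
    have hX : X = ∅ := card_eq_zero.mp (by omega)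
    rw [hX, empty_product] at hH
    rw [subset_empty.mp hH]
    simp
  | succ n ih =>
    intro X Y H hn hH hP
    by_cases hx : ∃ x ∈ X, (H.filter (fun f => f.1 = x)).card ≤ 2
    · obtain ⟨x, hxX, hx⟩ := hx
      have h1 := card_filter_add_card_filter_not (s := H) (fun f => f.1 = x)
      have h2 : (H.filter (fun f => ¬ f.1 = x)).card ≤ 2 * n := by
        apply ih (X.erase x) Y
        · rw [card_erase_of_mem hxX]
          have : 0 < X.card := card_pos.mpr ⟨x, hxX⟩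
          omega
        · intro f hf
          rw [mem_filter] at hf
          have := mem_product.mp (hH hf.1)
          exact mem_product.mpr ⟨mem_erase.mpr ⟨hf.2, this.1⟩, this.2⟩
        · rintro ⟨t1, t2, t3, s1, s2, s3, a1, a2, a3, a4, a5, a6, b1, b2, b3, b4, b5⟩
          exact hP ⟨t1, t2, t3, s1, s2, s3, a1, a2, a3, a4, a5, a6, (mem_filter.mp b1).1,
            (mem_filter.mp b2).1, (mem_filter.mp b3).1, (mem_filter.mp b4).1,
            (mem_filter.mp b5).1⟩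
      omega
    by_cases hy : ∃ y ∈ Y, (H.filter (fun f => f.2 = y)).card ≤ 2
    · obtain ⟨y, hyY, hy⟩ := hy
      have h1 := card_filter_add_card_filter_not (s := H) (fun f => f.2 = y)
      have h2 : (H.filter (fun f => ¬ f.2 = y)).card ≤ 2 * n := by
        apply ih X (Y.erase y)
        · rw [card_erase_of_mem hyY]
          have : 0 < Y.card := card_pos.mpr ⟨y, hyY⟩
          omega
        · intro f hf
          rw [mem_filter] at hf
          have := mem_product.mp (hH hf.1)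
          exact mem_product.mpr ⟨this.1, mem_erase.mpr ⟨hf.2, this.2⟩⟩
        · rintro ⟨t1, t2, t3, s1, s2, s3, a1, a2, a3, a4, a5, a6, b1, b2, b3, b4, b5⟩
          exact hP ⟨t1, t2, t3, s1, s2, s3, a1, a2, a3, a4, a5, a6, (mem_filter.mp b1).1,
            (mem_filter.mp b2).1, (mem_filter.mp b3).1, (mem_filter.mp b4).1,
            (mem_filter.mp b5).1⟩
      omega
    push Not at hx hy
    rcases H.eq_empty_or_nonempty with hE | ⟨f, hf⟩
    · rw [hE]; simp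
    exfalso
    obtain ⟨t1, s1⟩ := f
    have dX : ∀ {x y}, (x, y) ∈ H → 3 ≤ (H.filter (fun f => f.1 = x)).card :=
      fun h => hx _ (mem_product.mp (hH h)).1
    have dY : ∀ {x y}, (x, y) ∈ H → 3 ≤ (H.filter (fun f => f.2 = y)).card :=
      fun h => hy _ (mem_product.mp (hH h)).2
    obtain ⟨s2, e12, n21, -⟩ := nbrL (dX hf) s1 s1
    obtain ⟨t2, e22, m21, -⟩ := nbrR (dY e12) t1 t1
    obtain ⟨s3, e23, n31, n32⟩ := nbrL (dX e22) s1 s2
    obtain ⟨t3, e33, m31, m32⟩ := nbrR (dY e23) t1 t2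
    exact hP ⟨t1, t2, t3, s1, s2, s3, m21.symm, m31.symm, m32.symm, n21.symm, n31.symm,
      n32.symm, hf, e12, e22, e23, e33⟩

/-- hypotheses on a family of blocks -/
structure Fam (F : Finset (α × β)) (DD : Finset (Finset α × Finset β)) : Prop where
  conf : ∀ {u t1 t2 t3 : α} {v s1 s2 s3 : β}, Conf F u t1 t2 t3 v s1 s2 s3 →
    ∃ D ∈ DD, u ∈ D.1 ∧ t1 ∈ D.1 ∧ v ∈ D.2 ∧ s1 ∈ D.2
  absL : ∀ D ∈ DD, ∀ {x : α} {y y' : β}, y ∈ D.2 → y' ∈ D.2 → y ≠ y' → (x, y) ∈ F →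
    (x, y') ∈ F → x ∈ D.1
  absR : ∀ D ∈ DD, ∀ {x x' : α} {y : β}, x ∈ D.1 → x' ∈ D.1 → x ≠ x' → (x, y) ∈ F →
    (x', y) ∈ F → y ∈ D.2

/-- the edges completing a four-cycle with `f` that is in no block -/
def opp (F : Finset (α × β)) (DD : Finset (Finset α × Finset β)) (f : α × β) :
    Finset (α × β) :=
  F.filter (fun g => g.1 ≠ f.1 ∧ g.2 ≠ f.2 ∧ (f.1, g.2) ∈ F ∧ (g.1, f.2) ∈ F ∧
    ∀ D ∈ DD, ¬ (f.1 ∈ D.1 ∧ g.1 ∈ D.1 ∧ f.2 ∈ D.2 ∧ g.2 ∈ D.2))

lemma card_opp_le {F : Finset (α × β)} {DD : Finset (Finset α × Finset β)} (hDD : Fam F DD)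
    {f : α × β} (hf : f ∈ F) : (opp F DD f).card ≤ 2 * (dR F f.2 + dL F f.1) := by
  have h := card_le_of_no_P6 (((F.filter (fun g => g.2 = f.2)).image Prod.fst).card +
      ((F.filter (fun g => g.1 = f.1)).image Prod.snd).card)
      ((F.filter (fun g => g.2 = f.2)).image Prod.fst)
      ((F.filter (fun g => g.1 = f.1)).image Prod.snd) (opp F DD f) rfl ?_ ?_
  · have h1 : ((F.filter (fun g => g.2 = f.2)).image Prod.fst).card ≤ dR F f.2 := card_image_le
    have h2 : ((F.filter (fun g => g.1 = f.1)).image Prod.snd).card ≤ dL F f.1 := card_image_le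
    omega
  · intro g hg
    rw [opp, mem_filter] at hg
    rw [mem_product, mem_image, mem_image]
    exact ⟨⟨(g.1, f.2), mem_filter.mpr ⟨hg.2.2.2.2.1, rfl⟩, rfl⟩,
      ⟨(f.1, g.2), mem_filter.mpr ⟨hg.2.2.2.1, rfl⟩, rfl⟩⟩
  · rintro ⟨t1, t2, t3, s1, s2, s3, a1, a2, a3, a4, a5, a6, b1, b2, b3, b4, b5⟩
    simp only [opp, mem_filter] at b1 b2 b3 b4 b5
    have c : Conf F f.1 t1 t2 t3 f.2 s1 s2 s3 :=
      ⟨b1.2.1.symm, b3.2.1.symm, b5.2.1.symm, a1, a2, a3,
        b1.2.2.1.symm, b2.2.2.1.symm, b4.2.2.1.symm, a4, a5, a6,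
        hf, b1.2.2.2.1, b2.2.2.2.1, b4.2.2.2.1, b1.2.2.2.2.1, b3.2.2.2.2.1, b5.2.2.2.2.1,
        b1.1, b2.1, b3.1, b4.1, b5.1⟩
    obtain ⟨D, hD, h1, h2, h3, h4⟩ := hDD.conf c
    exact b1.2.2.2.2.2 D hD ⟨h1, h2, h3, h4⟩

lemma sum_dR (F : Finset (α × β)) : ∑ f ∈ F, dR F f.2 = (pR F).card := by
  have h : ∀ p ∈ pR F, p.1 ∈ F := by
    intro p hp
    rw [pR, mem_filter, mem_product] at hp
    exact hp.1.1
  rw [card_eq_sum_card_fiberwise h]
  apply sum_congr rfl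
  intro f hf
  unfold dR
  apply card_bij (fun g _ => (f, g))
  · intro g hg
    rw [mem_filter] at hg
    simp only [pR, mem_filter, mem_product]
    exact ⟨⟨⟨hf, hg.1⟩, hg.2.symm⟩, trivial⟩
  · intro g _ g' _ h
    exact congrArg Prod.snd h
  · intro p hp
    simp only [pR, mem_filter, mem_product] at hp
    refine ⟨p.2, mem_filter.mpr ⟨hp.1.1.2, ?_⟩, ?_⟩
    · rw [← hp.1.2, hp.2]
    · rw [← hp.2]

lemma sum_dL (F : Finset (α × β)) : ∑ f ∈ F, dL F f.1 = (pL F).card := by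
  have h : ∀ p ∈ pL F, p.1 ∈ F := by
    intro p hp
    rw [pL, mem_filter, mem_product] at hp
    exact hp.1.1
  rw [card_eq_sum_card_fiberwise h]
  apply sum_congr rfl
  intro f hf
  unfold dL
  apply card_bij (fun g _ => (f, g))
  · intro g hg
    rw [mem_filter] at hg
    simp only [pL, mem_filter, mem_product]
    exact ⟨⟨⟨hf, hg.1⟩, hg.2.symm⟩, trivial⟩
  · intro g _ g' _ h
    exact congrArg Prod.snd h
  · intro p hp
    simp only [pL, mem_filter, mem_product] at hp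
    refine ⟨p.2, mem_filter.mpr ⟨hp.1.1.2, ?_⟩, ?_⟩
    · rw [← hp.1.2, hp.2]
    · rw [← hp.2]

/-- the number of non-block four-cycles -/
lemma sum_opp_le {F : Finset (α × β)} {DD : Finset (Finset α × Finset β)} (hDD : Fam F DD) :
    ∑ f ∈ F, (opp F DD f).card ≤ 2 * P F := by
  calc ∑ f ∈ F, (opp F DD f).card ≤ ∑ f ∈ F, 2 * (dR F f.2 + dL F f.1) :=
        sum_le_sum (fun f hf => card_opp_le hDD hf)
    _ = 2 * P F := by
        rw [← mul_sum, sum_add_distrib, sum_dR, sum_dL]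
        rfl

/-- pairs of edges with the same right end not covered by a block -/
def UR (F : Finset (α × β)) (DD : Finset (Finset α × Finset β)) :
    Finset ((α × β) × (α × β)) :=
  (pR F).filter (fun p => p.1.1 ≠ p.2.1 ∧ ∀ D ∈ DD, ¬ (p.1.1 ∈ D.1 ∧ p.2.1 ∈ D.1))

def UL (F : Finset (α × β)) (DD : Finset (Finset α × Finset β)) :
    Finset ((α × β) × (α × β)) :=
  (pL F).filter (fun p => p.1.2 ≠ p.2.2 ∧ ∀ D ∈ DD, ¬ (p.1.2 ∈ D.2 ∧ p.2.2 ∈ D.2))

lemma card_pR_le' {F : Finset (α × β)} {DD : Finset (Finset α × Finset β)} (hDD : Fam F DD) :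
    (pR F).card ≤ F.card + (UR F DD).card + ∑ D ∈ DD, (pR (res F D)).card := by
  classical
  have hsub : pR F ⊆ (F.image (fun f => (f, f)) ∪ UR F DD) ∪
      DD.biUnion (fun D => pR (res F D)) := by
    rintro ⟨⟨x, y⟩, ⟨x', y1⟩⟩ hp
    have hp' := hp
    simp only [pR, mem_filter, mem_product] at hp
    obtain ⟨⟨h1, h2⟩, rfl⟩ := hp
    by_cases hx : x = x'
    · subst hx
      apply mem_union_left
      apply mem_union_left
      rw [mem_image]
      exact ⟨(x, y), h1, rfl⟩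
    by_cases hu : ∀ D ∈ DD, ¬ (x ∈ D.1 ∧ x' ∈ D.1)
    · apply mem_union_left
      apply mem_union_right
      simp only [UR, mem_filter]
      exact ⟨hp', hx, hu⟩
    · push Not at hu
      obtain ⟨D, hD, hxD, hxD'⟩ := hu
      apply mem_union_right
      have hyD := hDD.absR D hD hxD hxD' hx h1 h2
      rw [mem_biUnion]
      refine ⟨D, hD, ?_⟩
      simp only [pR, res, mem_filter, mem_product]
      exact ⟨⟨⟨h1, hxD, hyD⟩, ⟨h2, hxD', hyD⟩⟩, trivial⟩
  have h0 := card_le_card hsub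
  have h1 := card_union_le (F.image (fun f => (f, f)) ∪ UR F DD)
    (DD.biUnion (fun D => pR (res F D)))
  have h2 := card_union_le (F.image (fun f => (f, f))) (UR F DD)
  have h3 : (F.image (fun f => (f, f))).card ≤ F.card := card_image_le
  have h4 : (DD.biUnion (fun D => pR (res F D))).card ≤ ∑ D ∈ DD, (pR (res F D)).card :=
    card_biUnion_le
  omega

lemma card_pL_le' {F : Finset (α × β)} {DD : Finset (Finset α × Finset β)} (hDD : Fam F DD) :
    (pL F).card ≤ F.card + (UL F DD).card + ∑ D ∈ DD, (pL (res F D)).card := by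
  classical
  have hsub : pL F ⊆ (F.image (fun f => (f, f)) ∪ UL F DD) ∪
      DD.biUnion (fun D => pL (res F D)) := by
    rintro ⟨⟨x, y⟩, ⟨x1, y'⟩⟩ hp
    have hp' := hp
    simp only [pL, mem_filter, mem_product] at hp
    obtain ⟨⟨h1, h2⟩, rfl⟩ := hp
    by_cases hy : y = y'
    · subst hy
      apply mem_union_left
      apply mem_union_left
      rw [mem_image]
      exact ⟨(x, y), h1, rfl⟩
    by_cases hu : ∀ D ∈ DD, ¬ (y ∈ D.2 ∧ y' ∈ D.2)
    · apply mem_union_left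
      apply mem_union_right
      simp only [UL, mem_filter]
      exact ⟨hp', hy, hu⟩
    · push Not at hu
      obtain ⟨D, hD, hyD, hyD'⟩ := hu
      apply mem_union_right
      have hxD := hDD.absL D hD hyD hyD' hy h1 h2
      rw [mem_biUnion]
      refine ⟨D, hD, ?_⟩
      simp only [pL, res, mem_filter, mem_product]
      exact ⟨⟨⟨h1, hxD, hyD⟩, ⟨h2, hxD, hyD'⟩⟩, trivial⟩
  have h0 := card_le_card hsub
  have h1 := card_union_le (F.image (fun f => (f, f)) ∪ UL F DD)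
    (DD.biUnion (fun D => pL (res F D)))
  have h2 := card_union_le (F.image (fun f => (f, f))) (UL F DD)
  have h3 : (F.image (fun f => (f, f))).card ≤ F.card := card_image_le
  have h4 : (DD.biUnion (fun D => pL (res F D))).card ≤ ∑ D ∈ DD, (pL (res F D)).card :=
    card_biUnion_le
  omega

lemma UR_sq_le {F : Finset (α × β)} {A₀ : Finset α} {B₀ : Finset β} (hF : F ⊆ A₀ ×ˢ B₀)
    {DD : Finset (Finset α × Finset β)} (hDD : Fam F DD) :
    (UR F DD).card ^ 2 ≤ 3 * A₀.card ^ 2 * P F := by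
  classical
  have hmaps : ∀ p ∈ UR F DD, (p.1.1, p.2.1) ∈ A₀ ×ˢ A₀ := by
    intro p hp
    rw [UR, mem_filter, pR, mem_filter, mem_product] at hp
    exact mem_product.mpr ⟨(mem_product.mp (hF hp.1.1.1)).1, (mem_product.mp (hF hp.1.1.2)).1⟩
  have h1 : (UR F DD).card = ∑ q ∈ A₀ ×ˢ A₀,
      ((UR F DD).filter (fun p => (p.1.1, p.2.1) = q)).card :=
    card_eq_sum_card_fiberwise hmaps
  have h2 : ∑ q ∈ A₀ ×ˢ A₀, ((UR F DD).filter (fun p => (p.1.1, p.2.1) = q)).card ^ 2 =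
      ((UR F DD ×ˢ UR F DD).filter (fun w => (w.1.1.1, w.1.2.1) = (w.2.1.1, w.2.2.1))).card := by
    have hm : ∀ w ∈ (UR F DD ×ˢ UR F DD).filter
        (fun w => (w.1.1.1, w.1.2.1) = (w.2.1.1, w.2.2.1)),
        (w.1.1.1, w.1.2.1) ∈ A₀ ×ˢ A₀ := by
      intro w hw
      rw [mem_filter, mem_product] at hw
      exact hmaps _ hw.1.1
    rw [card_eq_sum_card_fiberwise hm]
    apply sum_congr rfl
    intro q _
    rw [sq, ← card_product]
    congr 1
    ext w
    simp only [mem_filter, mem_product]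
    constructor
    · rintro ⟨⟨a1, a2⟩, ⟨b1, b2⟩⟩
      exact ⟨⟨⟨a1, b1⟩, a2.trans b2.symm⟩, a2⟩
    · rintro ⟨⟨⟨a1, b1⟩, c⟩, a2⟩
      exact ⟨⟨a1, a2⟩, ⟨b1, c.symm.trans a2⟩⟩
  have h3 : ((UR F DD ×ˢ UR F DD).filter
      (fun w => (w.1.1.1, w.1.2.1) = (w.2.1.1, w.2.2.1))).card ≤
      (UR F DD).card + ∑ f ∈ F, (opp F DD f).card := by
    have hsub : (UR F DD ×ˢ UR F DD).filter
        (fun w => (w.1.1.1, w.1.2.1) = (w.2.1.1, w.2.2.1)) ⊆
        (UR F DD).image (fun p => (p, p)) ∪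
        (F.sigma (fun f => opp F DD f)).image
          (fun w : (_ : α × β) × (α × β) => ((w.1, (w.2.1, w.1.2)), ((w.1.1, w.2.2), w.2))) := by
      rintro ⟨⟨⟨x, y⟩, ⟨x', y1⟩⟩, ⟨⟨x2, y'⟩, ⟨x3, y3⟩⟩⟩ hw
      rw [mem_filter, mem_product] at hw
      obtain ⟨⟨hp, hp'⟩, heq⟩ := hw
      simp only [Prod.mk.injEq] at heq
      obtain ⟨rfl, rfl⟩ := heq
      have hp0 := hp
      simp only [UR, pR, mem_filter, mem_product] at hp hp'
      obtain ⟨⟨⟨a1, a2⟩, rfl⟩, a3, a4⟩ := hp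
      obtain ⟨⟨⟨b1, b2⟩, rfl⟩, b3, b4⟩ := hp'
      by_cases hy : y = y'
      · subst hy
        apply mem_union_left
        rw [mem_image]
        exact ⟨_, hp0, rfl⟩
      · apply mem_union_right
        rw [mem_image]
        refine ⟨⟨(x, y), (x', y')⟩, ?_, rfl⟩
        rw [mem_sigma]
        refine ⟨a1, ?_⟩
        rw [opp, mem_filter]
        exact ⟨b2, fun h => a3 h.symm, fun h => hy h.symm, b1, a2,
          fun D hD h => a4 D hD ⟨h.1, h.2.1⟩⟩
    have c0 := card_le_card hsub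
    have c1 := card_union_le ((UR F DD).image (fun p => (p, p)))
        ((F.sigma (fun f => opp F DD f)).image
          (fun w : (_ : α × β) × (α × β) => ((w.1, (w.2.1, w.1.2)), ((w.1.1, w.2.2), w.2))))
    have c2 : ((UR F DD).image (fun p => (p, p))).card ≤ (UR F DD).card := card_image_le
    have c3 : ((F.sigma (fun f => opp F DD f)).image
          (fun w : (_ : α × β) × (α × β) =>
            ((w.1, (w.2.1, w.1.2)), ((w.1.1, w.2.2), w.2)))).card ≤
          ∑ f ∈ F, (opp F DD f).card := by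
      refine card_image_le.trans ?_
      rw [card_sigma]
    omega
  have h4 := sum_opp_le hDD
  have h5 : (UR F DD).card ≤ P F := by
    have : (UR F DD).card ≤ (pR F).card := card_le_card (filter_subset _ _)
    unfold P
    omega
  have h6 : (UR F DD).card ^ 2 ≤ (A₀ ×ˢ A₀).card *
      ∑ q ∈ A₀ ×ˢ A₀, ((UR F DD).filter (fun p => (p.1.1, p.2.1) = q)).card ^ 2 := by
    conv_lhs => rw [h1]
    exact sq_sum_le_card_mul_sum_sq
  rw [h2, card_product] at h6
  calc (UR F DD).card ^ 2 ≤ A₀.card * A₀.card * _ := h6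
    _ ≤ A₀.card * A₀.card * (3 * P F) := Nat.mul_le_mul_left _ (by omega)
    _ = 3 * A₀.card ^ 2 * P F := by ring

lemma UL_sq_le {F : Finset (α × β)} {A₀ : Finset α} {B₀ : Finset β} (hF : F ⊆ A₀ ×ˢ B₀)
    {DD : Finset (Finset α × Finset β)} (hDD : Fam F DD) :
    (UL F DD).card ^ 2 ≤ 3 * B₀.card ^ 2 * P F := by
  classical
  have hmaps : ∀ p ∈ UL F DD, (p.1.2, p.2.2) ∈ B₀ ×ˢ B₀ := by
    intro p hp
    rw [UL, mem_filter, pL, mem_filter, mem_product] at hp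
    exact mem_product.mpr ⟨(mem_product.mp (hF hp.1.1.1)).2, (mem_product.mp (hF hp.1.1.2)).2⟩
  have h1 : (UL F DD).card = ∑ q ∈ B₀ ×ˢ B₀,
      ((UL F DD).filter (fun p => (p.1.2, p.2.2) = q)).card :=
    card_eq_sum_card_fiberwise hmaps
  have h2 : ∑ q ∈ B₀ ×ˢ B₀, ((UL F DD).filter (fun p => (p.1.2, p.2.2) = q)).card ^ 2 =
      ((UL F DD ×ˢ UL F DD).filter (fun w => (w.1.1.2, w.1.2.2) = (w.2.1.2, w.2.2.2))).card := by
    have hm : ∀ w ∈ (UL F DD ×ˢ UL F DD).filter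
        (fun w => (w.1.1.2, w.1.2.2) = (w.2.1.2, w.2.2.2)),
        (w.1.1.2, w.1.2.2) ∈ B₀ ×ˢ B₀ := by
      intro w hw
      rw [mem_filter, mem_product] at hw
      exact hmaps _ hw.1.1
    rw [card_eq_sum_card_fiberwise hm]
    apply sum_congr rfl
    intro q _
    rw [sq, ← card_product]
    congr 1
    ext w
    simp only [mem_filter, mem_product]
    constructor
    · rintro ⟨⟨a1, a2⟩, ⟨b1, b2⟩⟩
      exact ⟨⟨⟨a1, b1⟩, a2.trans b2.symm⟩, a2⟩
    · rintro ⟨⟨⟨a1, b1⟩, c⟩, a2⟩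
      exact ⟨⟨a1, a2⟩, ⟨b1, c.symm.trans a2⟩⟩
  have h3 : ((UL F DD ×ˢ UL F DD).filter
      (fun w => (w.1.1.2, w.1.2.2) = (w.2.1.2, w.2.2.2))).card ≤
      (UL F DD).card + ∑ f ∈ F, (opp F DD f).card := by
    have hsub : (UL F DD ×ˢ UL F DD).filter
        (fun w => (w.1.1.2, w.1.2.2) = (w.2.1.2, w.2.2.2)) ⊆
        (UL F DD).image (fun p => (p, p)) ∪
        (F.sigma (fun f => opp F DD f)).image
          (fun w : (_ : α × β) × (α × β) => ((w.1, (w.1.1, w.2.2)), ((w.2.1, w.1.2), w.2))) := by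
      rintro ⟨⟨⟨x, y⟩, ⟨x1, y'⟩⟩, ⟨⟨x', y2⟩, ⟨x3, y3⟩⟩⟩ hw
      rw [mem_filter, mem_product] at hw
      obtain ⟨⟨hp, hp'⟩, heq⟩ := hw
      simp only [Prod.mk.injEq] at heq
      obtain ⟨rfl, rfl⟩ := heq
      have hp0 := hp
      simp only [UL, pL, mem_filter, mem_product] at hp hp'
      obtain ⟨⟨⟨a1, a2⟩, rfl⟩, a3, a4⟩ := hp
      obtain ⟨⟨⟨b1, b2⟩, rfl⟩, b3, b4⟩ := hp'
      by_cases hx : x = x'
      · subst hx
        apply mem_union_left
        rw [mem_image]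
        exact ⟨_, hp0, rfl⟩
      · apply mem_union_right
        rw [mem_image]
        refine ⟨⟨(x, y), (x', y')⟩, ?_, rfl⟩
        rw [mem_sigma]
        refine ⟨a1, ?_⟩
        rw [opp, mem_filter]
        exact ⟨b2, fun h => hx h.symm, fun h => a3 h.symm, a2, b1,
          fun D hD h => a4 D hD ⟨h.2.2.1, h.2.2.2⟩⟩
    have c0 := card_le_card hsub
    have c1 := card_union_le ((UL F DD).image (fun p => (p, p)))
        ((F.sigma (fun f => opp F DD f)).image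
          (fun w : (_ : α × β) × (α × β) => ((w.1, (w.1.1, w.2.2)), ((w.2.1, w.1.2), w.2))))
    have c2 : ((UL F DD).image (fun p => (p, p))).card ≤ (UL F DD).card := card_image_le
    have c3 : ((F.sigma (fun f => opp F DD f)).image
          (fun w : (_ : α × β) × (α × β) =>
            ((w.1, (w.1.1, w.2.2)), ((w.2.1, w.1.2), w.2)))).card ≤
          ∑ f ∈ F, (opp F DD f).card := by
      refine card_image_le.trans ?_
      rw [card_sigma]
    omega
  have h4 := sum_opp_le hDD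
  have h5 : (UL F DD).card ≤ P F := by
    have : (UL F DD).card ≤ (pL F).card := card_le_card (filter_subset _ _)
    unfold P
    omega
  have h6 : (UL F DD).card ^ 2 ≤ (B₀ ×ˢ B₀).card *
      ∑ q ∈ B₀ ×ˢ B₀, ((UL F DD).filter (fun p => (p.1.2, p.2.2) = q)).card ^ 2 := by
    conv_lhs => rw [h1]
    exact sq_sum_le_card_mul_sum_sq
  rw [h2, card_product] at h6
  calc (UL F DD).card ^ 2 ≤ B₀.card * B₀.card * _ := h6
    _ ≤ B₀.card * B₀.card * (3 * P F) := Nat.mul_le_mul_left _ (by omega)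
    _ = 3 * B₀.card ^ 2 * P F := by ring

/-- the cube version of (I1) -/
lemma P_le' {F : Finset (α × β)} {A₀ : Finset α} {B₀ : Finset β} (hF : F ⊆ A₀ ×ˢ B₀)
    {DD : Finset (Finset α × Finset β)} (hDD : Fam F DD) :
    ∃ T : ℕ, T ^ 2 ≤ 6 * (A₀.card ^ 2 + B₀.card ^ 2) * P F ∧
      P F ≤ (A₀.card + B₀.card) ^ 2 + T + ∑ D ∈ DD, P (res F D) := by
  refine ⟨(UR F DD).card + (UL F DD).card, ?_, ?_⟩
  · have h1 := UR_sq_le hF hDD
    have h2 := UL_sq_le hF hDD
    have h3 := sq_add_le (UR F DD).card (UL F DD).card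
    linarith
  · have h1 := card_pR_le' hDD
    have h2 := card_pL_le' hDD
    have h3 := card_F_le hF
    have h4 : ∑ D ∈ DD, P (res F D) =
        ∑ D ∈ DD, (pR (res F D)).card + ∑ D ∈ DD, (pL (res F D)).card := by
      rw [← sum_add_distrib]
      rfl
    rw [h4]
    have h5 : P F = (pR F).card + (pL F).card := rfl
    rw [h5]
    nlinarith [h1, h2, h3]

lemma fam_maxBlk {F : Finset (α × β)} {A₀ : Finset α} {B₀ : Finset β} (hF : F ⊆ A₀ ×ˢ B₀) :
    Fam F (maxBlk F A₀ B₀) := by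
  constructor
  · intro u t1 t2 t3 v s1 s2 s3 c
    obtain ⟨D, hD, h1, h2⟩ := exists_maxBlk (D := ({u, t1, t2, t3}, {v, s1, s2, s3})) hF
      ⟨2, Mem.base c⟩
    refine ⟨D, hD, h1 ?_, h1 ?_, h2 ?_, h2 ?_⟩ <;> simp
  · intro D hD x y y' hy hy' hne h1 h2
    rw [mem_maxBlk hF] at hD
    exact maxBlk_absorbL hD.1 hD.2 hy hy' hne h1 h2
  · intro D hD x x' y hx hx' hne h1 h2
    rw [mem_maxBlk hF] at hD
    exact maxBlk_absorbR hD.1 hD.2 hx hx' hne h1 h2

end MP_01cec5_co.Cube
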