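import Mathlib

/-!
The `H`-bootstrap percolation process of the problem MP_01cec5_co.
-/

namespace MP_01cec5_co

open SimpleGraph

/-- One round of the `H`-process: every non-edge `uv` such that adding `uv` to `G` increases the
number of copies of `H` (`SimpleGraph.copyCount`: the number of subgraphs isomorphic to `H`)
is added, all at once. -/
noncomputable def round {V W : Type} [Fintype V] (H : SimpleGraph W) (G : SimpleGraph V) :
    SimpleGraph V where
  Adj u v := G.Adj u v ∨ (u ≠ v ∧ G.copyCount H < (G ⊔ edge u v).copyCount H)
  symm := ⟨fun u v h => by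
    rcases h with h | ⟨h1, h2⟩
    · exact Or.inl h.symm
    · exact Or.inr ⟨h1.symm, by rwa [edge_comm]⟩⟩
  loopless := ⟨fun u h => by
    rcases h with h | ⟨h1, _⟩
    · exact G.loopless.irrefl u h
    · exact h1 rfl⟩

/-- The `H`-process `G_0 = G, G_1, G_2, ...` on `G`. -/
noncomputable def process {V W : Type} [Fintype V] (H : SimpleGraph W) (G : SimpleGraph V) :
    ℕ → SimpleGraph V
  | 0 => G
  | i + 1 => round H (process H G i)

/-- The running time `τ_H(G) = min {t : G_t = G_{t+1}}`. -/
noncomputable def runningTime {V W : Type} [Fintype V] (H : SimpleGraph W) (G : SimpleGraph V) :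
    ℕ := sInf {t | process H G t = process H G (t + 1)}

/-- The maximum running time `M_H(n)` over all graphs on `n` vertices. -/
noncomputable def maxRunningTime {W : Type} (H : SimpleGraph W) (n : ℕ) : ℕ :=
  sSup {t | ∃ G : SimpleGraph (Fin n), runningTime H G = t}

/-- The complete bipartite graph `K_{3,3}`. -/
def K33 : SimpleGraph (Fin 3 ⊕ Fin 3) := completeBipartiteGraph (Fin 3) (Fin 3)

end MP_01cec5_co
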