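import Mathlib
import Pool.Agent.Lib.MP_01cec5_co.Defs

/-!
The cube graph.
-/

namespace MP_01cec5_co

/-- The three-dimensional cube graph `Q_3`: the vertices are the 0-1 vectors of length three, two
of them being adjacent when they differ in exactly one coordinate (`hammingDist` is the number of
coordinates in which two vectors differ). -/
def Q3 : SimpleGraph (Fin 3 → Fin 2) where
  Adj u v := hammingDist u v = 1
  symm := ⟨fun u v h => by rw [hammingDist_comm]; exact h⟩
  loopless := ⟨fun u h => by simp at h⟩

end MP_01cec5_co
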