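import Mathlib
import Pool.Agent.Lib.MP_01cec5_co.Base
import Pool.Agent.Lib.MP_01cec5_co.BlockNum
import Pool.Agent.Lib.MP_01cec5_co.CubeMerge
import Pool.Agent.Lib.MP_01cec5_co.CubeCount

/-!
The small blocks for the cube process.
-/

namespace MP_01cec5_co.Cube

open Finset

variable {α β : Type*} [DecidableEq α] [DecidableEq β]

/-- inequality (I2) for the cube blocks -/
lemma sum_offDiag_le {F : Finset (α × β)} {A₀ : Finset α} {B₀ : Finset β}
    (hF : F ⊆ A₀ ×ˢ B₀) :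
    ∑ D ∈ maxBlk F A₀ B₀, (D.1.offDiag.card + D.2.offDiag.card) ≤
      A₀.card ^ 2 + B₀.card ^ 2 := by
  rw [sum_add_distrib]
  have h1 : ∑ D ∈ maxBlk F A₀ B₀, D.1.offDiag.card ≤ A₀.card ^ 2 := by
    rw [← card_biUnion, sq, ← card_product]
    · apply card_le_card
      intro p hp
      rw [mem_biUnion] at hp
      obtain ⟨D, hD, hp⟩ := hp
      rw [mem_maxBlk hF] at hD
      rw [mem_offDiag] at hp
      rw [mem_product]
      exact ⟨(hD.1.subset hF).1 hp.1, (hD.1.subset hF).1 hp.2.1⟩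
    · intro D hD D' hD' hne
      exact offDiag_disj (maxBlk_disj hF hD hD' hne).1
  have h2 : ∑ D ∈ maxBlk F A₀ B₀, D.2.offDiag.card ≤ B₀.card ^ 2 := by
    rw [← card_biUnion, sq, ← card_product]
    · apply card_le_card
      intro p hp
      rw [mem_biUnion] at hp
      obtain ⟨D, hD, hp⟩ := hp
      rw [mem_maxBlk hF] at hD
      rw [mem_offDiag] at hp
      rw [mem_product]
      exact ⟨(hD.1.subset hF).2 hp.1, (hD.1.subset hF).2 hp.2.1⟩
    · intro D hD D' hD' hne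
      exact offDiag_disj (maxBlk_disj hF hD hD' hne).2
  exact add_le_add h1 h2

/-- solving the quadratic inequality -/
lemma solve_num {P T S W X C n2 : ℝ} (hX : 2 ≤ X) (hC : 1 ≤ C) (hW : 0 ≤ W) (hP : 0 ≤ P)
    (hn2 : n2 ≤ 2 * W) (hT : T ^ 2 ≤ 6 * W * P)
    (hPle : P ≤ n2 + T + S) (hS : S ≤ C * W * X ^ 2) : P ≤ S + 9 * (C * W) * X := by
  have hX0 : 0 < X := by linarith
  have hT' : T ≤ P / X + 3 / 2 * W * X := by
    have h0 : 0 ≤ P / X + 3 / 2 * W * X := by positivity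
    apply le_of_sq_le_sq _ h0
    have e : (P / X + 3 / 2 * W * X) ^ 2 = (P / X - 3 / 2 * W * X) ^ 2 + 6 * W * P := by
      field_simp
      ring
    rw [e]
    linarith [sq_nonneg (P / X - 3 / 2 * W * X)]
  have h1 : P * (X - 1) ≤ (n2 + 3 / 2 * W * X + S) * X := by
    have h2 : P ≤ n2 + (P / X + 3 / 2 * W * X) + S := by linarith
    have h3 : P * X ≤ (n2 + (P / X + 3 / 2 * W * X) + S) * X :=
      mul_le_mul_of_nonneg_right h2 hX0.le
    have h4 : P / X * X = P := by field_simp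
    linarith
  have hCW : W ≤ C * W := by nlinarith
  have hCW0 : 0 ≤ C * W := by linarith
  -- suppose the contrary
  by_contra hcon
  push Not at hcon
  have h5 : (S + 9 * (C * W) * X) * (X - 1) < P * (X - 1) :=
    mul_lt_mul_of_pos_right hcon (by linarith)
  have h6 : (S + 9 * (C * W) * X) * (X - 1) < (n2 + 3 / 2 * W * X + S) * X :=
    lt_of_lt_of_le h5 h1
  have h7 : n2 * X ≤ 2 * W * X := mul_le_mul_of_nonneg_right hn2 hX0.le
  have h8 : 9 * (C * W) * X * (X - 1) < 2 * W * X + 3 / 2 * W * X ^ 2 + C * W * X ^ 2 := by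
    linarith
  have h9 : 9 * (C * W) * (X * (X - 1)) ≥ 9 * (C * W) * (X ^ 2 / 2) := by
    apply mul_le_mul_of_nonneg_left _ (by positivity)
    nlinarith
  have h10 : 2 * W * X ≤ W * X ^ 2 := by
    have : W * (2 * X) ≤ W * (X ^ 2) := mul_le_mul_of_nonneg_left (by nlinarith) hW
    linarith
  have h11 : W * X ^ 2 ≤ C * W * X ^ 2 := mul_le_mul_of_nonneg_right hCW (by positivity)
  nlinarith

/-- if all blocks are small -/
lemma small_blocks {E : ℕ → α → β → Prop} {bt : α × β → ℕ} {ε C δ : ℝ} (hε0 : 0 < ε)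
    (hε1 : ε ≤ 1) (hδ0 : 0 ≤ δ) (hδ1 : δ ≤ 1) (hC : 1 ≤ C) {n : ℕ} (hn : 1 ≤ n)
    (ih : ∀ m < n, IH E bt ε C m) (hX2 : 2 ≤ (n : ℝ) ^ (ε / 2))
    (hXδ : 4 ≤ ε * δ * (n : ℝ) ^ (ε / 2))
    {A₀ : Finset α} {B₀ : Finset β} {F : Finset (α × β)} (hsize : A₀.card + B₀.card = n)
    (hF : F ⊆ A₀ ×ˢ B₀) (hg : Good E bt F)
    (hsmall : ∀ D, Blk F D → ((D.1.card + D.2.card : ℕ) : ℝ) < (1 - δ) * n) :
    (P F : ℝ) ≤ C * ((A₀.card : ℝ) ^ 2 + (B₀.card : ℝ) ^ 2) *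
      ((1 - ε * δ) * (n : ℝ) ^ ε + 13 * (n : ℝ) ^ (ε / 2)) := by
  obtain ⟨T, hT, h1⟩ := P_le' hF (fam_maxBlk hF)
  rw [hsize] at h1
  have h1' : (P F : ℝ) ≤ (n : ℝ) ^ 2 + T + ∑ D ∈ maxBlk F A₀ B₀, (P (res F D) : ℝ) := by
    exact_mod_cast h1
  have hT' : (T : ℝ) ^ 2 ≤ 6 * ((A₀.card : ℝ) ^ 2 + (B₀.card : ℝ) ^ 2) * P F := by
    exact_mod_cast hT
  have hnr : (1 : ℝ) ≤ n := by exact_mod_cast hn
  have hY : 0 ≤ (1 - ε * δ) * (n : ℝ) ^ ε + 4 * (n : ℝ) ^ (ε / 2) := by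
    have : 0 ≤ 1 - ε * δ := by nlinarith
    have q1 : 0 ≤ (n : ℝ) ^ ε := Real.rpow_nonneg (Nat.cast_nonneg _) _
    have q2 : 0 ≤ (n : ℝ) ^ (ε / 2) := Real.rpow_nonneg (Nat.cast_nonneg _) _
    positivity
  have h2 : ∀ D ∈ maxBlk F A₀ B₀, (P (res F D) : ℝ) ≤
      C * ((1 - ε * δ) * (n : ℝ) ^ ε + 4 * (n : ℝ) ^ (ε / 2)) *
        ((D.1.offDiag.card + D.2.offDiag.card : ℕ) : ℝ) := by
    intro D hD
    rw [mem_maxBlk hF] at hD
    have hlt := hsmall D hD.1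
    have hltn : D.1.card + D.2.card < n := by
      have : ((D.1.card + D.2.card : ℕ) : ℝ) < n := by nlinarith
      exact_mod_cast this
    have := ih _ hltn D.1 D.2 (res F D) rfl (res_subset' F D) (hg.subset (res_subset F D))
    refine this.trans ?_
    have t2 := hD.1.four_le
    have ta : (2 : ℝ) ≤ D.1.card := by exact_mod_cast (by omega : 2 ≤ D.1.card)
    have tb : (2 : ℝ) ≤ D.2.card := by exact_mod_cast (by omega : 2 ≤ D.2.card)
    have key := block_num (n := (n : ℝ)) hε0 hε1 hδ0 hδ1 ta tb (by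
      have := hlt.le
      push_cast at this
      exact this)
    have oa : (D.1.offDiag.card : ℝ) = (D.1.card : ℝ) * D.1.card - D.1.card := by
      rw [offDiag_card, Nat.cast_sub (Nat.le_mul_self _)]
      push_cast
      ring
    have ob : (D.2.offDiag.card : ℝ) = (D.2.card : ℝ) * D.2.card - D.2.card := by
      rw [offDiag_card, Nat.cast_sub (Nat.le_mul_self _)]
      push_cast
      ring
    have hC0 : 0 ≤ C := by linarith
    calc C * ((D.1.card : ℝ) ^ 2 + (D.2.card : ℝ) ^ 2) * ((D.1.card + D.2.card : ℕ) : ℝ) ^ ε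
        = C * (((D.1.card : ℝ) ^ 2 + (D.2.card : ℝ) ^ 2) *
          ((D.1.card : ℝ) + D.2.card) ^ ε) := by push_cast; ring
      _ ≤ C * (((D.1.card : ℝ) * D.1.card - D.1.card + ((D.2.card : ℝ) * D.2.card - D.2.card)) *
          ((1 - ε * δ) * (n : ℝ) ^ ε + 4 * (n : ℝ) ^ (ε / 2))) :=
          mul_le_mul_of_nonneg_left key hC0
      _ = _ := by
          push_cast
          rw [oa, ob]
          ring
  have h3 : ∑ D ∈ maxBlk F A₀ B₀, (P (res F D) : ℝ) ≤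
      C * ((1 - ε * δ) * (n : ℝ) ^ ε + 4 * (n : ℝ) ^ (ε / 2)) *
        ((A₀.card : ℝ) ^ 2 + (B₀.card : ℝ) ^ 2) := by
    refine (sum_le_sum h2).trans ?_
    rw [← mul_sum]
    apply mul_le_mul_of_nonneg_left _ (mul_nonneg (by linarith) hY)
    have := sum_offDiag_le hF
    have h' : ((∑ D ∈ maxBlk F A₀ B₀, (D.1.offDiag.card + D.2.offDiag.card) : ℕ) : ℝ) ≤
      ((A₀.card ^ 2 + B₀.card ^ 2 : ℕ) : ℝ) := by exact_mod_cast this
    push_cast at h' ⊢
    exact h'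
  set W : ℝ := (A₀.card : ℝ) ^ 2 + (B₀.card : ℝ) ^ 2 with hW
  set X : ℝ := (n : ℝ) ^ (ε / 2) with hX
  set S : ℝ := ∑ D ∈ maxBlk F A₀ B₀, (P (res F D) : ℝ) with hS
  have hW0 : 0 ≤ W := by positivity
  have hXX : (n : ℝ) ^ ε = X ^ 2 := by
    rw [hX, sq, ← Real.rpow_add (by linarith)]
    congr 1
    ring
  rw [hXX] at h3 ⊢
  have hnW : (n : ℝ) ^ 2 ≤ 2 * W := by
    have : (n : ℝ) = A₀.card + B₀.card := by rw [← hsize]; push_cast; ring
    rw [this, hW]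
    linarith [sq_nonneg ((A₀.card : ℝ) - B₀.card)]
  have hS2 : S ≤ C * W * X ^ 2 := by
    refine h3.trans ?_
    have h4 : (1 - ε * δ) * X ^ 2 + 4 * X ≤ X ^ 2 := by nlinarith
    have hCW : 0 ≤ C * W := by nlinarith
    linarith [mul_le_mul_of_nonneg_left h4 hCW]
  have := solve_num hX2 hC hW0 (Nat.cast_nonneg (P F)) hnW hT' h1' hS2
  linarith

end MP_01cec5_co.Cube
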