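import Mathlib
import Pool.Agent.Lib.MP_01cec5_co.Base
import Pool.Agent.Lib.MP_01cec5_co.BlockNum
import Pool.Agent.Lib.MP_01cec5_co.CubeMerge
import Pool.Agent.Lib.MP_01cec5_co.CubeCount
import Pool.Agent.Lib.MP_01cec5_co.CubeInductA
import Pool.Agent.Lib.MP_01cec5_co.CubeInductB

/-!
The inductive step for a giant block.
-/

namespace MP_01cec5_co.Cube

open Finset

variable {α β : Type*} [DecidableEq α] [DecidableEq β]

/-- the inductive step when there is a giant block -/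
lemma giant_step {E : ℕ → α → β → Prop} (hE : QProc E) {bt : α × β → ℕ} {ε C δ : ℝ}
    (hε0 : 0 < ε) (hε1 : ε ≤ 1) (hδ0 : 0 < δ) (hδ1 : δ ≤ 1) (hC : 1 ≤ C) {n : ℕ} (hn : 1 ≤ n)
    (ih : ∀ m < n, IH E bt ε C m) (hX2 : 2 ≤ (n : ℝ) ^ (ε / 2))
    (hXδ : 4 ≤ ε * δ * (n : ℝ) ^ (ε / 2))
    {A₀ : Finset α} {B₀ : Finset β} {F : Finset (α × β)} (hsize : A₀.card + B₀.card = n)
    (hF : F ⊆ A₀ ×ˢ B₀) (hg : Good E bt F) {t : ℕ}
    (hsmall : ∀ D, Blk (F.filter (fun f => bt f < t)) D →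
      ((D.1.card + D.2.card : ℕ) : ℝ) < (1 - δ) * n)
    {D₀ : Finset α × Finset β} (hbig : Blk (F.filter (fun f => bt f ≤ t)) D₀)
    (hbig' : (1 - δ) * n ≤ ((D₀.1.card + D₀.2.card : ℕ) : ℝ)) :
    (P F : ℝ) ≤ 12 * (n : ℝ) ^ 2 + C * ((A₀.card : ℝ) ^ 2 + (B₀.card : ℝ) ^ 2) *
      ((1 - ε * δ) * (n : ℝ) ^ ε + 13 * (n : ℝ) ^ (ε / 2)) +
      8 * δ ^ 2 * C * ((A₀.card : ℝ) ^ 2 + (B₀.card : ℝ) ^ 2) * (n : ℝ) ^ ε := by
  classical
  have hFt : F.filter (fun f => bt f ≤ t) ⊆ A₀ ×ˢ B₀ := (filter_subset _ _).trans hF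
  obtain ⟨Ds, hDs, hsub1, hsub2⟩ := exists_maxBlk hFt hbig
  rw [mem_maxBlk hFt] at hDs
  obtain ⟨As, Bs⟩ := Ds
  simp only at hDs hsub1 hsub2
  have h2 := hDs.1.four_le
  have hs0 := hDs.1.subset hFt
  simp only at h2 hs0
  have hcA := card_le_card hsub1
  have hcB := card_le_card hsub2
  have hcA0 := card_le_card hs0.1
  have hcB0 := card_le_card hs0.2
  have hcomp : Comp E (t + n) As Bs := by
    have h0 : ∀ f ∈ F.filter (fun f => bt f ≤ t), E t f.1 f.2 := by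
      intro f hf
      rw [mem_filter] at hf
      exact hE.mono hf.2 (hg.2.1 f hf.1)
    have := hDs.1.comp hE h0
    simp only at this
    exact fun x hx y hy => hE.mono (by omega) (this x hx y hy)
  -- the parts
  set F₁ := F.filter (fun f => bt f < t) with hF₁
  set F₂ := F.filter (fun f => t ≤ bt f ∧ bt f ≤ t + n) with hF₂
  set G := F.filter (fun f => t + n < bt f ∧ f.1 ∉ As ∧ f.2 ∉ Bs) with hG
  set L := F.filter (fun f => t + n < bt f ∧ (f.1 ∈ As ∨ f.2 ∈ Bs)) with hL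
  have hdec : F ⊆ (F₁ ∪ G) ∪ (F₂ ∪ L) := by
    intro f hf
    simp only [hF₁, hF₂, hG, hL, mem_union, mem_filter]
    by_cases c1 : bt f < t
    · exact Or.inl (Or.inl ⟨hf, c1⟩)
    by_cases c2 : bt f ≤ t + n
    · exact Or.inr (Or.inl ⟨hf, by omega, c2⟩)
    by_cases c3 : f.1 ∈ As ∨ f.2 ∈ Bs
    · exact Or.inr (Or.inr ⟨hf, by omega, c3⟩)
    · push Not at c3
      exact Or.inl (Or.inr ⟨hf, by omega, c3⟩)
  have hF₁s : F₁ ⊆ F := filter_subset _ _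
  have hF₂s : F₂ ⊆ F := filter_subset _ _
  have hGs : G ⊆ F := filter_subset _ _
  have hLs : L ⊆ F := filter_subset _ _
  have heq : F = (F₁ ∪ G) ∪ (F₂ ∪ L) :=
    Subset.antisymm hdec (union_subset (union_subset hF₁s hGs) (union_subset hF₂s hLs))
  have cF₂ : F₂.card ≤ n + 1 := by
    apply card_window (hg.subset hF₂s).1 (a := t) (n := n)
    intro f hf
    rw [hF₂, mem_filter] at hf
    exact hf.2
  have cL : L.card ≤ 3 * n := by
    have := late_card hE h2.1 h2.2 hcomp (hLs.trans hF) (hg.subset hLs)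
      (fun f hf => (mem_filter.mp hf).2.1) (fun f hf => (mem_filter.mp hf).2.2)
    rwa [hsize] at this
  have step1 : P F ≤ P (F₁ ∪ G) + 10 * n ^ 2 := by
    have := P_union_le (F := F₁ ∪ G) (G := F₂ ∪ L) (A₀ := A₀) (B₀ := B₀)
      ((union_subset hF₁s hGs).trans hF) ((union_subset hF₂s hLs).trans hF)
    rw [← heq, hsize] at this
    have hc : (F₂ ∪ L).card ≤ 5 * n := by
      have := card_union_le F₂ L
      omega
    have : 2 * ((F₂ ∪ L).card * n) ≤ 10 * n ^ 2 := by nlinarith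
    omega
  have hGsub : G ⊆ (A₀ \ As) ×ˢ (B₀ \ Bs) := by
    intro f hf
    rw [hG, mem_filter] at hf
    have hm := mem_product.mp (hF hf.1)
    exact mem_product.mpr ⟨mem_sdiff.mpr ⟨hm.1, hf.2.2.1⟩, mem_sdiff.mpr ⟨hm.2, hf.2.2.2⟩⟩
  have step2 : P (F₁ ∪ G) ≤ P F₁ + 2 * P G + 2 * n ^ 2 +
      2 * P (res F₁ (A₀ \ As, B₀ \ Bs)) := by
    have := P_giant (F := F₁) (G := G) (hF₁s.trans hF) hs0.1 hs0.2 hGsub ?_
    · rwa [hsize] at this
    · intro x x' y y' hx hy e1 e2 e3 e4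
      have hsubt : F₁ ⊆ F.filter (fun f => bt f ≤ t) := by
        intro f hf
        rw [hF₁, mem_filter] at hf
        exact mem_filter.mpr ⟨hf.1, hf.2.le⟩
      constructor
      · rintro ⟨k1, k2, k3⟩
        exact k3 (maxBlk_absorbR hDs.1 hDs.2 k1 k2 hx (hsubt e1) (hsubt e3))
      · rintro ⟨k1, k2, k3⟩
        exact k3 (maxBlk_absorbL hDs.1 hDs.2 k1 k2 hy (hsubt e1) (hsubt e2))
  have step3 := small_blocks (F := F₁) hε0 hε1 hδ0.le hδ1 hC hn ih hX2 hXδ hsize (hF₁s.trans hF)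
    (hg.subset hF₁s) hsmall
  -- outside bound
  have houtc1 : (A₀ \ As).card = A₀.card - As.card := card_sdiff_of_subset hs0.1
  have houtc2 : (B₀ \ Bs).card = B₀.card - Bs.card := card_sdiff_of_subset hs0.2
  have hmlt : (A₀ \ As).card + (B₀ \ Bs).card < n := by omega
  have hmδ : (((A₀ \ As).card + (B₀ \ Bs).card : ℕ) : ℝ) ≤ δ * n := by
    have e : (((A₀ \ As).card + (B₀ \ Bs).card : ℕ) : ℝ) + ((As.card + Bs.card : ℕ) : ℝ) = n := by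
      rw [← Nat.cast_add]
      congr 1
      omega
    have e2 : ((D₀.1.card + D₀.2.card : ℕ) : ℝ) ≤ ((As.card + Bs.card : ℕ) : ℝ) := by
      exact_mod_cast (by omega : D₀.1.card + D₀.2.card ≤ As.card + Bs.card)
    linarith
  have hnW : (n : ℝ) ^ 2 ≤ 2 * ((A₀.card : ℝ) ^ 2 + (B₀.card : ℝ) ^ 2) := by
    have : (n : ℝ) = A₀.card + B₀.card := by rw [← hsize]; push_cast; ring
    rw [this]
    linarith [sq_nonneg ((A₀.card : ℝ) - B₀.card)]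
  have hout : ∀ G' : Finset (α × β), G' ⊆ (A₀ \ As) ×ˢ (B₀ \ Bs) → Good E bt G' →
      (P G' : ℝ) ≤ 2 * δ ^ 2 * C * ((A₀.card : ℝ) ^ 2 + (B₀.card : ℝ) ^ 2) * (n : ℝ) ^ ε := by
    intro G' hG' hgG'
    have := ih _ hmlt (A₀ \ As) (B₀ \ Bs) G' rfl hG' hgG'
    refine this.trans ?_
    have m0 : (0 : ℝ) ≤ (((A₀ \ As).card + (B₀ \ Bs).card : ℕ) : ℝ) := Nat.cast_nonneg _
    have q1 : ((A₀ \ As).card : ℝ) ^ 2 + ((B₀ \ Bs).card : ℝ) ^ 2 ≤
        (((A₀ \ As).card + (B₀ \ Bs).card : ℕ) : ℝ) ^ 2 := by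
      push_cast
      have : (0 : ℝ) ≤ ((A₀ \ As).card : ℝ) * ((B₀ \ Bs).card : ℝ) :=
        mul_nonneg (Nat.cast_nonneg _) (Nat.cast_nonneg _)
      linarith
    have q2 : (((A₀ \ As).card + (B₀ \ Bs).card : ℕ) : ℝ) ^ 2 ≤ (δ * n) ^ 2 :=
      pow_le_pow_left₀ m0 hmδ 2
    have q3 : ((A₀ \ As).card : ℝ) ^ 2 + ((B₀ \ Bs).card : ℝ) ^ 2 ≤
        2 * δ ^ 2 * ((A₀.card : ℝ) ^ 2 + (B₀.card : ℝ) ^ 2) := by
      have : (δ * n) ^ 2 ≤ δ ^ 2 * (2 * ((A₀.card : ℝ) ^ 2 + (B₀.card : ℝ) ^ 2)) := by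
        rw [mul_pow]
        exact mul_le_mul_of_nonneg_left hnW (sq_nonneg _)
      linarith
    have q4 : (((A₀ \ As).card + (B₀ \ Bs).card : ℕ) : ℝ) ^ ε ≤ (n : ℝ) ^ ε := by
      apply Real.rpow_le_rpow m0 _ hε0.le
      exact_mod_cast hmlt.le
    have q5 : (0 : ℝ) ≤ (((A₀ \ As).card + (B₀ \ Bs).card : ℕ) : ℝ) ^ ε :=
      Real.rpow_nonneg m0 _
    have hC0 : 0 ≤ C := by linarith
    calc C * (((A₀ \ As).card : ℝ) ^ 2 + ((B₀ \ Bs).card : ℝ) ^ 2) *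
          (((A₀ \ As).card + (B₀ \ Bs).card : ℕ) : ℝ) ^ ε
        ≤ C * (2 * δ ^ 2 * ((A₀.card : ℝ) ^ 2 + (B₀.card : ℝ) ^ 2)) * (n : ℝ) ^ ε := by
          apply mul_le_mul (mul_le_mul_of_nonneg_left q3 hC0) q4 q5
          exact mul_nonneg hC0 (mul_nonneg (mul_nonneg (by norm_num) (sq_nonneg _))
            (add_nonneg (sq_nonneg _) (sq_nonneg _)))
      _ = _ := by ring
  have o1 := hout G hGsub (hg.subset hGs)
  have o2 := hout (res F₁ (A₀ \ As, B₀ \ Bs)) (res_subset' _ _)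
    (hg.subset ((res_subset _ _).trans hF₁s))
  have s1 : (P F : ℝ) ≤ P (F₁ ∪ G) + 10 * (n : ℝ) ^ 2 := by exact_mod_cast step1
  have s2 : (P (F₁ ∪ G) : ℝ) ≤ P F₁ + 2 * P G + 2 * (n : ℝ) ^ 2 +
      2 * P (res F₁ (A₀ \ As, B₀ \ Bs)) := by exact_mod_cast step2
  linarith

end MP_01cec5_co.Cube
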