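import Mathlib
import Pool.Agent.Lib.MP_01cec5_co.CubeInductA
import Pool.Agent.Lib.MP_01cec5_co.CubeInductC

/-!
The main induction for the cube process.
-/

namespace MP_01cec5_co.Cube

open Finset

variable {α β : Type*} [DecidableEq α] [DecidableEq β]

/-- the main bound -/
theorem main_bound {E : ℕ → α → β → Prop} (hE : QProc E) (bt : α × β → ℕ) {ε : ℝ}
    (hε0 : 0 < ε) (hε1 : ε ≤ 1) (n : ℕ) : IH E bt ε ((1200 / ε ^ 2) ^ (2 / ε)) n := by
  induction n using Nat.strong_induction_on with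
  | _ n ih =>
  set K : ℝ := 1200 / ε ^ 2 with hK
  set C : ℝ := K ^ (2 / ε) with hCdef
  have hK1 : 1200 ≤ K := by
    rw [hK, le_div_iff₀ (by positivity)]
    have hε2 : ε ^ 2 ≤ 1 := pow_le_one₀ hε0.le hε1
    linarith
  have hC : 1 ≤ C := Real.one_le_rpow (by linarith) (by positivity)
  intro A₀ B₀ F hsize hF hg
  have hW0 : (0 : ℝ) ≤ (A₀.card : ℝ) ^ 2 + (B₀.card : ℝ) ^ 2 := by positivity
  by_cases hn0 : n = 0
  · subst hn0
    have hA : A₀ = ∅ := card_eq_zero.mp (by omega)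
    have : F = ∅ := by
      rw [hA, empty_product] at hF
      exact subset_empty.mp hF
    rw [this]
    have hP : P (∅ : Finset (α × β)) = 0 := by simp [P, pR, pL]
    rw [hP]
    have hC0 : 0 ≤ C := by linarith
    have := Real.rpow_nonneg (Nat.cast_nonneg (α := ℝ) 0) ε
    push_cast
    push_cast at this
    positivity
  have hn1 : 1 ≤ n := Nat.one_le_iff_ne_zero.mpr hn0
  have hnr : (1 : ℝ) ≤ n := by exact_mod_cast hn1
  have hnpos : (0 : ℝ) < n := by linarith
  set X : ℝ := (n : ℝ) ^ (ε / 2) with hX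
  have hXX : (n : ℝ) ^ ε = X ^ 2 := by
    rw [hX, sq, ← Real.rpow_add hnpos]
    congr 1
    ring
  have hX1 : 1 ≤ X := Real.one_le_rpow hnr (by positivity)
  by_cases hXK : X < K
  · -- crude
    have h1 := P_crude hF
    rw [hsize] at h1
    have h2 := card_F_le hF
    have h3 : (P F : ℝ) ≤ (A₀.card : ℝ) * B₀.card * n := by
      have : P F ≤ (A₀.card * B₀.card) * n := h1.trans (Nat.mul_le_mul_right _ h2)
      exact_mod_cast this
    have hnC : (n : ℝ) ≤ C := by
      have e : (n : ℝ) = X ^ (2 / ε) := by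
        rw [hX, ← Real.rpow_mul hnpos.le]
        rw [show ε / 2 * (2 / ε) = 1 by field_simp]
        rw [Real.rpow_one]
      rw [e, hCdef]
      exact Real.rpow_le_rpow (by linarith) hXK.le (by positivity)
    have h4 : (A₀.card : ℝ) * B₀.card ≤ (A₀.card : ℝ) ^ 2 + (B₀.card : ℝ) ^ 2 := by
      have q1 := two_mul_le_add_sq (A₀.card : ℝ) (B₀.card : ℝ)
      have q2 : (0 : ℝ) ≤ (A₀.card : ℝ) * B₀.card := by positivity
      linarith
    calc (P F : ℝ) ≤ (A₀.card : ℝ) * B₀.card * n := h3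
      _ ≤ ((A₀.card : ℝ) ^ 2 + (B₀.card : ℝ) ^ 2) * C := by
          apply mul_le_mul h4 hnC hnpos.le hW0
      _ = C * ((A₀.card : ℝ) ^ 2 + (B₀.card : ℝ) ^ 2) * 1 := by ring
      _ ≤ C * ((A₀.card : ℝ) ^ 2 + (B₀.card : ℝ) ^ 2) * (n : ℝ) ^ ε := by
          apply mul_le_mul_of_nonneg_left _ (by positivity)
          exact Real.one_le_rpow hnr hε0.le
  push Not at hXK
  set W : ℝ := (A₀.card : ℝ) ^ 2 + (B₀.card : ℝ) ^ 2 with hW
  set δ : ℝ := ε / 16 with hδ
  have hδ0 : 0 < δ := by positivity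
  have hδ1 : δ ≤ 1 := by rw [hδ]; linarith
  have hnW : (n : ℝ) ^ 2 ≤ 2 * W := by
    have : (n : ℝ) = A₀.card + B₀.card := by rw [← hsize]; push_cast; ring
    rw [this, hW]
    exact add_sq_le
  have hCW : 0 ≤ C * W := mul_nonneg (by linarith) hW0
  have hWCW : W ≤ C * W := le_mul_of_one_le_left hW0 hC
  have hX2 : 2 ≤ X := by linarith
  have hKX : 1200 ≤ X * ε ^ 2 := by
    have := hXK
    rw [hK, div_le_iff₀ (by positivity)] at this
    exact this
  have hXδ : 4 ≤ ε * δ * X := by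
    have : ε * δ * X = X * ε ^ 2 / 16 := by rw [hδ]; ring
    rw [this]
    linarith
  -- it suffices to prove the common bound
  suffices hsuf : (P F : ℝ) ≤ 12 * (n : ℝ) ^ 2 + C * W *
      ((1 - ε * δ) * X ^ 2 + 13 * X) + 8 * δ ^ 2 * C * W * X ^ 2 by
    rw [hXX]
    refine hsuf.trans ?_
    have k1 : 12 * (n : ℝ) ^ 2 ≤ 24 * (C * W) * X := by
      have : 12 * (n : ℝ) ^ 2 ≤ 24 * (C * W) := by linarith
      have : 24 * (C * W) ≤ 24 * (C * W) * X := le_mul_of_one_le_right (by positivity) hX1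
      linarith
    have k2 : 37 * X ≤ (ε * δ - 8 * δ ^ 2) * X ^ 2 := by
      have : ε * δ - 8 * δ ^ 2 = ε ^ 2 / 32 := by rw [hδ]; ring
      rw [this]
      have q1 := mul_le_mul_of_nonneg_left hKX (by linarith : (0 : ℝ) ≤ X)
      linarith
    have k3 : (C * W) * (37 * X) ≤ (C * W) * ((ε * δ - 8 * δ ^ 2) * X ^ 2) :=
      mul_le_mul_of_nonneg_left k2 hCW
    linarith
  by_cases hall : ∀ D, Blk F D → ((D.1.card + D.2.card : ℕ) : ℝ) < (1 - δ) * n
  · have := small_blocks hε0 hε1 hδ0.le hδ1 hC hn1 ih hX2 hXδ hsize hF hg hall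
    rw [hXX] at this
    have h8 : 0 ≤ 8 * δ ^ 2 * C * W * X ^ 2 := by
      have hC0 : 0 ≤ C := by linarith
      positivity
    linarith [sq_nonneg (n : ℝ)]
  · push Not at hall
    obtain ⟨D₁, hD₁, hD₁'⟩ := hall
    have hex : ∃ t, ∃ D, Blk (F.filter (fun f => bt f ≤ t)) D ∧
        (1 - δ) * n ≤ ((D.1.card + D.2.card : ℕ) : ℝ) := by
      refine ⟨F.sup bt, D₁, ?_, hD₁'⟩
      have : F.filter (fun f => bt f ≤ F.sup bt) = F := by
        rw [filter_eq_self]
        intro f hf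
        exact le_sup (f := bt) hf
      rw [this]
      exact hD₁
    classical
    obtain ⟨t, ht, hmin⟩ : ∃ t, (∃ D, Blk (F.filter (fun f => bt f ≤ t)) D ∧
        (1 - δ) * n ≤ ((D.1.card + D.2.card : ℕ) : ℝ)) ∧ ∀ s < t,
        ¬ ∃ D, Blk (F.filter (fun f => bt f ≤ s)) D ∧
        (1 - δ) * n ≤ ((D.1.card + D.2.card : ℕ) : ℝ) :=
      ⟨Nat.find hex, Nat.find_spec hex, fun s hs => Nat.find_min hex hs⟩
    obtain ⟨D₀, hD₀, hD₀'⟩ := ht
    have hsm : ∀ D, Blk (F.filter (fun f => bt f < t)) D →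
        ((D.1.card + D.2.card : ℕ) : ℝ) < (1 - δ) * n := by
      intro D hD
      rcases Nat.eq_zero_or_pos t with h0 | h0
      · subst h0
        have : F.filter (fun f => bt f < 0) = ∅ := by
          rw [filter_eq_empty_iff]
          intro f _
          omega
        rw [this] at hD
        obtain ⟨r, hr⟩ := hD
        exact (not_mem_empty hr).elim
      · by_contra hcon
        push Not at hcon
        apply hmin (t - 1) (by omega)
        refine ⟨D, ?_, hcon⟩
        have : F.filter (fun f => bt f ≤ t - 1) = F.filter (fun f => bt f < t) := by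
          apply filter_congr
          intro f _
          omega
        rw [this]
        exact hD
    have := giant_step hE hε0 hε1 hδ0 hδ1 hC hn1 ih hX2 hXδ hsize hF hg hsm hD₀ hD₀'
    rw [hXX] at this
    exact this

end MP_01cec5_co.Cube
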