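import Mathlib
import Pool.Agent.Lib.MP_01cec5_co.Defs
import Pool.Agent.Lib.MP_01cec5_co.Count

/-!
Process lemmas shared by the two theorems.
-/

namespace MP_01cec5_co

open SimpleGraph

variable {V W : Type} [Fintype V]

/-- transport a subgraph to a larger graph -/
def lift {G G' : SimpleGraph V} (hle : G ≤ G') (S : G.Subgraph) : G'.Subgraph where
  verts := S.verts
  Adj := S.Adj
  adj_sub h := hle (S.adj_sub h)
  edge_vert := S.edge_vert
  symm := S.symm

lemma copyCount_lt {G G' : SimpleGraph V} (hle : G ≤ G') {H : SimpleGraph W} (f : Copy H G')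
    {a b : W} (hab : H.Adj a b) (hn : ¬ G.Adj (f a) (f b)) :
    G.copyCount H < G'.copyCount H := by
  classical
  unfold copyCount
  have hinj : Function.Injective (lift hle) := by
    intro S T h
    have h1 : (lift hle S).verts = (lift hle T).verts := by rw [h]
    have h2 : (lift hle S).Adj = (lift hle T).Adj := by rw [h]
    exact Subgraph.ext h1 h2
  rw [← Finset.card_image_of_injective _ hinj]
  apply Finset.card_lt_card
  rw [Finset.ssubset_iff_of_subset]
  · refine ⟨f.toSubgraph, ?_, ?_⟩
    · simp only [Finset.mem_filter, Finset.mem_univ, true_and]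
      exact ⟨f.isoToSubgraph⟩
    · intro h
      rw [Finset.mem_image] at h
      obtain ⟨S, _, hS⟩ := h
      apply hn
      have h1 : f.toSubgraph.Adj (f a) (f b) := by
        simp only [Copy.toSubgraph, Subgraph.map_adj]
        exact ⟨a, b, hab, rfl, rfl⟩
      rw [← hS] at h1
      exact S.adj_sub h1
  · intro S hS
    rw [Finset.mem_image] at hS
    obtain ⟨T, hT, rfl⟩ := hS
    simp only [Finset.mem_filter, Finset.mem_univ, true_and] at hT ⊢
    exact hT

lemma le_round (H : SimpleGraph W) (G : SimpleGraph V) : G ≤ round H G :=
  fun _ _ h => Or.inl h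

lemma process_mono (H : SimpleGraph W) (G : SimpleGraph V) {s t : ℕ} (h : s ≤ t) :
    process H G s ≤ process H G t := by
  induction h with
  | refl => exact le_refl _
  | step _ ih => exact ih.trans (le_round H _)

/-- a colouring for which at least half of the given pairs are bichromatic -/
lemma exists_coloring {u v : ℕ → V} (T : ℕ) (huv : ∀ t < T, u t ≠ v t) :
    ∃ c : V → Bool, T ≤ 2 * ((Finset.range T).filter (fun t => c (u t) ≠ c (v t))).card := by
  classical
  by_contra hcon
  push Not at hcon
  have h1 : ∀ t ∈ Finset.range T,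
      2 * (Finset.univ.filter (fun c : V → Bool => c (u t) ≠ c (v t))).card =
      (Finset.univ : Finset (V → Bool)).card := by
    intro t ht
    have hne := huv t (Finset.mem_range.mp ht)
    have hcard : (Finset.univ.filter (fun c : V → Bool => c (u t) ≠ c (v t))).card =
        (Finset.univ.filter (fun c : V → Bool => ¬ (c (u t) ≠ c (v t)))).card := by
      apply Finset.card_bij' (fun c _ => Function.update c (u t) (!c (u t)))
        (fun c _ => Function.update c (u t) (!c (u t)))
      case hi =>
        intro c hc
        simp only [Finset.mem_filter, Finset.mem_univ, true_and] at hc ⊢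
        rw [Function.update_self, Function.update_of_ne hne.symm]
        cases h1 : c (u t) <;> cases h2 : c (v t) <;> simp_all
      case hj =>
        intro c hc
        simp only [Finset.mem_filter, Finset.mem_univ, true_and] at hc ⊢
        rw [Function.update_self, Function.update_of_ne hne.symm]
        cases h1 : c (u t) <;> cases h2 : c (v t) <;> simp_all
      case left_inv =>
        intro c hc
        simp
      case right_inv =>
        intro c hc
        simp
    have := Finset.card_filter_add_card_filter_not (s := (Finset.univ : Finset (V → Bool)))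
      (fun c : V → Bool => c (u t) ≠ c (v t))
    omega
  have h2 : ∑ c : V → Bool, 2 * ((Finset.range T).filter (fun t => c (u t) ≠ c (v t))).card =
      T * (Finset.univ : Finset (V → Bool)).card := by
    rw [← Finset.mul_sum]
    have e : ∑ c : V → Bool, ((Finset.range T).filter (fun t => c (u t) ≠ c (v t))).card =
        ∑ t ∈ Finset.range T,
          (Finset.univ.filter (fun c : V → Bool => c (u t) ≠ c (v t))).card := by
      simp_rw [Finset.card_filter]
      exact Finset.sum_comm
    rw [e, Finset.mul_sum, Finset.sum_congr rfl h1, Finset.sum_const, Finset.card_range,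
      smul_eq_mul]
  have h3 : ∑ c : V → Bool, 2 * ((Finset.range T).filter (fun t => c (u t) ≠ c (v t))).card <
      ∑ c : V → Bool, T := by
    apply Finset.sum_lt_sum_of_nonempty
    · exact ⟨fun _ => true, Finset.mem_univ _⟩
    · intro c _
      exact hcon c
  rw [h2, Finset.sum_const, smul_eq_mul, mul_comm] at h3
  exact lt_irrefl _ h3

lemma dL_sum {α β : Type*} [DecidableEq α] [DecidableEq β] {F : Finset (α × β)}
    {A₀ : Finset α} (hF : ∀ f ∈ F, f.1 ∈ A₀) : ∑ x ∈ A₀, dL F x = F.card := by
  unfold dL
  exact (Finset.card_eq_sum_card_fiberwise hF).symm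

lemma sq_card_le {α β : Type*} [DecidableEq α] [DecidableEq β] {F : Finset (α × β)}
    {A₀ : Finset α} {B₀ : Finset β} (hF : F ⊆ A₀ ×ˢ B₀) :
    F.card ^ 2 ≤ (A₀.card + B₀.card) * P F := by
  have h1 : F.card ^ 2 ≤ A₀.card * (pL F).card := by
    rw [pL_eq_sum (fun f hf => (Finset.mem_product.mp (hF hf)).1),
      ← dL_sum (fun f hf => (Finset.mem_product.mp (hF hf)).1)]
    exact sq_sum_le_card_mul_sum_sq
  calc F.card ^ 2 ≤ A₀.card * (pL F).card := h1
    _ ≤ (A₀.card + B₀.card) * P F := by
      unfold P
      exact Nat.mul_le_mul (Nat.le_add_right _ _) (Nat.le_add_left _ _)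

end MP_01cec5_co
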