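import Mathlib
import Pool.Agent.Lib.MP_01cec5_co.Defs
import Pool.Agent.Lib.MP_01cec5_co.CubeDefs
import Pool.Agent.Lib.MP_01cec5_co.ProcessBase
import Pool.Agent.Lib.MP_01cec5_co.CubeInduct

/-!
From the `Q_3`-process to the abstract process.
-/

namespace MP_01cec5_co.Cube

open SimpleGraph

variable {V : Type} [Fintype V]

/-- the four antipodal pairs: even vertices go to the left, odd ones to the right -/
def code (w : Fin 3 → Fin 2) : Fin 4 ⊕ Fin 4 :=
  if w = ![0, 0, 0] then Sum.inl 0 else
  if w = ![0, 1, 1] then Sum.inl 1 else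
  if w = ![1, 0, 1] then Sum.inl 2 else
  if w = ![1, 1, 0] then Sum.inl 3 else
  if w = ![1, 1, 1] then Sum.inr 0 else
  if w = ![1, 0, 0] then Sum.inr 1 else
  if w = ![0, 1, 0] then Sum.inr 2 else Sum.inr 3

lemma code_injective : Function.Injective code := by decide

/-- adjacency in the crown graph -/
def crown : Fin 4 ⊕ Fin 4 → Fin 4 ⊕ Fin 4 → Prop
  | Sum.inl i, Sum.inr j => i ≠ j
  | Sum.inr i, Sum.inl j => i ≠ j
  | _, _ => False

instance : DecidableRel crown := by
  intro a b
  rcases a with a | a <;> rcases b with b | b <;> simp only [crown] <;> infer_instance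

lemma code_adj : ∀ u v : Fin 3 → Fin 2, hammingDist u v = 1 → crown (code u) (code v) := by
  decide

lemma code_mid : ∃ a b : Fin 3 → Fin 2, hammingDist a b = 1 ∧ code a = Sum.inl 3 ∧
    code b = Sum.inr 2 := ⟨![1, 1, 0], ![0, 1, 0], by decide, by decide, by decide⟩

lemma round_Q3 (G : SimpleGraph V) {x y : Fin 4 → V} (hx : Function.Injective x)
    (hy : Function.Injective y) (hxy : ∀ i j, x i ≠ y j)
    (h : ∀ i j, i ≠ j → (i, j) ≠ (3, 2) → G.Adj (x i) (y j)) :
    (round Q3 G).Adj (x 3) (y 2) := by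
  by_cases hadj : G.Adj (x 3) (y 2)
  · exact Or.inl hadj
  right
  refine ⟨hxy 3 2, ?_⟩
  have hall : ∀ i j, i ≠ j → (G ⊔ edge (x 3) (y 2)).Adj (x i) (y j) := by
    intro i j hne
    by_cases hij : (i, j) = (3, 2)
    · simp only [Prod.mk.injEq] at hij
      obtain ⟨rfl, rfl⟩ := hij
      rw [sup_adj, edge_adj]
      exact Or.inr ⟨Or.inl ⟨rfl, rfl⟩, hxy 3 2⟩
    · exact Or.inl (h i j hne hij)
  have hcr : ∀ a b : Fin 4 ⊕ Fin 4, crown a b →
      (G ⊔ edge (x 3) (y 2)).Adj (Sum.elim x y a) (Sum.elim x y b) := by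
    intro a b hab
    rcases a with a | a <;> rcases b with b | b
    · exact hab.elim
    · exact hall a b hab
    · exact (hall b a (Ne.symm hab)).symm
    · exact hab.elim
  have hinj : Function.Injective (Sum.elim x y) := by
    intro a b hab
    rcases a with a | a <;> rcases b with b | b
    · exact congrArg Sum.inl (hx hab)
    · exact absurd hab (hxy a b)
    · exact absurd hab.symm (hxy b a)
    · exact congrArg Sum.inr (hy hab)
  let f : Copy Q3 (G ⊔ edge (x 3) (y 2)) :=
    ⟨⟨fun w => Sum.elim x y (code w), fun {u v} huv => hcr _ _ (code_adj u v huv)⟩,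
      hinj.comp code_injective⟩
  obtain ⟨a, b, hab, ha, hb⟩ := code_mid
  have hfa : f a = x 3 := by
    change Sum.elim x y (code a) = x 3
    rw [ha]
    rfl
  have hfb : f b = y 2 := by
    change Sum.elim x y (code b) = y 2
    rw [hb]
    rfl
  refine copyCount_lt (G := G) le_sup_left f (a := a) (b := b) hab ?_
  rw [hfa, hfb]
  exact hadj

/-- the bipartite process seen by a colouring `c` of the vertices -/
def EE (G : SimpleGraph V) (c : V → Bool) (t : ℕ) (x y : V) : Prop :=
  c x = true ∧ c y = false ∧ (process Q3 G t).Adj x y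

lemma EE_proc (G : SimpleGraph V) (c : V → Bool) : QProc (EE G c) := by
  constructor
  · intro s t x y hst h
    exact ⟨h.1, h.2.1, process_mono Q3 G hst h.2.2⟩
  · intro t x0 x1 x2 x3 y0 y1 y2 y3 a01 a02 a03 a12 a13 a23 b01 b02 b03 b12 b13 b23
      h01 h02 h03 h10 h12 h13 h20 h21 h23 h30 h31
    refine ⟨h30.1, h02.2.1, ?_⟩
    have key := round_Q3 (process Q3 G t) (x := ![x0, x1, x2, x3]) (y := ![y0, y1, y2, y3])
      (by
        intro i j hij
        fin_cases i <;> fin_cases j <;> simp_all)
      (by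
        intro i j hij
        fin_cases i <;> fin_cases j <;> simp_all)
      (by
        have cx : ∀ i, c (![x0, x1, x2, x3] i) = true := by
          intro i
          fin_cases i
          · exact h01.1
          · exact h10.1
          · exact h20.1
          · exact h30.1
        have cy : ∀ i, c (![y0, y1, y2, y3] i) = false := by
          intro i
          fin_cases i
          · exact h10.2.1
          · exact h01.2.1
          · exact h02.2.1
          · exact h03.2.1
        intro i j hij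
        have := cx i
        rw [hij, cy j] at this
        exact Bool.false_ne_true this)
      (by
        intro i j hne hij
        fin_cases i <;> fin_cases j
        · simp at hne
        · exact h01.2.2
        · exact h02.2.2
        · exact h03.2.2
        · exact h10.2.2
        · simp at hne
        · exact h12.2.2
        · exact h13.2.2
        · exact h20.2.2
        · exact h21.2.2
        · simp at hne
        · exact h23.2.2
        · exact h30.2.2
        · exact h31.2.2
        · simp at hij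
        · simp at hne)
    exact key

lemma exists_new_edge (G : SimpleGraph V) {t : ℕ} (ht : t < runningTime Q3 G) :
    ∃ u v, (process Q3 G (t + 1)).Adj u v ∧ ¬ (process Q3 G t).Adj u v := by
  have h := Nat.notMem_of_lt_sInf ht
  rw [Set.mem_ofPred_eq] at h
  by_contra hcon
  push Not at hcon
  apply h
  exact le_antisymm (process_mono Q3 G (Nat.le_succ t)) (fun u v huv => hcon u v huv)

/-- the running time bound for one graph, in squared form -/
lemma runningTime_sq_le (G : SimpleGraph V) {ε : ℝ} (hε0 : 0 < ε) (hε1 : ε ≤ 1) :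
    (runningTime Q3 G : ℝ) ^ 2 ≤
      4 * (1200 / ε ^ 2) ^ (2 / ε) * (Fintype.card V : ℝ) ^ 3 * (Fintype.card V : ℝ) ^ ε := by
  classical
  set T := runningTime Q3 G with hT
  set C : ℝ := (1200 / ε ^ 2) ^ (2 / ε) with hC
  set n := Fintype.card V with hn
  have hC0 : 0 ≤ C := Real.rpow_nonneg (by positivity) _
  rcases Nat.eq_zero_or_pos T with h0 | hpos
  · rw [h0]
    have := Real.rpow_nonneg (Nat.cast_nonneg (α := ℝ) n) ε
    have h00 : (((0 : ℕ) : ℝ)) ^ 2 = 0 := by norm_num
    rw [h00]
    positivity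
  obtain ⟨v0, -, -⟩ := exists_new_edge G hpos
  have hex : ∀ t : ℕ, ∃ p : V × V, t < T →
      (process Q3 G (t + 1)).Adj p.1 p.2 ∧ ¬ (process Q3 G t).Adj p.1 p.2 := by
    intro t
    by_cases ht : t < T
    · obtain ⟨u, v, h⟩ := exists_new_edge G ht
      exact ⟨(u, v), fun _ => h⟩
    · exact ⟨(v0, v0), fun h => absurd h ht⟩
  choose e he using hex
  obtain ⟨c, hc⟩ := exists_coloring (u := fun t => (e t).1) (v := fun t => (e t).2) T
    (fun t ht => (he t ht).1.ne)
  set S := (Finset.range T).filter (fun t => c (e t).1 ≠ c (e t).2) with hS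
  let o : ℕ → V × V := fun t => if c (e t).1 = true then e t else ((e t).2, (e t).1)
  -- the oriented edges
  have ho : ∀ t ∈ S, EE G c (t + 1) (o t).1 (o t).2 ∧ ¬ EE G c t (o t).1 (o t).2 := by
    intro t ht
    rw [hS, Finset.mem_filter, Finset.mem_range] at ht
    obtain ⟨htT, hne⟩ := ht
    have hadj := he t htT
    by_cases h1 : c (e t).1 = true
    · have e1 : o t = e t := by simp only [o]; rw [if_pos h1]
      have h2 : c (e t).2 = false := by
        rw [h1] at hne
        cases h : c (e t).2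
        · rfl
        · exact absurd h.symm hne
      rw [e1]
      exact ⟨⟨h1, h2, hadj.1⟩, fun h => hadj.2 h.2.2⟩
    · have e1 : o t = ((e t).2, (e t).1) := by simp only [o]; rw [if_neg h1]
      have h1' : c (e t).1 = false := by
        cases h : c (e t).1
        · rfl
        · exact absurd h h1
      have h2 : c (e t).2 = true := by
        rw [h1'] at hne
        cases h : c (e t).2
        · exact absurd h.symm hne
        · rfl
      rw [e1]
      exact ⟨⟨h2, h1', hadj.1.symm⟩, fun h => hadj.2 h.2.2.symm⟩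
  let bt : V × V → ℕ := fun f => sInf {t | EE G c t f.1 f.2}
  have hbt : ∀ t ∈ S, bt (o t) = t + 1 := by
    intro t ht
    have h := ho t ht
    have hne : {s | EE G c s (o t).1 (o t).2}.Nonempty := ⟨t + 1, h.1⟩
    apply le_antisymm
    · exact Nat.sInf_le h.1
    · have hmem : EE G c (bt (o t)) (o t).1 (o t).2 := Nat.sInf_mem hne
      by_contra hcon
      push Not at hcon
      exact h.2 ((EE_proc G c).mono (by omega) hmem)
  set F : Finset (V × V) := S.image o with hF
  have hcard : F.card = S.card := by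
    apply Finset.card_image_of_injOn
    intro s hs t ht hst
    have h1 := hbt s hs
    have h2 := hbt t ht
    rw [hst] at h1
    omega
  have hgood : Good (EE G c) bt F := by
    refine ⟨?_, ?_, ?_⟩
    · intro f hf g hg hfg
      rw [hF, Finset.mem_image] at hf hg
      obtain ⟨s, hs, rfl⟩ := hf
      obtain ⟨t, ht, rfl⟩ := hg
      rw [hbt s hs, hbt t ht] at hfg
      have : s = t := by omega
      rw [this]
    · intro f hf
      rw [hF, Finset.mem_image] at hf
      obtain ⟨s, hs, rfl⟩ := hf
      rw [hbt s hs]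
      exact (ho s hs).1
    · intro f hf t ht
      rw [hF, Finset.mem_image] at hf
      obtain ⟨s, hs, rfl⟩ := hf
      rw [hbt s hs] at ht
      intro hcon
      exact (ho s hs).2 ((EE_proc G c).mono (by omega) hcon)
  set A₀ : Finset V := Finset.univ.filter (fun x => c x = true) with hA₀
  set B₀ : Finset V := Finset.univ.filter (fun x => ¬ (c x = true)) with hB₀
  have hAB : A₀.card + B₀.card = n := by
    rw [hA₀, hB₀, Finset.card_filter_add_card_filter_not, Finset.card_univ]
  have hFs : F ⊆ A₀ ×ˢ B₀ := by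
    intro f hf
    have := hgood.2.1 f hf
    rw [Finset.mem_product, hA₀, hB₀, Finset.mem_filter, Finset.mem_filter]
    refine ⟨⟨Finset.mem_univ _, this.1⟩, ⟨Finset.mem_univ _, ?_⟩⟩
    rw [this.2.1]
    exact Bool.false_ne_true
  have hmain := main_bound (EE_proc G c) bt hε0 hε1 n A₀ B₀ F hAB hFs hgood
  have hsq := sq_card_le hFs
  rw [hAB, hcard] at hsq
  have hsq' : (S.card : ℝ) ^ 2 ≤ (n : ℝ) * P F := by exact_mod_cast hsq
  have hW : (A₀.card : ℝ) ^ 2 + (B₀.card : ℝ) ^ 2 ≤ (n : ℝ) ^ 2 := by
    have : (n : ℝ) = A₀.card + B₀.card := by rw [← hAB]; push_cast; ring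
    rw [this]
    have : (0 : ℝ) ≤ (A₀.card : ℝ) * B₀.card := mul_nonneg (Nat.cast_nonneg _) (Nat.cast_nonneg _)
    linarith
  have hnε : (0 : ℝ) ≤ (n : ℝ) ^ ε := Real.rpow_nonneg (Nat.cast_nonneg _) _
  have hP : (P F : ℝ) ≤ C * (n : ℝ) ^ 2 * (n : ℝ) ^ ε := by
    refine hmain.trans ?_
    apply mul_le_mul_of_nonneg_right _ hnε
    exact mul_le_mul_of_nonneg_left hW hC0
  have hT2 : (T : ℝ) ≤ 2 * S.card := by exact_mod_cast hc
  have hn0 : (0 : ℝ) ≤ n := Nat.cast_nonneg _
  calc (T : ℝ) ^ 2 ≤ (2 * S.card) ^ 2 := pow_le_pow_left₀ (Nat.cast_nonneg _) hT2 2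
    _ = 4 * (S.card : ℝ) ^ 2 := by ring
    _ ≤ 4 * ((n : ℝ) * P F) := by linarith
    _ ≤ 4 * ((n : ℝ) * (C * (n : ℝ) ^ 2 * (n : ℝ) ^ ε)) := by
        have := mul_le_mul_of_nonneg_left hP hn0
        linarith
    _ = 4 * C * (n : ℝ) ^ 3 * (n : ℝ) ^ ε := by ring

/-- the running time bound for one graph -/
lemma runningTime_le (G : SimpleGraph V) {ε : ℝ} (hε0 : 0 < ε) (hε1 : ε ≤ 1) :
    (runningTime Q3 G : ℝ) ≤
      2 * (1200 / ε ^ 2) ^ (1 / ε) * (Fintype.card V : ℝ) ^ (3 / 2 + ε / 2) := by
  have h := runningTime_sq_le G hε0 hε1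
  set n := Fintype.card V with hn
  have hn0 : (0 : ℝ) ≤ n := Nat.cast_nonneg _
  have hK0 : (0 : ℝ) ≤ 1200 / ε ^ 2 := by positivity
  have e1 : ((1200 / ε ^ 2 : ℝ) ^ (1 / ε)) ^ 2 = (1200 / ε ^ 2) ^ (2 / ε) := by
    rw [← Real.rpow_natCast, ← Real.rpow_mul hK0]
    congr 1
    push_cast
    ring
  have e2 : ((n : ℝ) ^ (3 / 2 + ε / 2)) ^ 2 = (n : ℝ) ^ 3 * (n : ℝ) ^ ε := by
    rw [← Real.rpow_natCast, ← Real.rpow_mul hn0, ← Real.rpow_natCast,
      ← Real.rpow_add' hn0 (by push_cast; positivity)]
    congr 1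
    push_cast
    ring
  apply le_of_sq_le_sq _ (mul_nonneg (mul_nonneg (by norm_num) (Real.rpow_nonneg hK0 _))
    (Real.rpow_nonneg hn0 _))
  rw [mul_pow, mul_pow, e1, e2]
  linarith

end MP_01cec5_co.Cube
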