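import Mathlib
import Pool.Agent.Lib.MP_01cec5_co.Merge
import Pool.Agent.Lib.MP_01cec5_co.Count
import Pool.Agent.Lib.MP_01cec5_co.Base
import Pool.Agent.Lib.MP_01cec5_co.BlockNum

/-!
The small blocks.
-/

namespace MP_01cec5_co

open Finset

variable {α β : Type*} [DecidableEq α] [DecidableEq β]

/-- inequality (I2) -/
lemma sum_offDiag_le {F : Finset (α × β)} {A₀ : Finset α} {B₀ : Finset β}
    (hF : F ⊆ A₀ ×ˢ B₀) :
    ∑ D ∈ maxBlk F A₀ B₀, (D.1.offDiag.card + D.2.offDiag.card) ≤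
      A₀.card ^ 2 + B₀.card ^ 2 := by
  rw [sum_add_distrib]
  have h1 : ∑ D ∈ maxBlk F A₀ B₀, D.1.offDiag.card ≤ A₀.card ^ 2 := by
    rw [← card_biUnion, sq, ← card_product]
    · apply card_le_card
      intro p hp
      rw [mem_biUnion] at hp
      obtain ⟨D, hD, hp⟩ := hp
      rw [mem_maxBlk hF] at hD
      rw [mem_offDiag] at hp
      rw [mem_product]
      exact ⟨(hD.1.subset hF).1 hp.1, (hD.1.subset hF).1 hp.2.1⟩
    · intro D hD D' hD' hne
      exact offDiag_disj (maxBlk_disj hF hD hD' hne).1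
  have h2 : ∑ D ∈ maxBlk F A₀ B₀, D.2.offDiag.card ≤ B₀.card ^ 2 := by
    rw [← card_biUnion, sq, ← card_product]
    · apply card_le_card
      intro p hp
      rw [mem_biUnion] at hp
      obtain ⟨D, hD, hp⟩ := hp
      rw [mem_maxBlk hF] at hD
      rw [mem_offDiag] at hp
      rw [mem_product]
      exact ⟨(hD.1.subset hF).2 hp.1, (hD.1.subset hF).2 hp.2.1⟩
    · intro D hD D' hD' hne
      exact offDiag_disj (maxBlk_disj hF hD hD' hne).2
  exact add_le_add h1 h2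

/-- if all blocks are small -/
lemma small_blocks {E : ℕ → α → β → Prop} {bt : α × β → ℕ} {ε C δ : ℝ} (hε0 : 0 < ε)
    (hε1 : ε ≤ 1) (hδ0 : 0 ≤ δ) (hδ1 : δ ≤ 1) (hC : 1 ≤ C) {n : ℕ} (hn : 1 ≤ n)
    (ih : ∀ m < n, IH E bt ε C m)
    {A₀ : Finset α} {B₀ : Finset β} {F : Finset (α × β)} (hsize : A₀.card + B₀.card = n)
    (hF : F ⊆ A₀ ×ˢ B₀) (hg : Good E bt F)
    (hsmall : ∀ D, Blk F D → ((D.1.card + D.2.card : ℕ) : ℝ) < (1 - δ) * n) :
    (P F : ℝ) ≤ (n : ℝ) ^ 2 + C * ((A₀.card : ℝ) ^ 2 + (B₀.card : ℝ) ^ 2) *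
      ((1 - ε * δ) * (n : ℝ) ^ ε + 4 * (n : ℝ) ^ (ε / 2)) := by
  have h1 := P_le hF (covers_maxBlk hF)
  rw [hsize] at h1
  have h1' : (P F : ℝ) ≤ (n : ℝ) ^ 2 + ∑ D ∈ maxBlk F A₀ B₀, (P (res F D) : ℝ) := by
    exact_mod_cast h1
  have hY : 0 ≤ (1 - ε * δ) * (n : ℝ) ^ ε + 4 * (n : ℝ) ^ (ε / 2) := by
    have : 0 ≤ 1 - ε * δ := by nlinarith
    have q1 : 0 ≤ (n : ℝ) ^ ε := Real.rpow_nonneg (Nat.cast_nonneg _) _
    have q2 : 0 ≤ (n : ℝ) ^ (ε / 2) := Real.rpow_nonneg (Nat.cast_nonneg _) _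
    positivity
  have h2 : ∀ D ∈ maxBlk F A₀ B₀, (P (res F D) : ℝ) ≤
      C * ((1 - ε * δ) * (n : ℝ) ^ ε + 4 * (n : ℝ) ^ (ε / 2)) *
        ((D.1.offDiag.card + D.2.offDiag.card : ℕ) : ℝ) := by
    intro D hD
    rw [mem_maxBlk hF] at hD
    have hlt := hsmall D hD.1
    have hnr : (1 : ℝ) ≤ n := by exact_mod_cast hn
    have hltn : D.1.card + D.2.card < n := by
      have : ((D.1.card + D.2.card : ℕ) : ℝ) < n := by nlinarith
      exact_mod_cast this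
    have := ih _ hltn D.1 D.2 (res F D) rfl (res_subset' F D) (hg.subset (res_subset F D))
    refine this.trans ?_
    have t2 := hD.1.two_le
    have ta : (2 : ℝ) ≤ D.1.card := by exact_mod_cast t2.1
    have tb : (2 : ℝ) ≤ D.2.card := by exact_mod_cast t2.2
    have key := block_num (n := (n : ℝ)) hε0 hε1 hδ0 hδ1 ta tb (by
      have := hlt.le
      push_cast at this
      exact this)
    have oa : (D.1.offDiag.card : ℝ) = (D.1.card : ℝ) * D.1.card - D.1.card := by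
      rw [offDiag_card, Nat.cast_sub (Nat.le_mul_self _)]
      push_cast
      ring
    have ob : (D.2.offDiag.card : ℝ) = (D.2.card : ℝ) * D.2.card - D.2.card := by
      rw [offDiag_card, Nat.cast_sub (Nat.le_mul_self _)]
      push_cast
      ring
    have hC0 : 0 ≤ C := by linarith
    calc C * ((D.1.card : ℝ) ^ 2 + (D.2.card : ℝ) ^ 2) * ((D.1.card + D.2.card : ℕ) : ℝ) ^ ε
        = C * (((D.1.card : ℝ) ^ 2 + (D.2.card : ℝ) ^ 2) *
          ((D.1.card : ℝ) + D.2.card) ^ ε) := by push_cast; ring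
      _ ≤ C * (((D.1.card : ℝ) * D.1.card - D.1.card + ((D.2.card : ℝ) * D.2.card - D.2.card)) *
          ((1 - ε * δ) * (n : ℝ) ^ ε + 4 * (n : ℝ) ^ (ε / 2))) :=
          mul_le_mul_of_nonneg_left key hC0
      _ = _ := by
          push_cast
          rw [oa, ob]
          ring
  have h3 : ∑ D ∈ maxBlk F A₀ B₀, (P (res F D) : ℝ) ≤
      C * ((1 - ε * δ) * (n : ℝ) ^ ε + 4 * (n : ℝ) ^ (ε / 2)) *
        ((A₀.card : ℝ) ^ 2 + (B₀.card : ℝ) ^ 2) := by
    refine (sum_le_sum h2).trans ?_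
    rw [← mul_sum]
    apply mul_le_mul_of_nonneg_left _ (mul_nonneg (by linarith) hY)
    have := sum_offDiag_le hF
    have h' : ((∑ D ∈ maxBlk F A₀ B₀, (D.1.offDiag.card + D.2.offDiag.card) : ℕ) : ℝ) ≤
      ((A₀.card ^ 2 + B₀.card ^ 2 : ℕ) : ℝ) := by exact_mod_cast this
    push_cast at h' ⊢
    exact h'
  linarith [h1', h3]

end MP_01cec5_co
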