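import Mathlib
import Pool.Agent.Lib.MP_01cec5_co.Merge
import Pool.Agent.Lib.MP_01cec5_co.Count
import Pool.Agent.Lib.MP_01cec5_co.Base

/-!
Late edges.
-/

namespace MP_01cec5_co

open Finset

variable {α β : Type*} [DecidableEq α] [DecidableEq β]

/-- few late edges from an outside vertex into the giant block -/
lemma three_left {E : ℕ → α → β → Prop} (hE : Proc E) {bt : α × β → ℕ} {T : ℕ}
    {As : Finset α} {Bs : Finset β} (hA : 2 ≤ As.card) (hc : Comp E T As Bs)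
    {x : α} (hx : x ∉ As) {S : Finset (α × β)} (hg : Good E bt S)
    (hS : ∀ f ∈ S, f.1 = x ∧ f.2 ∈ Bs ∧ T < bt f) : S.card ≤ 3 := by
  by_contra hcon
  push Not at hcon
  have hne : S.Nonempty := card_pos.mp (by omega)
  obtain ⟨f4, hf4, hmax4⟩ := S.exists_max_image bt hne
  have hc1 : (S.erase f4).card = S.card - 1 := card_erase_of_mem hf4
  have hne' : (S.erase f4).Nonempty := card_pos.mp (by omega)
  obtain ⟨f3, hf3, hmax3⟩ := (S.erase f4).exists_max_image bt hne'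
  have hc2 : ((S.erase f4).erase f3).card = (S.erase f4).card - 1 := card_erase_of_mem hf3
  obtain ⟨f1, hf1, f2, hf2, h12⟩ := exists_two (A := (S.erase f4).erase f3) (by omega)
  rw [mem_erase] at hf1 hf2 hf3
  have m1 := hmax3 f1 hf1.2
  have m2 := hmax3 f2 hf2.2
  have hf1S : f1 ∈ S := (mem_erase.mp hf1.2).2
  have hf2S : f2 ∈ S := (mem_erase.mp hf2.2).2
  have n1 : bt f1 ≠ bt f3 := fun h => hf1.1 (hg.1 f1 hf1S f3 hf3.2 h)
  have n2 : bt f2 ≠ bt f3 := fun h => hf2.1 (hg.1 f2 hf2S f3 hf3.2 h)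
  have n3 : bt f3 ≠ bt f4 := fun h => hf3.1 (hg.1 f3 hf3.2 f4 hf4 h)
  have m3 := hmax4 f3 hf3.2
  have s1 := hS f1 hf1S
  have s2 := hS f2 hf2S
  have s4 := hS f4 hf4
  obtain ⟨t, ht⟩ : ∃ t, bt f3 = t + 1 := ⟨bt f3 - 1, by omega⟩
  obtain ⟨u, hu, v, hv, huv⟩ := exists_two hA
  have hux : u ≠ x := fun h => hx (h ▸ hu)
  have hvx : v ≠ x := fun h => hx (h ▸ hv)
  have d12 : f1.2 ≠ f2.2 := fun h => h12 (Prod.ext (s1.1.trans s2.1.symm) h)
  have d14 : f1.2 ≠ f4.2 := by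
    intro h
    have : f1 = f4 := Prod.ext (s1.1.trans s4.1.symm) h
    exact (mem_erase.mp hf1.2).1 this
  have d24 : f2.2 ≠ f4.2 := by
    intro h
    have : f2 = f4 := Prod.ext (s2.1.trans s4.1.symm) h
    exact (mem_erase.mp hf2.2).1 this
  have hct : Comp E t As Bs := hc.mono hE (by omega)
  have e1 : E t x f1.2 := by
    have := hE.mono (show bt f1 ≤ t by omega) (hg.2.1 f1 hf1S)
    rwa [s1.1] at this
  have e2 : E t x f2.2 := by
    have := hE.mono (show bt f2 ≤ t by omega) (hg.2.1 f2 hf2S)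
    rwa [s2.1] at this
  have fin := hE.step t u v x f1.2 f2.2 f4.2 huv hux hvx d12 d14 d24
    (hct u hu _ s1.2.1) (hct u hu _ s2.2.1) (hct u hu _ s4.2.1)
    (hct v hv _ s1.2.1) (hct v hv _ s2.2.1) (hct v hv _ s4.2.1) e1 e2
  have := hg.2.2 f4 hf4 (t + 1) (by omega)
  rw [s4.1] at this
  exact this fin

lemma three_right {E : ℕ → α → β → Prop} (hE : Proc E) {bt : α × β → ℕ} {T : ℕ}
    {As : Finset α} {Bs : Finset β} (hB : 2 ≤ Bs.card) (hc : Comp E T As Bs)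
    {y : β} (hy : y ∉ Bs) {S : Finset (α × β)} (hg : Good E bt S)
    (hS : ∀ f ∈ S, f.2 = y ∧ f.1 ∈ As ∧ T < bt f) : S.card ≤ 3 := by
  by_contra hcon
  push Not at hcon
  have hne : S.Nonempty := card_pos.mp (by omega)
  obtain ⟨f4, hf4, hmax4⟩ := S.exists_max_image bt hne
  have hc1 : (S.erase f4).card = S.card - 1 := card_erase_of_mem hf4
  have hne' : (S.erase f4).Nonempty := card_pos.mp (by omega)
  obtain ⟨f3, hf3, hmax3⟩ := (S.erase f4).exists_max_image bt hne'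
  have hc2 : ((S.erase f4).erase f3).card = (S.erase f4).card - 1 := card_erase_of_mem hf3
  obtain ⟨f1, hf1, f2, hf2, h12⟩ := exists_two (A := (S.erase f4).erase f3) (by omega)
  rw [mem_erase] at hf1 hf2 hf3
  have m1 := hmax3 f1 hf1.2
  have m2 := hmax3 f2 hf2.2
  have hf1S : f1 ∈ S := (mem_erase.mp hf1.2).2
  have hf2S : f2 ∈ S := (mem_erase.mp hf2.2).2
  have n1 : bt f1 ≠ bt f3 := fun h => hf1.1 (hg.1 f1 hf1S f3 hf3.2 h)
  have n2 : bt f2 ≠ bt f3 := fun h => hf2.1 (hg.1 f2 hf2S f3 hf3.2 h)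
  have n3 : bt f3 ≠ bt f4 := fun h => hf3.1 (hg.1 f3 hf3.2 f4 hf4 h)
  have m3 := hmax4 f3 hf3.2
  have s1 := hS f1 hf1S
  have s2 := hS f2 hf2S
  have s4 := hS f4 hf4
  obtain ⟨t, ht⟩ : ∃ t, bt f3 = t + 1 := ⟨bt f3 - 1, by omega⟩
  obtain ⟨u, hu, v, hv, huv⟩ := exists_two hB
  have huy : u ≠ y := fun h => hy (h ▸ hu)
  have hvy : v ≠ y := fun h => hy (h ▸ hv)
  have d12 : f1.1 ≠ f2.1 := fun h => h12 (Prod.ext h (s1.1.trans s2.1.symm))
  have d14 : f1.1 ≠ f4.1 := by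
    intro h
    have : f1 = f4 := Prod.ext h (s1.1.trans s4.1.symm)
    exact (mem_erase.mp hf1.2).1 this
  have d24 : f2.1 ≠ f4.1 := by
    intro h
    have : f2 = f4 := Prod.ext h (s2.1.trans s4.1.symm)
    exact (mem_erase.mp hf2.2).1 this
  have hct : Comp E t As Bs := hc.mono hE (by omega)
  have e1 : E t f1.1 y := by
    have := hE.mono (show bt f1 ≤ t by omega) (hg.2.1 f1 hf1S)
    rwa [s1.1] at this
  have e2 : E t f2.1 y := by
    have := hE.mono (show bt f2 ≤ t by omega) (hg.2.1 f2 hf2S)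
    rwa [s2.1] at this
  have fin := hE.step t f1.1 f2.1 f4.1 u v y d12 d14 d24 huv huy hvy
    (hct _ s1.2.1 u hu) (hct _ s1.2.1 v hv) e1
    (hct _ s2.2.1 u hu) (hct _ s2.2.1 v hv) e2
    (hct _ s4.2.1 u hu) (hct _ s4.2.1 v hv)
  have := hg.2.2 f4 hf4 (t + 1) (by omega)
  rw [s4.1] at this
  exact this fin

/-- late edges touching the giant block -/
lemma late_card {E : ℕ → α → β → Prop} (hE : Proc E) {bt : α × β → ℕ} {T : ℕ}
    {A₀ : Finset α} {B₀ : Finset β} {As : Finset α} {Bs : Finset β}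
    (hA : 2 ≤ As.card) (hB : 2 ≤ Bs.card) (hc : Comp E T As Bs)
    {F : Finset (α × β)} (hF : F ⊆ A₀ ×ˢ B₀) (hg : Good E bt F)
    (hlate : ∀ f ∈ F, T < bt f) (htouch : ∀ f ∈ F, f.1 ∈ As ∨ f.2 ∈ Bs) :
    F.card ≤ 3 * (A₀.card + B₀.card) := by
  classical
  have hsub : F ⊆ (A₀.filter (fun x => x ∉ As)).biUnion
      (fun x => F.filter (fun f => f.1 = x ∧ f.2 ∈ Bs)) ∪
      (B₀.filter (fun y => y ∉ Bs)).biUnion
        (fun y => F.filter (fun f => f.2 = y ∧ f.1 ∈ As)) := by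
    intro f hf
    have hm := mem_product.mp (hF hf)
    have hnot : ¬ (f.1 ∈ As ∧ f.2 ∈ Bs) := by
      rintro ⟨h1, h2⟩
      exact hg.2.2 f hf T (hlate f hf) (hc _ h1 _ h2)
    rw [mem_union, mem_biUnion, mem_biUnion]
    rcases htouch f hf with h | h
    · right
      have h2 : f.2 ∉ Bs := fun h2 => hnot ⟨h, h2⟩
      exact ⟨f.2, mem_filter.mpr ⟨hm.2, h2⟩, mem_filter.mpr ⟨hf, rfl, h⟩⟩
    · left
      have h2 : f.1 ∉ As := fun h2 => hnot ⟨h2, h⟩
      exact ⟨f.1, mem_filter.mpr ⟨hm.1, h2⟩, mem_filter.mpr ⟨hf, rfl, h⟩⟩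
  have c1 : ((A₀.filter (fun x => x ∉ As)).biUnion
      (fun x => F.filter (fun f => f.1 = x ∧ f.2 ∈ Bs))).card ≤ A₀.card * 3 := by
    calc _ ≤ ∑ x ∈ A₀.filter (fun x => x ∉ As),
          (F.filter (fun f => f.1 = x ∧ f.2 ∈ Bs)).card := card_biUnion_le
      _ ≤ ∑ x ∈ A₀.filter (fun x => x ∉ As), 3 := by
        apply sum_le_sum
        intro x hx
        rw [mem_filter] at hx
        apply three_left hE hA hc hx.2 (hg.subset (filter_subset _ _))
        intro f hf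
        rw [mem_filter] at hf
        exact ⟨hf.2.1, hf.2.2, hlate f hf.1⟩
      _ ≤ A₀.card * 3 := by
        rw [sum_const, smul_eq_mul]
        exact Nat.mul_le_mul_right _ (card_filter_le _ _)
  have c2 : ((B₀.filter (fun y => y ∉ Bs)).biUnion
        (fun y => F.filter (fun f => f.2 = y ∧ f.1 ∈ As))).card ≤ B₀.card * 3 := by
    calc _ ≤ ∑ y ∈ B₀.filter (fun y => y ∉ Bs),
          (F.filter (fun f => f.2 = y ∧ f.1 ∈ As)).card := card_biUnion_le
      _ ≤ ∑ y ∈ B₀.filter (fun y => y ∉ Bs), 3 := by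
        apply sum_le_sum
        intro y hy
        rw [mem_filter] at hy
        apply three_right hE hB hc hy.2 (hg.subset (filter_subset _ _))
        intro f hf
        rw [mem_filter] at hf
        exact ⟨hf.2.1, hf.2.2, hlate f hf.1⟩
      _ ≤ B₀.card * 3 := by
        rw [sum_const, smul_eq_mul]
        exact Nat.mul_le_mul_right _ (card_filter_le _ _)
  have := card_le_card hsub
  have u := card_union_le ((A₀.filter (fun x => x ∉ As)).biUnion
      (fun x => F.filter (fun f => f.1 = x ∧ f.2 ∈ Bs)))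
      ((B₀.filter (fun y => y ∉ Bs)).biUnion
        (fun y => F.filter (fun f => f.2 = y ∧ f.1 ∈ As)))
  omega

end MP_01cec5_co
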